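import Pool.Agent.Work.MP_8f87b2_h4.TJ3V
import Pool.Agent.Work.MP_8f87b2_h35.InJ

/-!
# J3V against the one soliton gadgets (`JG` form: types J3, JM, JY, J5, NM) (helper4)

`SqD` data with `2 ≤ c3 (cont R)` (two parts larger than 2) and `4 ≤ ht R`: no pure word, no word of the class, no
mirrored mixed word.
-/

set_option autoImplicit false
set_option linter.unusedSimpArgs false

namespace Pool.OddHC

open Finset Equiv BinaryTree Pool.Agent.Work.MP_8f87b2_co

open J3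

variable {k : ℕ} {F F' : Set (Cyc k)} {g g' : DG k}

namespace J3

variable {R B S P : BinaryTree Unit}

open H1 J

/-- number of parts larger than 2 of a word -/
def cc (P : BinaryTree Unit) : ℕ := c3 (OddHC.cont P)

theorem c3_raise_ge' (M : Multiset ℕ) : c3 M ≤ c3 (OddHC.raise M) := by
  by_cases h : 3 ≤ M.sup
  · exact c3_raise_ge h
  · have : c3 M = 0 := c3_two fun p hp => by
      have := Multiset.le_sup hp
      omega
    omega

theorem cc_app (P Q : BinaryTree Unit) : cc (app P Q) = cc P + cc Q := by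
  unfold cc
  rw [cont_app, c3_add]

theorem cc_node (A C : BinaryTree Unit) : cc A + cc C ≤ cc (A △ C) := by
  unfold cc
  rw [OddHC.cont_node, c3_add]
  have := c3_raise_ge' (OddHC.cont A)
  omega

theorem SqD.cc (h : SqD k R B S) : J3.cc B + J3.cc S = J3.cc R := by
  unfold J3.cc
  rw [← c3_add, h.cont]

/-- every word has at least as many parts larger than 2 as `R` -/
theorem SqD.ccW (h : SqD k R B S) {i : ℕ} (hi : i < 20) : J3.cc R ≤ J3.cc (H1.W R .nil B S i) := by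
  have e := h.cc
  have n := J3.cc_node
  have a := J3.cc_app
  have l0 := a R
  interval_cases i
  · change J3.cc R ≤ J3.cc (app R _)
    rw [a]; omega
  · change J3.cc R ≤ J3.cc (app R _)
    rw [a]; omega
  · change J3.cc R ≤ J3.cc (.nil △ app R (.nil △ .nil))
    have h1 := n .nil (app R (.nil △ .nil))
    rw [a] at h1; omega
  · change J3.cc R ≤ J3.cc (app R (.nil △ .nil) △ .nil)
    have h1 := n (app R (.nil △ .nil)) .nil
    rw [a] at h1; omega
  · change J3.cc R ≤ J3.cc ((.nil △ .nil) △ R)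
    have h1 := n (.nil △ .nil) R
    omega
  · change J3.cc R ≤ J3.cc (.nil △ (.nil △ R))
    have h1 := n .nil (.nil △ R)
    have h2 := n .nil R
    omega
  · change J3.cc R ≤ J3.cc (R △ (.nil △ .nil))
    have h1 := n R (.nil △ .nil)
    omega
  · change J3.cc R ≤ J3.cc ((.nil △ R) △ .nil)
    have h1 := n (.nil △ R) .nil
    have h2 := n .nil R
    omega
  · change J3.cc R ≤ J3.cc (.nil △ (R △ .nil))
    have h1 := n .nil (R △ .nil)
    have h2 := n R .nil
    omega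
  · change J3.cc R ≤ J3.cc ((R △ .nil) △ .nil)
    have h1 := n (R △ .nil) .nil
    have h2 := n R .nil
    omega
  · change J3.cc R ≤ J3.cc (app B ((.nil △ .nil) △ S))
    have h1 := n (.nil △ .nil) S
    rw [a]; omega
  · change J3.cc R ≤ J3.cc (app B (.nil △ (.nil △ S)))
    have h1 := n .nil (.nil △ S)
    have h2 := n .nil S
    rw [a]; omega
  · change J3.cc R ≤ J3.cc (S △ app B (.nil △ .nil))
    have h1 := n S (app B (.nil △ .nil))
    rw [a] at h1; omega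
  · change J3.cc R ≤ J3.cc (app S (app B (.nil △ .nil) △ .nil))
    have h1 := n (app B (.nil △ .nil)) .nil
    rw [a] at h1
    rw [a]; omega
  · change J3.cc R ≤ J3.cc ((.nil △ S) △ B)
    have h1 := n (.nil △ S) B
    have h2 := n .nil S
    omega
  · change J3.cc R ≤ J3.cc (.nil △ (S △ B))
    have h1 := n .nil (S △ B)
    have h2 := n S B
    omega
  · change J3.cc R ≤ J3.cc (app S (B △ (.nil △ .nil)))
    have h1 := n B (.nil △ .nil)
    rw [a]; omega
  · change J3.cc R ≤ J3.cc ((S △ B) △ .nil)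
    have h1 := n (S △ B) .nil
    have h2 := n S B
    omega
  · change J3.cc R ≤ J3.cc (.nil △ app S (B △ .nil))
    have h1 := n .nil (app S (B △ .nil))
    have h2 := n B .nil
    rw [a] at h1; omega
  · change J3.cc R ≤ J3.cc (app S (B △ .nil) △ .nil)
    have h1 := n (app S (B △ .nil)) .nil
    have h2 := n B .nil
    rw [a] at h1; omega

theorem SqD.not_one (h : SqD k R B S) (h2 : 2 ≤ J3.cc R) {i : ℕ} (hi : i < 20) :
    ¬ J.One (OddHC.cont (H1.W R .nil B S i)) := by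
  intro h1
  have e := c3_one h1
  have := h.ccW hi
  unfold J3.cc at this h2
  omega

/-- the six heads -/
def Six (R B S Y : BinaryTree Unit) : Prop :=
  Y = app R (.nil △ .nil) ∨ Y = .nil △ R ∨ Y = R △ .nil ∨ Y = S △ B ∨ Y = app S (B △ .nil) ∨
    (B = .nil ∧ Y = .nil △ S)

theorem SqD.fst6 (h : SqD k R B S) {i : ℕ} (hi : i < 20) (h9 : i ≠ 9) {Y : BinaryTree Unit}
    (e : H1.W R .nil B S i = .nil △ Y) : Six R B S Y := by
  rcases h.fst hi h9 e with ⟨_, e2⟩ | ⟨_, e2⟩ | ⟨_, e2⟩ | ⟨_, e2⟩ | ⟨_, e2⟩ | ⟨_, hB, e2⟩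
  · exact Or.inl e2
  · exact Or.inr (Or.inl e2)
  · exact Or.inr (Or.inr (Or.inl e2))
  · exact Or.inr (Or.inr (Or.inr (Or.inl e2)))
  · exact Or.inr (Or.inr (Or.inr (Or.inr (Or.inl e2))))
  · exact Or.inr (Or.inr (Or.inr (Or.inr (Or.inr ⟨hB, e2⟩))))

theorem SqD.lst6 (h : SqD k R B S) {i : ℕ} (hi : i < 20) (h9 : i ≠ 9) {Y : BinaryTree Unit}
    (e : H1.W R .nil B S i = app Y (.nil △ .nil)) : Six R B S Y := by
  rcases h.lst hi h9 e with ⟨_, e2⟩ | ⟨_, e2⟩ | ⟨_, e2⟩ | ⟨_, e2⟩ | ⟨_, e2⟩ | ⟨_, hB, e2⟩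
  · exact Or.inl e2
  · exact Or.inr (Or.inl e2)
  · exact Or.inr (Or.inr (Or.inl e2))
  · exact Or.inr (Or.inr (Or.inr (Or.inl e2)))
  · exact Or.inr (Or.inr (Or.inr (Or.inr (Or.inl e2))))
  · exact Or.inr (Or.inr (Or.inr (Or.inr (Or.inr ⟨hB, e2⟩))))

theorem SqD.one6 (h : SqD k R B S) {i : ℕ} (hi : i < 20) (h9 : i ≠ 9) {Y : BinaryTree Unit}
    (e : H1.W R .nil B S i = Y △ .nil) : Six R B S Y := by
  rcases h.one1 hi h9 e with ⟨_, e2⟩ | ⟨_, e2⟩ | ⟨_, e2⟩ | ⟨_, e2⟩ | ⟨_, hB, e2⟩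
  · exact Or.inl e2
  · exact Or.inr (Or.inl e2)
  · exact Or.inr (Or.inr (Or.inr (Or.inl e2)))
  · exact Or.inr (Or.inr (Or.inr (Or.inr (Or.inl e2))))
  · exact Or.inr (Or.inr (Or.inr (Or.inr (Or.inr ⟨hB, e2⟩))))

/-- `(Z)Y` with `ht Z = 2`, last component not `()` -/
theorem SqD.six_no (h : SqD k R B S) (h4 : 4 ≤ OddHC.ht R) {Z Y : BinaryTree Unit} (hZ : OddHC.ht Z = 2)
    (hY : Y ≠ .nil) (hl : H1.lastB Y = false) : ¬ Six R B S (Z △ Y) := by
  have z0 : OddHC.ht (.nil : BinaryTree Unit) = 0 := rfl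
  have hS := h.htS
  have hZ0 : Z ≠ .nil := by rintro rfl; omega
  rintro (e | e | e | e | e | ⟨_, e⟩)
  · have e1 := congrArg H1.lastB e
    rw [H1.lastB_cons hY, hl, H1.lastB_app (by simp)] at e1
    exact absurd e1 (by simp [H1.lastB, H1.isNil])
  · exact hZ0 (H1.node_inj e).1
  · exact hY (H1.node_inj e).2
  · have := (H1.node_inj e).1
    rw [this] at hZ
    omega
  · obtain ⟨X, Y', e1, hX⟩ := h.top
    rw [e1] at e
    have := (H1.node_inj e).1
    rw [this] at hZ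
    omega
  · exact hZ0 (H1.node_inj e).1

theorem ht_mir4 (t : BinaryTree Unit) : OddHC.ht (Tsq.mir t) = OddHC.ht t := by
  rw [OddHC.ht_eq, HM.cont_mir, ← OddHC.ht_eq]

theorem mir_ne4 {t : BinaryTree Unit} (h : t ≠ .nil) : Tsq.mir t ≠ .nil := by
  intro e
  have h1 := ht_mir4 t
  rw [e] at h1
  have h2 := ht_pos h
  have : OddHC.ht (.nil : BinaryTree Unit) = 0 := rfl
  omega

theorem mirb2 (t : ℕ) : ∃ X, Tsq.mir (b2 (t + 1)) = (.nil △ .nil) △ X := by
  refine ⟨Tsq.mir (b2 t), ?_⟩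
  rw [b2_succ', Tsq.mir_app]
  rfl

theorem mirb2_ht (t : ℕ) : OddHC.ht (Tsq.mir (b2 (t + 1))) = 2 := by
  rw [ht_mir4, ht_b2']

theorem mirS_last {D : BinaryTree Unit} (hD : GD D) (u : ℕ) :
    Tsq.mir (RR 0 D u) ≠ .nil ∧ H1.lastB (Tsq.mir (RR 0 D u)) = false := by
  have e : Tsq.mir (RR 0 D u) = app (Tsq.mir (b2 u)) (Tsq.mir D △ .nil) := by
    change Tsq.mir (D △ b2 u) = _
    rw [Tsq.mir_node]
  constructor
  · rw [e]
    exact H1.app_ne (by simp)
  · rw [e, H1.lastB_app (by simp)]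
    change isNil (Tsq.mir D) = false
    apply isNil_f.2
    apply mir_ne4
    rintro rfl
    have := hD.ht
    have h0 : OddHC.ht (.nil : BinaryTree Unit) = 0 := rfl
    omega

theorem one_S0 {n : ℕ} (hn : 1 ≤ n) {Ψ : ZMod (2 * n + 1) → ℕ} {t u : ℕ} {D : BinaryTree Unit}
    (h : Tsq.mir (Ring1.RF n Ψ) = RR t D u) : J.One (OddHC.cont (RR 0 D u)) := by
  have h1 : OddHC.cont (RR t D u) = {n + 2} + Multiset.replicate (∑ x, Ψ x) 2 := by
    rw [← h, HM.cont_mir, Ring1.cont_RF hn]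
  have h2 : OddHC.cont (RR t D u) = Multiset.replicate t 2 + OddHC.cont (RR 0 D u) := by
    change OddHC.cont (lv2 t (RR 0 D u)) = _
    rw [cont_lv2]
  rw [h2] at h1
  have h3 : n + 2 ∈ OddHC.cont (RR 0 D u) := by
    have h4 : n + 2 ∈ Multiset.replicate t 2 + OddHC.cont (RR 0 D u) := by
      rw [h1]
      exact Multiset.mem_add.2 (Or.inl (Multiset.mem_singleton_self _))
    rcases Multiset.mem_add.1 h4 with h5 | h5
    · have := Multiset.eq_of_mem_replicate h5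
      omega
    · exact h5
  obtain ⟨L, hL⟩ := Multiset.exists_cons_of_mem h3
  refine ⟨n + 2, L, hL, by omega, ?_⟩
  intro p hp
  rw [hL, Multiset.add_cons, Multiset.singleton_add, Multiset.cons_inj_right] at h1
  have h5 : p ∈ Multiset.replicate (∑ x, Ψ x) 2 := by
    rw [← h1]
    exact Multiset.mem_add.2 (Or.inr hp)
  exact le_of_eq (Multiset.eq_of_mem_replicate h5)

theorem b2_le (t : ℕ) : ∀ p ∈ OddHC.cont (b2 t), p ≤ 2 := by
  have h8 : OddHC.cont (b2 t) = Multiset.replicate t 2 := by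
    change OddHC.cont (lv2 t .nil) = _
    rw [cont_lv2, OddHC.cont_nil, add_zero]
  intro p hp
  rw [h8] at hp
  exact le_of_eq (Multiset.eq_of_mem_replicate hp)

/-- no mirrored mixed word -/
theorem SqD.not_Mx (h : SqD k R B S) (h2 : 2 ≤ J3.cc R) (h4 : 4 ≤ OddHC.ht R) {n : ℕ} (hn : 1 ≤ n)
    {Ψ : ZMod (2 * n + 1) → ℕ} {i : ℕ} (hi : i < 20) (h9 : i ≠ 9) : ¬ IsMx n Ψ (H1.W R .nil B S i) := by
  rintro ⟨t, D, u, j, ht, hD, h1, hj, hj', e⟩
  have hone := one_S0 hn h1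
  have hb := b2_le t
  obtain ⟨t, rfl⟩ : ∃ t', t = t' + 1 := ⟨t - 1, by omega⟩
  obtain ⟨hS0, hSl⟩ := mirS_last hD u
  have hsix := h.six_no h4 (mirb2_ht t) hS0 hSl
  have h0 : Tsq.mir BinaryTree.nil = BinaryTree.nil := rfl
  have s1 : ∀ p ∈ ({1} : Multiset ℕ), p ≤ 2 := by
    intro p hp
    rw [Multiset.mem_singleton] at hp
    omega
  have c1 : ∀ {M : Multiset ℕ}, J.One M → J.One ({1} + M) := fun h => by
    rw [add_comm]
    exact h.add s1
  have nope : J.One (OddHC.cont (mw (t + 1) D u j)) → False := by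
    intro h5
    apply h.not_one h2 hi
    rw [e, HM.cont_mir]
    exact h5
  interval_cases j
  · apply nope
    simp only [mw, W, cont_app, OddHC.cont_node, OddHC.cont_nil, raise_zero, app, add_zero, zero_add]
    rw [add_comm]
    exact (c1 (c1 hone)).add hb
  · apply nope
    simp only [mw, W, cont_app, OddHC.cont_node, OddHC.cont_nil, raise_zero, app, add_zero, zero_add]
    rw [← add_assoc]
    exact (hone.raise.add hb).add s1
  · -- 13
    have e1 : Tsq.mir (mw (t + 1) D u 13) = (.nil △ Tsq.mir (b2 (t + 1))) △ Tsq.mir (RR 0 D u) := by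
      simp only [mw, W, Tsq.mir_node, Tsq.mir_app, h0, app]
    rw [e1] at e
    obtain ⟨X, hX⟩ := mirb2 t
    have hp : p12 (H1.W R .nil B S i) = true := by
      rw [e, hX, p12_node, p12_node]
      have e3 : (isNil (.nil : BinaryTree Unit) && hd12 ((.nil △ .nil) △ X)) = true := rfl
      rw [e3]
      simp
    obtain ⟨h6, _⟩ := h.p12W hi h9 hp
    rcases h6 with rfl | rfl | rfl
    · have := (H1.node_inj e).1
      exact absurd this (by simp)
    · have := (H1.node_inj e).1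
      exact absurd this (by simp)
    · exact hS0 (H1.node_inj e).2.symm
  · apply nope
    simp only [mw, W, cont_app, OddHC.cont_node, OddHC.cont_nil, raise_zero, app, add_zero, zero_add]
    exact (c1 hone).raise.add hb
  · apply nope
    simp only [mw, W, cont_app, OddHC.cont_node, OddHC.cont_nil, raise_zero, app, add_zero, zero_add]
    exact c1 (hone.raise.add hb)
  · have e1 : Tsq.mir (mw (t + 1) D u 16) = .nil △ (Tsq.mir (b2 (t + 1)) △ Tsq.mir (RR 0 D u)) := by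
      simp only [mw, W, Tsq.mir_node, Tsq.mir_app, h0, app]
    rw [e1] at e
    exact hsix (h.fst6 hi h9 e)
  · apply nope
    simp only [mw, W, cont_app, OddHC.cont_node, OddHC.cont_nil, raise_zero, app, add_zero, zero_add]
    exact (hone.raise.add hb).raise
  · have e1 : Tsq.mir (mw (t + 1) D u 18) =
        app (Tsq.mir (b2 (t + 1)) △ Tsq.mir (RR 0 D u)) (.nil △ .nil) := by
      simp only [mw, W, Tsq.mir_node, Tsq.mir_app, h0, app]
    rw [e1] at e
    exact hsix (h.lst6 hi h9 e)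
  · have e1 : Tsq.mir (mw (t + 1) D u 19) = (Tsq.mir (b2 (t + 1)) △ Tsq.mir (RR 0 D u)) △ .nil := by
      simp only [mw, W, Tsq.mir_node, Tsq.mir_app, h0, app]
    rw [e1] at e
    exact hsix (h.one6 hi h9 e)

/-- no word of the one soliton gadgets -/
theorem SqD.not_J (h : SqD k R B S) (h2 : 2 ≤ J3.cc R) (h4 : 4 ≤ OddHC.ht R) {n : ℕ} (hn : 1 ≤ n)
    {Ψ : ZMod (2 * n + 1) → ℕ} {i : ℕ} (hi : i < 20) (h9 : i ≠ 9) :
    ¬ IsPu n Ψ (H1.W R .nil B S i) ∧ ¬ IsUs n Ψ (H1.W R .nil B S i) ∧ ¬ IsMx n Ψ (H1.W R .nil B S i) := by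
  refine ⟨fun h1 => h.not_one h2 hi (one_Pu hn h1), fun h1 => h.not_one h2 hi ?_, h.not_Mx h2 h4 hn hi h9⟩
  rw [h1.2]
  exact one_RF hn Ψ

end J3

/-- **J3V against the one soliton gadgets**; side conditions on J3V: height at least 4, two parts larger than 2 -/
theorem TyJ3V.dis_JG (h : TyJ3V F g) (h4 : ∀ c ∈ F, 4 ≤ htc c) (h2 : ∀ c ∈ F, 2 ≤ J.c3 (contc c)) {n : ℕ}
    (hn : 1 ≤ n) {B' : Finset (X k)} {P U M : Set (ZMod (2 * n + 1) → ℕ)} (hJ : J.JG n B' P U M) :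
    ∀ w ∈ g.B, w ∉ B' := by
  obtain ⟨R, B, S, w0, h1, hp, rfl, rfl⟩ := h
  have e0 : OddHC.cont (sX R B S w0 0).1 = OddHC.cont R + {2} := h1.cont0 w0
  have k4 : 4 ≤ OddHC.ht R := by
    have h5 := h4 _ (Or.inl rfl)
    change 4 ≤ (OddHC.cont (sX R B S w0 0).1).sup at h5
    rw [h1.cont0, h1.supz] at h5
    exact h5
  have k2 : 2 ≤ J3.cc R := by
    have h5 := h2 _ (Or.inl rfl)
    change 2 ≤ J.c3 (OddHC.cont (sX R B S w0 0).1) at h5
    rw [e0, J.c3_add] at h5
    have h6 : J.c3 ({2} : Multiset ℕ) = 0 := J.c3_two fun p hp => by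
      rw [Multiset.mem_singleton] at hp
      omega
    rw [h6] at h5
    exact h5
  intro w hw hw'
  obtain ⟨i, hi, h9, rfl⟩ := mem_gadS.1 hw
  have e1 := h1.word w0 hi
  rcases hJ _ hw' with ⟨Φ, _, h5⟩ | ⟨Φ, _, h5⟩ | ⟨Φ, _, h5⟩
  · rw [e1] at h5
    exact (h1.not_J k2 k4 hn hi h9).1 h5
  · rw [e1] at h5
    exact (h1.not_J k2 k4 hn hi h9).2.1 h5
  · rw [e1] at h5
    exact (h1.not_J k2 k4 hn hi h9).2.2 h5

end Pool.OddHC
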