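import Pool.Agent.Work.MP_8f87b2_h4.SqTop
import Pool.Agent.Work.MP_8f87b2_h3.A0T

/-!
# W-T-J3V : no common word (helper4)
-/

set_option autoImplicit false

namespace Pool.OddHC

open Finset Equiv BinaryTree Pool.Agent.Work.MP_8f87b2_co

open J3

variable {k : ℕ} {F F' : Set (Cyc k)} {g g' : DG k}

namespace J3

variable {R B S P : BinaryTree Unit}

open H1

/-- no part 1: a component is `(())` or has no part 1 inside -/
theorem cnt_inner {A C : BinaryTree Unit} (h : (OddHC.cont (A △ C)).count 1 = 0) :
    A = .nil △ .nil ∨ (OddHC.cont A).count 1 = 0 := by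
  have hA0 : A ≠ .nil := by
    rintro rfl
    exact ne_nil_node h rfl
  rw [OddHC.cont_node, Multiset.count_add] at h
  have h1 : (raise (OddHC.cont A)).count 1 = 0 := by omega
  have hne : OddHC.cont A ≠ 0 := by rwa [Ne, cont_eq_zero]
  have hs : 1 ≤ (OddHC.cont A).sup := by
    rw [← OddHC.ht_eq]
    exact ht_pos hA0
  by_cases h2 : 2 ≤ (OddHC.cont A).sup
  · right
    rw [← h1]
    exact (count_raise 1 (by omega) (by omega)).symm
  · left
    have h3 : (OddHC.cont A).sup = 1 := by omega
    have h4 := count_raise_sup hne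
    rw [h3, h1] at h4
    have h5 : OddHC.cont A = Multiset.replicate (Multiset.card (OddHC.cont A)) 1 := by
      rw [Multiset.eq_replicate]
      refine ⟨rfl, fun b hb => ?_⟩
      have := cont_pos A b hb
      have := Multiset.le_sup hb
      omega
    have h6 : Multiset.card (OddHC.cont A) = 1 := by
      rw [h5, Multiset.count_replicate_self] at h4
      omega
    have h7 : A.numNodes = 1 := by
      rw [← cont_sum, h5, h6]
      rfl
    cases A with
    | nil => exact absurd rfl hA0
    | node _ X Y =>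
      change X.numNodes + Y.numNodes + 1 = 1 at h7
      have e1 : X.numNodes = 0 := by omega
      have e2 : Y.numNodes = 0 := by omega
      have f : ∀ Z : BinaryTree Unit, Z.numNodes = 0 → Z = .nil := by
        intro Z hZ
        cases Z with
        | nil => rfl
        | node _ U V =>
          change U.numNodes + V.numNodes + 1 = 0 at hZ
          omega
      rw [f X e1, f Y e2]

/-- no part 1: `p12` is false -/
theorem p12_one {P : BinaryTree Unit} (X : BinaryTree Unit) (h : (OddHC.cont P).count 1 = 0) :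
    p12 (app P X) = p12 X := by
  induction P generalizing X with
  | nil => rfl
  | node u A C ihA ihC =>
    change p12 (A △ app C X) = p12 X
    have hA0 : A ≠ .nil := by
      rintro rfl
      exact ne_nil_node h rfl
    rw [p12_node, ihC X (cnt_node h), isNil_f.2 hA0]
    have hA : p12 A = false := by
      rcases cnt_inner h with h1 | h2
      · subst h1; rfl
      · have := ihA .nil h2
        rw [app_nil] at this
        rw [this]; rfl
    rw [hA]
    simp

theorem p12_one0 (h : (OddHC.cont P).count 1 = 0) : p12 P = false := by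
  have := p12_one .nil h
  rw [app_nil] at this
  rw [this]; rfl

theorem hd12_app (h : P ≠ .nil) (X : BinaryTree Unit) : hd12 (app P X) = hd12 P := by
  cases P with
  | nil => exact absurd rfl h
  | node _ A C => rfl

theorem is1_ht {A : BinaryTree Unit} (h : is1 A = true) : A = .nil △ .nil := by
  cases A with
  | nil => exact absurd h (by simp [is1])
  | node _ X Y =>
    change (isNil X && isNil Y) = true at h
    rw [Bool.and_eq_true] at h
    have f : ∀ Z : BinaryTree Unit, isNil Z = true → Z = .nil := by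
      intro Z hZ
      cases Z with
      | nil => rfl
      | node _ U V => exact absurd hZ (by simp [isNil])
    rw [f X h.1, f Y h.2]

theorem SqD.hdS (h : SqD k R B S) : hd12 S = false := by
  obtain ⟨X, Y, rfl, hX⟩ := h.top
  rw [hd12_node]
  cases e : is1 X with
  | false => rfl
  | true =>
    have e1 := is1_ht e
    subst e1
    have h3 := h.h3
    have : OddHC.ht (.nil △ .nil : BinaryTree Unit) = 1 := rfl
    omega

theorem is1_big {A : BinaryTree Unit} (h : 2 ≤ OddHC.ht A) : is1 A = false := by
  cases e : is1 A with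
  | false => rfl
  | true =>
    have e1 := is1_ht e
    subst e1
    have : OddHC.ht (.nil △ .nil : BinaryTree Unit) = 1 := rfl
    omega

/-- the words with `()(())` -/
theorem SqD.p12W (h : SqD k R B S) {i : ℕ} (hi : i < 20) (h9 : i ≠ 9)
    (hp : p12 (H1.W R .nil B S i) = true) : (i = 2 ∨ i = 5 ∨ i = 7) ∧ hd12 R = true := by
  have hR := h.ne
  have hS := h.neS
  have aR := fun X => p12_one X h.one
  have aB := fun X => p12_one X h.oneB
  have aS := fun X => p12_one X h.oneS
  have bR := p12_one0 h.one
  have bB := p12_one0 h.oneB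
  have bS := p12_one0 h.oneS
  have cR := fun X => hd12_app hR X
  have cS := fun X => hd12_app hS X
  have dS := h.hdS
  have iR : is1 R = false := is1_big (by have := h.h3; omega)
  have iS : is1 S = false := is1_big (by have := h.h3; have := h.htS; omega)
  have gR : isNil R = false := isNil_f.2 hR
  have gS : isNil S = false := isNil_f.2 hS
  have g0 : isNil (.nil : BinaryTree Unit) = true := rfl
  have g1 : hd12 (.nil : BinaryTree Unit) = false := rfl
  have g2 : is1 (.nil : BinaryTree Unit) = false := rfl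
  have gn : ∀ A C : BinaryTree Unit, isNil (A △ C) = false := fun _ _ => rfl
  interval_cases i <;>
    simp [H1.W, app, p12_node, p12_nil, hd12_node, aR, aB, aS, bR, bB, bS, cR, cS, dS, iR, iS, gR, gS, g0, g1, g2,
      gn] at hp h9 ⊢ <;>
    exact hp

theorem hd12_ex {P : BinaryTree Unit} (h : hd12 P = true) : ∃ Y, P = (.nil △ .nil) △ Y := by
  cases P with
  | nil => exact absurd h (by simp [hd12])
  | node _ A Y => exact ⟨Y, by rw [← is1_ht h]⟩

/-- `()()(())Y` is no T word -/
theorem t3_bbt {b m a : ℕ} {Y : BinaryTree Unit} (hm : 1 ≤ m) {i : ℕ} (hi : i < 20)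
    (e : w3 b m a i = .nil △ (.nil △ ((.nil △ .nil) △ Y))) : False := by
  obtain ⟨m, rfl⟩ : ∃ m', m = m' + 1 := ⟨m - 1, by omega⟩
  rw [w3_fw b _ a i hi] at e
  interval_cases i <;> rcases b with _ | _ | b <;>
    simp [fw3, th, app, L3_m, t3G, app_eq_nil] at e

/-- `(()(())Y)` is no T word -/
theorem t3_in7 {b m a : ℕ} {Y : BinaryTree Unit} (hm : 1 ≤ m) {i : ℕ} (hi : i < 20)
    (e : w3 b m a i = (.nil △ ((.nil △ .nil) △ Y)) △ .nil) : False := by
  obtain ⟨m, rfl⟩ : ∃ m', m = m' + 1 := ⟨m - 1, by omega⟩
  rw [w3_fw b _ a i hi] at e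
  interval_cases i <;> rcases b with _ | _ | b <;>
    simp [fw3, th, app, L3_m, t3G, app_eq_nil] at e

/-- **J3V against T**: no T word is one of the 19 words -/
theorem SqD.tW (h : SqD k R B S) {b m a : ℕ} (hm : 1 ≤ m) (ha : 1 ≤ a) {i j : ℕ} (hi : i < 20) (h9 : i ≠ 9)
    (hj : j < 20) (e : H1.W R .nil B S i = w3 b m a j) : False := by
  have hp : p12 (H1.W R .nil B S i) = true := by rw [e]; exact p12_w3 hm ha hj
  obtain ⟨h1, h2⟩ := h.p12W hi h9 hp
  obtain ⟨Y, hY⟩ := hd12_ex h2
  rcases h1 with rfl | rfl | rfl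
  · change .nil △ app R (.nil △ .nil) = _ at e
    rw [hY] at e
    exact t3_btY hm hj e.symm
  · change .nil △ (.nil △ R) = _ at e
    rw [hY] at e
    exact t3_bbt hm hj e.symm
  · change (.nil △ R) △ .nil = _ at e
    rw [hY] at e
    exact t3_in7 hm hj e.symm

end J3

theorem TyJ3V.disT (h : TyJ3V F g) (h' : TyT F' g') : ∀ w ∈ g.B, w ∉ g'.B := by
  obtain ⟨R, B, S, w0, h1, hp, rfl, rfl⟩ := h
  obtain ⟨b, m, a, w0', h1', rfl, rfl⟩ := h'
  intro w hw hw'
  obtain ⟨i, hi, h9, rfl⟩ := mem_gadS.1 hw
  obtain ⟨j, hj, e⟩ := mem_gad20.1 hw'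
  have e1 := congrArg Subtype.val e
  rw [h1'.word w0' hj, h1.word w0 hi] at e1
  exact h1.tW h1'.mpos h1'.pos hi h9 hj e1.symm

theorem dj_TJ3V : Dj (k := k) TyT TyJ3V := fun _ _ _ _ h h' _ w hw hw' => h'.disT h w hw' hw

theorem dj_J3VT : Dj (k := k) TyJ3V TyT := fun _ _ _ _ h h' _ => h.disT h'

end Pool.OddHC
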