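import Pool.Agent.Work.MP_8f87b2_h4.Strong
import Pool.Agent.Work.MP_8f87b2_h4.JGJ3V

/-!
# J3V at height 3 (helper4)

No condition `4 ≤ ht R`: E with the rule `Low` if `R` has a part 2 and (`B = nil` or `2 < ht B`, RULE J); one soliton gadgets
if `R` has at least three parts larger than 2.
-/

set_option autoImplicit false
set_option linter.unusedSimpArgs false
set_option linter.unusedVariables false

namespace Pool.OddHC

open Finset Equiv BinaryTree Pool.Agent.Work.MP_8f87b2_co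

open J3

variable {k : ℕ} {F F' : Set (Cyc k)} {g g' : DG k}

namespace J3

variable {R B S Y : BinaryTree Unit} {c : ℕ}

/-- `X = S(B)` is not Low -/
theorem SqD.lowSB3 (h : SqD k R B S) (h2 : 1 ≤ (OddHC.cont R).count 2) (hJ : B = .nil ∨ 2 < OddHC.ht B) :
    ¬ FhOK (app S (B △ .nil)) := by
  rintro ⟨k1, -⟩
  have h3 := h.h3
  have hc := h.cont
  obtain ⟨Z, Z', rfl, hZ, hZ'⟩ := h.top2
  have f : H1.fh (app (Z △ Z') (B △ .nil)) = OddHC.ht Z := by
    apply H1.fh_node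
    rintro rfl
    have z0 : OddHC.ht (BinaryTree.nil : BinaryTree Unit) = 0 := rfl
    omega
  have e : OddHC.cont (app (Z △ Z') (B △ .nil)) = OddHC.cont (Z △ Z') + raise (OddHC.cont B) := by
    rw [OddHC.cont_app, OddHC.cont_node B, OddHC.cont_nil, add_zero]
  have h4 : 1 ≤ (OddHC.cont (app (Z △ Z') (B △ .nil))).count 2 := by
    rw [e, Multiset.count_add]
    rw [← hc, Multiset.count_add] at h2
    rcases hJ with rfl | hJ
    · rw [OddHC.cont_nil, Multiset.count_zero] at h2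
      omega
    · have sB : (OddHC.cont B).sup = OddHC.ht B := (OddHC.ht_eq B).symm
      rw [count_raise 2 (by omega) (by omega)]
      omega
  have := k1 h4
  omega

/-- **E with the rule `Low`, any height** -/
theorem SqD.eLow3 (h : SqD k R B S) (h2 : 1 ≤ (OddHC.cont R).count 2) (hJ : B = .nil ∨ 2 < OddHC.ht B)
    {w0 : X k} (ht : IsTri .nil Y .nil F g) (hL : FhOK Y)
    (hd : ∀ c ∈ F, c ≠ cyc (sX R B S w0 1) ∧ c ≠ cyc (sX R B S w0 2)) {w : X k}
    (hw : w ∈ g.B) {i : ℕ} (hi : i < 20) (h9 : i ≠ 9) : w.1 ≠ H1.W R .nil B S i := by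
  intro e
  obtain ⟨l1, l2⟩ := h.low1 (Or.inl h2)
  rcases h.eW ht hd hw hi h9 e with rfl | rfl | rfl
  · exact l1 hL
  · exact l2 hL
  · exact h.lowSB3 h2 hJ hL

open J H1

/-- a mirrored mixed word has at most two parts larger than 2 -/
theorem mx_c3 {n : ℕ} (hn : 1 ≤ n) {Ψ : ZMod (2 * n + 1) → ℕ} {w : BinaryTree Unit} (h : IsMx n Ψ w) :
    J3.cc w ≤ 2 := by
  obtain ⟨t, D, u, j, ht, hD, h1, hj, hj', rfl⟩ := h
  have hone := one_S0 hn h1
  have hb : J3.cc (b2 t) = 0 := c3_two (b2_le t)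
  have hS : J3.cc (RR 0 D u) = 1 := c3_one hone
  have cm : J3.cc (Tsq.mir (mw t D u j)) = J3.cc (mw t D u j) := by
    unfold J3.cc
    rw [HM.cont_mir]
  rw [cm]
  have l0 : J3.cc (.nil : BinaryTree Unit) = 0 := rfl
  have a := J3.cc_app
  have n1 : ∀ A C : BinaryTree Unit, J3.cc (A △ C) ≤ J3.cc A + 1 + J3.cc C := by
    intro A C
    unfold J3.cc
    rw [OddHC.cont_node, c3_add]
    have := c3_raise_le (OddHC.cont A)
    omega
  have n2 : ∀ A C : BinaryTree Unit, 3 ≤ OddHC.ht A → J3.cc (A △ C) ≤ J3.cc A + J3.cc C := by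
    intro A C hA
    unfold J3.cc
    rw [OddHC.cont_node, c3_add]
    rw [OddHC.ht_eq] at hA
    have := c3_raise hA
    omega
  have n3 : ∀ C : BinaryTree Unit, J3.cc (.nil △ C) = J3.cc C := by
    intro C
    unfold J3.cc
    rw [OddHC.cont_node, c3_add, OddHC.cont_nil, raise_zero]
    have : c3 ({1} : Multiset ℕ) = 0 := c3_two (by intro p hp; rw [Multiset.mem_singleton] at hp; omega)
    omega
  have hht : 3 ≤ OddHC.ht (RR 0 D u) := by
    change 3 ≤ OddHC.ht (D △ b2 u)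
    rw [OddHC.ht_node]
    have := hD.ht
    omega
  have hn0 : J3.cc (.nil △ .nil : BinaryTree Unit) = 0 := n3 _
  interval_cases j
  · change J3.cc (app (b2 t) (.nil △ (.nil △ RR 0 D u))) ≤ 2
    rw [a, n3, n3]; omega
  · change J3.cc (RR 0 D u △ app (b2 t) (.nil △ .nil)) ≤ 2
    have := n2 (RR 0 D u) (app (b2 t) (.nil △ .nil)) hht
    rw [a] at this; omega
  · change J3.cc (app (RR 0 D u) (app (b2 t) (.nil △ .nil) △ .nil)) ≤ 2
    have := n1 (app (b2 t) (.nil △ .nil)) .nil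
    rw [a] at this ⊢; omega
  · change J3.cc ((.nil △ RR 0 D u) △ b2 t) ≤ 2
    have := n1 (.nil △ RR 0 D u) (b2 t)
    rw [n3] at this; omega
  · change J3.cc (.nil △ (RR 0 D u △ b2 t)) ≤ 2
    have := n1 (RR 0 D u) (b2 t)
    rw [n3]; omega
  · change J3.cc (app (RR 0 D u) (b2 t △ (.nil △ .nil))) ≤ 2
    have := n1 (b2 t) (.nil △ .nil)
    rw [a]; omega
  · change J3.cc ((RR 0 D u △ b2 t) △ .nil) ≤ 2
    have h5 := n2 (RR 0 D u) (b2 t) hht
    have h6 := n1 (RR 0 D u △ b2 t) .nil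
    omega
  · change J3.cc (.nil △ app (RR 0 D u) (b2 t △ .nil)) ≤ 2
    have := n1 (b2 t) .nil
    rw [n3, a]; omega
  · change J3.cc (app (RR 0 D u) (b2 t △ .nil) △ .nil) ≤ 2
    have h5 := n1 (b2 t) .nil
    have h6 := n2 (app (RR 0 D u) (b2 t △ .nil)) .nil (by rw [OddHC.ht_app]; omega)
    rw [a] at h6; omega

/-- three parts larger than 2: no word of the one soliton gadgets, any height -/
theorem SqD.not_J3 (h : SqD k R B S) (h3 : 3 ≤ J3.cc R) {n : ℕ} (hn : 1 ≤ n)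
    {Ψ : ZMod (2 * n + 1) → ℕ} {i : ℕ} (hi : i < 20) :
    ¬ IsPu n Ψ (H1.W R .nil B S i) ∧ ¬ IsUs n Ψ (H1.W R .nil B S i) ∧ ¬ IsMx n Ψ (H1.W R .nil B S i) := by
  refine ⟨fun h1 => h.not_one (by omega) hi (one_Pu hn h1), fun h1 => h.not_one (by omega) hi ?_, fun h1 => ?_⟩
  · rw [h1.2]
    exact one_RF hn Ψ
  · have := mx_c3 hn h1
    have := h.ccW hi
    omega

end J3

/-- **E against J3V, any height** : `R` has a part 2 and RULE J -/
theorem TyE.disJ3V3 (h : TyE F g) {R B S : BinaryTree Unit} (hq : SqD k R B S)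
    (h2 : 1 ≤ (OddHC.cont R).count 2) (hJ : B = .nil ∨ 2 < OddHC.ht B) {w0 : X k}
    (hd : ∀ c ∈ F, c ≠ cyc (sX R B S w0 1) ∧ c ≠ cyc (sX R B S w0 2)) {w : X k} (hw : w ∈ g.B)
    {i : ℕ} (hi : i < 20) (h9 : i ≠ 9) : w.1 ≠ H1.W R .nil B S i := by
  obtain ⟨Y, ht, hY⟩ := h.fh
  exact hq.eLow3 h2 hJ ht hY hd hw hi h9

/-- **J3V against the one soliton gadgets**, three parts larger than 2 -/
theorem TyJ3V.dis_JG3 (h : TyJ3V F g) (h3 : ∀ c ∈ F, 3 ≤ J.c3 (contc c)) {n : ℕ}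
    (hn : 1 ≤ n) {B' : Finset (X k)} {P U M : Set (ZMod (2 * n + 1) → ℕ)} (hJ : J.JG n B' P U M) :
    ∀ w ∈ g.B, w ∉ B' := by
  obtain ⟨R, B, S, w0, h1, hp, rfl, rfl⟩ := h
  have k2 : 3 ≤ J3.cc R := by
    have h5 := h3 _ (Or.inl rfl)
    change 3 ≤ J.c3 (OddHC.cont (sX R B S w0 0).1) at h5
    rw [h1.cont0, J.c3_add] at h5
    have h6 : J.c3 ({2} : Multiset ℕ) = 0 := J.c3_two fun p hp => by
      rw [Multiset.mem_singleton] at hp
      omega
    rw [h6] at h5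
    exact h5
  intro w hw hw'
  obtain ⟨i, hi, h9, rfl⟩ := mem_gadS.1 hw
  have e1 := h1.word w0 hi
  rcases hJ _ hw' with ⟨Φ, _, h5⟩ | ⟨Φ, _, h5⟩ | ⟨Φ, _, h5⟩
  · rw [e1] at h5
    exact (h1.not_J3 k2 hn hi).1 h5
  · rw [e1] at h5
    exact (h1.not_J3 k2 hn hi).2.1 h5
  · rw [e1] at h5
    exact (h1.not_J3 k2 hn hi).2.2 h5

end Pool.OddHC
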