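import Pool.Agent.Work.MP_8f87b2_h4.Shape

/-!
# J3V against E (helper4)

Words of an E-triple `(Y); Y(), ()Y` which are words of a J3V gadget: only `Y = (R)`, `(S)B`, `S(B)`.
-/

set_option autoImplicit false

namespace Pool.OddHC

open Finset Equiv BinaryTree Pool.Agent.Work.MP_8f87b2_co

open J3

variable {k : ℕ} {F F' : Set (Cyc k)} {g g' : DG k} {R B S Y : BinaryTree Unit}

namespace J3

/-- common words of an E-triple and the 19 words -/
theorem SqD.eW (h : SqD k R B S) {w0 : X k} (ht : IsTri .nil Y .nil F g)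
    (hd : ∀ c ∈ F, c ≠ cyc (sX R B S w0 1) ∧ c ≠ cyc (sX R B S w0 2)) {w : X k} (hw : w ∈ g.B)
    {i : ℕ} (hi : i < 20) (h9 : i ≠ 9) (e : w.1 = H1.W R .nil B S i) :
    Y = R △ .nil ∨ Y = S △ B ∨ Y = app S (B △ .nil) := by
  -- three impossible `Y`
  have n1 : Y ≠ app R (.nil △ .nil) := by
    rintro rfl
    obtain ⟨a, b, c, ha, hb, hc, h1, h2, h3, rfl, rfl⟩ := ht
    refine (hd (cyc b) (Or.inl rfl)).1 ?_
    congr 1
    apply Subtype.ext
    rw [hb, h.word w0 (by norm_num)]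
    change app (app R (.nil △ .nil)) (.nil △ .nil) = app R (.nil △ (.nil △ .nil))
    rw [H1.app_assoc]; rfl
  have n2 : Y ≠ .nil △ R := by
    rintro rfl
    obtain ⟨a, b, c, ha, hb, hc, h1, h2, h3, rfl, rfl⟩ := ht
    refine (hd (cyc b) (Or.inl rfl)).2 ?_
    congr 1
    apply Subtype.ext
    rw [hb, h.word w0 (by norm_num)]
    rfl
  have n3 : B = .nil → Y ≠ .nil △ S := by
    rintro rfl rfl
    obtain ⟨a, b, c, ha, hb, hc, h1, h2, h3, rfl, rfl⟩ := ht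
    refine (hd (cyc c) (Or.inr rfl)).1 ?_
    rw [cyc_eq.2 (h.same w0 (i := 1) (j := 11) (by simp))]
    congr 1
    apply Subtype.ext
    rw [hc, h.word w0 (by norm_num)]
    rfl
  rcases ht.words w hw with e1 | ⟨-, e1 | e1⟩
  · rcases h.one1 hi h9 (e.symm.trans e1) with ⟨_, e2⟩ | ⟨_, e2⟩ | ⟨_, e2⟩ | ⟨_, e2⟩ | ⟨_, hB, e2⟩
    · exact absurd e2 n1
    · exact absurd e2 n2
    · exact Or.inr (Or.inl e2)
    · exact Or.inr (Or.inr e2)
    · exact absurd e2 (n3 hB)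
  · rcases h.lst hi h9 (e.symm.trans e1) with ⟨_, e2⟩ | ⟨_, e2⟩ | ⟨_, e2⟩ | ⟨_, e2⟩ | ⟨_, e2⟩ | ⟨_, hB, e2⟩
    · exact absurd e2 n1
    · exact absurd e2 n2
    · exact Or.inl e2
    · exact Or.inr (Or.inl e2)
    · exact Or.inr (Or.inr e2)
    · exact absurd e2 (n3 hB)
  · rcases h.fst hi h9 (e.symm.trans e1) with ⟨_, e2⟩ | ⟨_, e2⟩ | ⟨_, e2⟩ | ⟨_, e2⟩ | ⟨_, e2⟩ | ⟨_, hB, e2⟩
    · exact absurd e2 n1
    · exact absurd e2 n2
    · exact Or.inl e2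
    · exact Or.inr (Or.inl e2)
    · exact Or.inr (Or.inr e2)
    · exact absurd e2 (n3 hB)

end J3

end Pool.OddHC
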