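import Pool.Agent.Work.MP_8f87b2_h4.Ends

/-!
# J3V against the content links Cr, Cl (helper4)
-/

set_option autoImplicit false
set_option linter.unusedSimpArgs false

namespace Pool.OddHC

open Finset Equiv BinaryTree Pool.Agent.Work.MP_8f87b2_co

namespace J3

variable {k : ℕ} {F F' : Set (Cyc k)} {g g' : DG k} {R B S Y P Q A : BinaryTree Unit} {c : ℕ}

theorem len_ch {n : ℕ} (h : 1 ≤ n) : H1.len (H1.ch n) = 1 := by
  obtain ⟨n, rfl⟩ : ∃ n', n = n' + 1 := ⟨n - 1, by omega⟩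
  rfl

theorem ch_pred {c : ℕ} (h : 1 ≤ c) : H1.ch c = H1.ch (c - 1) △ .nil := by
  obtain ⟨c, rfl⟩ : ∃ c', c = c' + 1 := ⟨c - 1, by omega⟩
  rfl

/-- `[c]` is not `()`, a word with two components is not `[c]` -/
theorem ch_two {c : ℕ} {P Q : BinaryTree Unit} (hQ : Q ≠ .nil) : H1.ch c ≠ P △ Q := by
  intro e
  have l := congrArg H1.len e
  have := H1.len_pos hQ
  rw [len_node] at l
  by_cases hc : 1 ≤ c
  · rw [len_ch hc] at l; omega
  · obtain rfl : c = 0 := by omega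
    exact absurd e (by simp [H1.ch])

theorem ch_lf {c : ℕ} (hc : 2 ≤ c) : H1.ch c ≠ .nil △ .nil := by
  intro e
  have := congrArg OddHC.ht e
  rw [ht_ch] at this
  change c = 1 at this
  omega

theorem ch_app {c : ℕ} {P : BinaryTree Unit} (hc : 2 ≤ c) : H1.ch c ≠ app P (.nil △ .nil) := by
  by_cases hP : P = .nil
  · subst hP
    exact ch_lf hc
  · obtain ⟨C, D, rfl⟩ : ∃ C D, P = C △ D := by
      cases P with
      | nil => exact absurd rfl hP
      | node _ C D => exact ⟨C, D, rfl⟩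
    exact ch_two (H1.app_ne (by simp))

/-- second component `()`: a part 1 -/
theorem cnt_second {P Q : BinaryTree Unit} (h : (OddHC.cont (A △ P)).count 1 = 0) (hP : P ≠ .nil)
    (e : app P Q = .nil △ Y) : False := by
  obtain ⟨P', e1, _⟩ := fst_app hP e
  exact ne_nil_node (cnt_node h) e1

/-- common words of a Cr-triple `(Y)[c]; Y[c+1], [c]()Y` and the 19 words -/
theorem SqD.crW (h : SqD k R B S) {w0 : X k} (hc : 2 ≤ c) (hY : c + 1 ≤ OddHC.ht Y) (hodd : Odd c)
    (ht : IsTri .nil Y (H1.ch c) F g)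
    (hd : ∀ d ∈ F, d ≠ cyc (sX R B S w0 0) ∧ d ≠ cyc (sX R B S w0 1)) {w : X k} (hw : w ∈ g.B)
    {i : ℕ} (hi : i < 20) (h9 : i ≠ 9) (e : w.1 = H1.W R .nil B S i) :
    (i = 14 ∧ B = H1.ch c ∧ Y = .nil △ S) ∨
    (i = 18 ∧ B = H1.ch c ∧ Y = .nil △ S) ∨
    (i = 4 ∧ ∃ R', R = app R' (H1.ch c △ .nil) ∧ Y = (.nil △ .nil) △ R') ∨
    (i = 5 ∧ ∃ R', R = app R' (H1.ch c △ .nil) ∧ Y = .nil △ (.nil △ R')) ∨
    (i = 14 ∧ ∃ B', B = app B' (H1.ch c △ .nil) ∧ Y = (.nil △ S) △ B') ∨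
    (i = 15 ∧ ∃ B', B = app B' (H1.ch c △ .nil) ∧ Y = .nil △ (S △ B')) := by
  have hc3 : 3 ≤ c := by
    obtain ⟨n, hn⟩ := hodd
    omega
  have hR := h.ne
  have hS := h.neS
  have hYn := ht_ge_ne hY
  have lY := H1.len_pos hYn
  have lR := H1.len_pos hR
  have lS := H1.len_pos hS
  have hcn : H1.ch c ≠ .nil := ch_ne (by omega)
  have hcn' : H1.ch (c - 1) ≠ .nil := ch_ne2 hc
  have hla : OddHC.ht (.nil △ .nil : BinaryTree Unit) = 1 := rfl
  have nlf : Y ≠ .nil △ .nil := by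
    rintro rfl
    rw [hla] at hY
    omega
  rcases ht.words w hw with e1 | ⟨hF, e1 | e1⟩
  · -- host `(Y)[c]`
    have e2 : H1.W R .nil B S i = app (Y △ .nil) (H1.ch (c - 1) △ .nil) := by
      rw [← ch_pred (by omega)]
      exact e.symm.trans e1
    rcases h.lstA hi h9 hcn' e2 with ⟨_, e3, _⟩ | ⟨_, R', _, e4⟩ | ⟨_, R', _, e4⟩ | ⟨_, _, e4⟩ |
      ⟨_, S', e3, e4⟩ | ⟨_, S', e3, e4⟩ |
      ⟨_, e3, _⟩ | ⟨_, _, _, e4⟩ | ⟨rfl, B', e3, e4⟩ | ⟨_, _, _, e4⟩ | ⟨_, B', e3, e4⟩ | ⟨_, _, e4⟩ |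
      ⟨_, _, e4⟩ | ⟨_, _, e4⟩ | ⟨_, _, e4⟩ | ⟨_, _, e4⟩
    · exact absurd e3 (ch_lf (by omega))
    · exact absurd (H1.node_inj e4).1 nlf
    · exact absurd (H1.node_inj e4).1 hYn
    · exact absurd (H1.node_inj e4).1 hYn
    · by_cases hB : B = .nil
      · subst hB
        exact absurd (H1.node_inj e4).1 nlf
      · have l := congrArg H1.len e4
        have := H1.len_pos hB
        rw [H1.len_app, len_node, len_node, len_nil] at l
        omega
    · by_cases hB : B = .nil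
      · subst hB
        exact absurd (H1.node_inj e4).1 hYn
      · have l := congrArg H1.len e4
        have := H1.len_pos hB
        rw [H1.len_app, len_node, len_node, len_nil] at l
        omega
    · exact absurd e3 (ch_app (by omega))
    · exact absurd e4 (by simp)
    · obtain ⟨e5, rfl⟩ := H1.node_inj e4
      left
      refine ⟨rfl, ?_, e5⟩
      rw [e3, ch_pred (show 1 ≤ c by omega)]
      rfl
    · exact absurd (H1.node_inj e4).1 hYn
    · exact absurd (H1.node_inj e4).1 hYn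
    · exact absurd (H1.node_inj e4).1 hYn
    · exact absurd e4 (by simp)
    · exact absurd e4 (by simp)
    · exact absurd e4 (by simp)
    · exact absurd e4 (by simp)
  · -- new `Y[c+1]`
    have e2 : H1.W R .nil B S i = app Y (H1.ch c △ .nil) := e.symm.trans e1
    have cw : cyc (sX R B S w0 0) ≠ cyc w ∧ cyc (sX R B S w0 1) ≠ cyc w :=
      ⟨fun h => (hd _ hF).1 h.symm, fun h => (hd _ hF).2 h.symm⟩
    have ew : w = sX R B S w0 i := Subtype.ext (by rw [e, h.word w0 hi])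
    rcases h.lstA hi h9 hcn e2 with ⟨_, e3, _⟩ | h4 | h5 | ⟨_, e3, _⟩ |
      ⟨rfl, _⟩ | ⟨rfl, _⟩ |
      ⟨_, e3, _⟩ | ⟨_, _, _, e4⟩ | h14 | ⟨_, hB, e3, _⟩ | h15 | ⟨_, e3, e4⟩ |
      ⟨_, _, e4⟩ | ⟨_, _, e4⟩ | ⟨_, _, e4⟩ | ⟨_, _, e4⟩
    · exact absurd e3 (ch_lf (by omega))
    · right; right; left
      exact h4
    · right; right; right; left
      exact h5
    · exact absurd e3.symm (h.ne_ch c)
    · exact absurd (by rw [ew, cyc_eq.2 (h.same w0 (i := 0) (j := 10) (by simp))]) cw.1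
    · exact absurd (by rw [ew, cyc_eq.2 (h.same w0 (i := 1) (j := 11) (by simp))]) cw.2
    · exact absurd e3 (ch_app (by omega))
    · exact absurd e4 hYn
    · right; right; right; right; left
      exact h14
    · exact absurd e3.symm (h.ne_chS hB c)
    · right; right; right; right; right
      exact h15
    · right; left
      exact ⟨by assumption, e3.symm, e4⟩
    · exact absurd e4 hYn
    · exact absurd e4 hYn
    · exact absurd e4 hYn
    · exact absurd e4 hYn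
  · -- new `[c]()Y`
    have e2 : H1.W R .nil B S i = H1.ch (c - 1) △ (.nil △ Y) := by
      have e3 := e.symm.trans e1
      rw [ch_pred (show 1 ≤ c by omega)] at e3
      exact e3
    have cw : cyc (sX R B S w0 0) ≠ cyc w ∧ cyc (sX R B S w0 1) ≠ cyc w :=
      ⟨fun h => (hd _ hF).1 h.symm, fun h => (hd _ hF).2 h.symm⟩
    have ew : w = sX R B S w0 i := Subtype.ext (by rw [e, h.word w0 hi])
    rcases h.fstA hi h9 hcn' e2 with ⟨rfl, _⟩ | ⟨rfl, _⟩ | ⟨_, _, e3⟩ | ⟨_, e3, _⟩ | ⟨_, e3, _⟩ |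
      ⟨_, _, e3⟩ | ⟨_, hB, e3, _⟩ | ⟨rfl, _⟩ | ⟨rfl, _⟩ | ⟨_, e3, e4⟩ | ⟨_, S', e3, e4⟩ | ⟨_, e3, _⟩ |
      ⟨_, S', e3, e4⟩ | ⟨_, _, e3⟩ | ⟨_, _, e3⟩
    · exact absurd (by rw [ew]) cw.1
    · exact absurd (by rw [ew]) cw.2
    · exact absurd e3 (by simp)
    · exact absurd e3 (ch_lf (by omega))
    · exact absurd e3.symm (h.ne_ch _)
    · exact absurd e3 (by simp)
    · exact absurd e3 (ch_lf (by omega))
    · exact absurd (by rw [ew, cyc_eq.2 (h.same w0 (i := 0) (j := 10) (by simp))]) cw.1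
    · exact absurd (by rw [ew, cyc_eq.2 (h.same w0 (i := 1) (j := 11) (by simp))]) cw.2
    · by_cases hB : B = .nil
      · subst hB
        exact absurd (H1.node_inj e4).2 hYn
      · obtain ⟨B', e5, _⟩ := fst_app hB e4.symm
        exact absurd e5 (ne_nil_node h.oneB)
    · by_cases hS' : S' = .nil
      · subst hS'
        have := (H1.node_inj e4).2
        exact absurd this hYn
      · exact (cnt_second (A := H1.ch (c - 1)) (by rw [← e3]; exact h.oneS) hS' e4.symm).elim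
    · exact absurd e3 (ch_two hS)
    · by_cases hS' : S' = .nil
      · subst hS'
        exact absurd (H1.node_inj e4).2 nlf
      · exact (cnt_second (A := H1.ch (c - 1)) (by rw [← e3]; exact h.oneS) hS' e4.symm).elim
    · exact absurd e3 (by simp)
    · exact absurd e3 (by simp)

/-- common words of a Cl-triple `[c](Y); Y()[c], [c+1]Y` and the 19 words -/
theorem SqD.clW (h : SqD k R B S) {w0 : X k} (hc : 2 ≤ c) (hY : c + 1 ≤ OddHC.ht Y)
    (ht : IsTri (H1.ch c) Y .nil F g)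
    (hd : ∀ d ∈ F, d ≠ cyc (sX R B S w0 0) ∧ d ≠ cyc (sX R B S w0 1)) {w : X k} (hw : w ∈ g.B)
    {i : ℕ} (hi : i < 20) (h9 : i ≠ 9) (e : w.1 = H1.W R .nil B S i) :
    (i = 4 ∧ c = 2 ∧ R = Y △ .nil) ∨ (i = 10 ∧ c = 2 ∧ B = .nil ∧ S = Y △ .nil) ∨
    (i = 13 ∧ ∃ S', S = H1.ch c △ S' ∧ Y = app S' ((app B (.nil △ .nil)) △ .nil)) ∨
    (i = 16 ∧ ∃ S', S = H1.ch c △ S' ∧ Y = app S' (B △ (.nil △ .nil))) := by
  have hR := h.ne
  have hS := h.neS
  have hYn := ht_ge_ne hY
  have lY := H1.len_pos hYn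
  have lR := H1.len_pos hR
  have lS := H1.len_pos hS
  have hcn : H1.ch c ≠ .nil := ch_ne (by omega)
  have hcn' : H1.ch (c - 1) ≠ .nil := ch_ne2 hc
  have hla : OddHC.ht (.nil △ .nil : BinaryTree Unit) = 1 := rfl
  have nlf : Y ≠ .nil △ .nil := by
    rintro rfl
    rw [hla] at hY
    omega
  have lf2 : H1.ch (c - 1) = .nil △ .nil → c = 2 := by
    intro e
    have := congrArg OddHC.ht e
    rw [ht_ch, hla] at this
    omega
  rcases ht.words w hw with e1 | ⟨hF, e1 | e1⟩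
  · -- host `[c](Y)`
    have e2 : H1.W R .nil B S i = H1.ch (c - 1) △ (Y △ .nil) := by
      have e3 := e.symm.trans e1
      rw [ch_pred (show 1 ≤ c by omega)] at e3
      exact e3
    rcases h.fstA hi h9 hcn' e2 with ⟨_, R', _, e4⟩ | ⟨_, R', _, e4⟩ | ⟨_, _, e3⟩ | ⟨_, e3, e4⟩ |
      ⟨_, _, e3⟩ | ⟨_, _, e3⟩ | ⟨_, hB, e3, e4⟩ | ⟨_, B', _, e4⟩ | ⟨_, B', _, e4⟩ | ⟨_, _, e4⟩ |
      ⟨_, S', e3, e4⟩ | ⟨_, e3, _⟩ | ⟨_, S', e3, e4⟩ | ⟨_, _, e3⟩ | ⟨_, _, e3⟩
    · have e5 : app .nil (Y △ .nil) = app R' ((.nil △ .nil) △ .nil) := e4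
      exact absurd (H1.app_snoc e5).2 nlf
    · have l := congrArg H1.len e4
      rw [H1.len_app, len_node, len_node, len_node, len_nil] at l
      omega
    · exact absurd e3 (by simp)
    · left
      exact ⟨by assumption, lf2 e3, e4.symm⟩
    · exact absurd (H1.node_inj e3).1 hYn
    · exact absurd e3 (by simp)
    · right; left
      exact ⟨by assumption, lf2 e3, hB, e4.symm⟩
    · have l := congrArg H1.len e4
      rw [H1.len_app, len_node, len_node, len_nil] at l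
      omega
    · have l := congrArg H1.len e4
      rw [H1.len_app, len_node, len_node, len_node, len_nil] at l
      omega
    · have e5 : app .nil (Y △ .nil) = app B (.nil △ .nil) := e4
      exact absurd (H1.app_snoc e5).2 hYn
    · have e5 : app .nil (Y △ .nil) = app S' ((app B (.nil △ .nil)) △ .nil) := e4
      obtain ⟨e6, e7⟩ := H1.app_snoc e5
      have h1 := h.htS
      have h2 := h.htB
      rw [e3, ← e6] at h1
      rw [e7, ht_app, hla] at hY
      rw [ht_node, ht_ch] at h1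
      have : OddHC.ht (BinaryTree.nil : BinaryTree Unit) = 0 := rfl
      have := h.h3
      omega
    · exact absurd e3 (ch_two hS)
    · have l := congrArg H1.len e4
      rw [H1.len_app, len_node, len_node, len_node, len_nil] at l
      omega
    · exact absurd e3 (by simp)
    · exact absurd e3 (by simp)
  · -- new `Y()[c]`
    have e2 : H1.W R .nil B S i = app (app Y (.nil △ .nil)) (H1.ch (c - 1) △ .nil) := by
      have e3 := e.symm.trans e1
      rw [ch_pred (show 1 ≤ c by omega)] at e3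
      rw [e3, H1.app_assoc]
      rfl
    have cw : cyc (sX R B S w0 0) ≠ cyc w ∧ cyc (sX R B S w0 1) ≠ cyc w :=
      ⟨fun h => (hd _ hF).1 h.symm, fun h => (hd _ hF).2 h.symm⟩
    have ew : w = sX R B S w0 i := Subtype.ext (by rw [e, h.word w0 hi])
    have key : ∀ {P Q : BinaryTree Unit}, (OddHC.cont (app P (Q △ .nil))).count 1 = 0 →
        ∀ {C : BinaryTree Unit}, P ≠ .nil → app Y (.nil △ .nil) ≠ C △ P := by
      intro P Q hP C hPn e3
      obtain ⟨P', e4, _⟩ := lst_node hPn e3.symm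
      exact ne_app_lf (cnt_app hP).1 e4
    rcases h.lstA hi h9 hcn' e2 with ⟨rfl, _⟩ | ⟨_, R', e3, e4⟩ | ⟨_, R', e3, e4⟩ | ⟨_, _, e4⟩ |
      ⟨rfl, _⟩ | ⟨rfl, _⟩ |
      ⟨_, _, e4⟩ | ⟨_, _, _, e4⟩ | ⟨_, B', e3, e4⟩ | ⟨_, _, _, e4⟩ | ⟨_, B', e3, e4⟩ | ⟨_, _, e4⟩ |
      ⟨_, _, e4⟩ | ⟨_, _, e4⟩ | ⟨_, _, e4⟩ | ⟨_, _, e4⟩
    · exact absurd (by rw [ew]) cw.1
    · by_cases hR' : R' = .nil
      · subst hR'
        have e5 : app Y (.nil △ .nil) = app .nil ((.nil △ .nil) △ .nil) := e4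
        have := (H1.app_snoc e5).2
        exact absurd this (by simp)
      · exact absurd e4 (key (by rw [← e3]; exact h.one) hR')
    · by_cases hR' : R' = .nil
      · subst hR'
        have e5 : app Y (.nil △ .nil) = app (.nil △ .nil) (.nil △ .nil) := e4
        exact absurd (H1.app_snoc e5).1 nlf
      · have e5 : app Y (.nil △ .nil) = app (.nil △ (.nil △ .nil)) R' := e4
        obtain ⟨R'', e6, _⟩ := lst_app hR' e5.symm
        exact absurd e6 (ne_app_lf (cnt_app (by rw [← e3]; exact h.one)).1)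
    · have e5 : app Y (.nil △ .nil) = app .nil (.nil △ .nil) := e4
      exact absurd (H1.app_snoc e5).1 hYn
    · exact absurd (by rw [ew, cyc_eq.2 (h.same w0 (i := 0) (j := 10) (by simp))]) cw.1
    · exact absurd (by rw [ew, cyc_eq.2 (h.same w0 (i := 1) (j := 11) (by simp))]) cw.2
    · exact absurd e4.symm (ne_app_lf h.oneS)
    · exact absurd e4 (H1.app_ne (by simp))
    · by_cases hB' : B' = .nil
      · subst hB'
        have l := congrArg H1.len e4
        rw [H1.len_app, len_node, len_node, len_nil] at l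
        omega
      · exact absurd e4 (key (by rw [← e3]; exact h.oneB) hB')
    · have e5 : app Y (.nil △ .nil) = app .nil (.nil △ .nil) := e4
      exact absurd (H1.app_snoc e5).1 hYn
    · by_cases hB' : B' = .nil
      · subst hB'
        have e5 : app Y (.nil △ .nil) = app (.nil △ .nil) (S △ .nil) := e4
        exact absurd (H1.app_snoc e5).2.symm hS
      · have e5 : app Y (.nil △ .nil) = app (.nil △ (S △ .nil)) B' := e4
        obtain ⟨R'', e6, _⟩ := lst_app hB' e5.symm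
        exact absurd e6 (ne_app_lf (cnt_app (by rw [← e3]; exact h.oneB)).1)
    · have e5 : app Y (.nil △ .nil) = .nil △ S := e4
      obtain ⟨S', e6, _⟩ := lst_node hS e5.symm
      exact absurd e6 (ne_app_lf h.oneS)
    · exact absurd e4 (H1.app_ne (by simp))
    · exact absurd e4 (H1.app_ne (by simp))
    · exact absurd e4 (H1.app_ne (by simp))
    · exact absurd e4 (H1.app_ne (by simp))
  · -- new `[c+1]Y`
    have e2 : H1.W R .nil B S i = H1.ch c △ Y := e.symm.trans e1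
    have cw : cyc (sX R B S w0 0) ≠ cyc w ∧ cyc (sX R B S w0 1) ≠ cyc w :=
      ⟨fun h => (hd _ hF).1 h.symm, fun h => (hd _ hF).2 h.symm⟩
    have ew : w = sX R B S w0 i := Subtype.ext (by rw [e, h.word w0 hi])
    rcases h.fstA hi h9 hcn e2 with ⟨rfl, _⟩ | ⟨rfl, _⟩ | ⟨_, _, e3⟩ | ⟨_, e3, _⟩ | ⟨_, e3, _⟩ |
      ⟨_, _, e3⟩ | ⟨_, hB, e3, _⟩ | ⟨rfl, _⟩ | ⟨rfl, _⟩ | ⟨_, e3, e4⟩ | h13 | ⟨_, e3, _⟩ |
      h16 | ⟨_, _, e3⟩ | ⟨_, _, e3⟩
    · exact absurd (by rw [ew]) cw.1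
    · exact absurd (by rw [ew]) cw.2
    · exact absurd e3 hYn
    · exact absurd e3 (ch_lf (by omega))
    · exact absurd e3.symm (h.ne_ch _)
    · exact absurd e3 hYn
    · exact absurd e3 (ch_lf (by omega))
    · exact absurd (by rw [ew, cyc_eq.2 (h.same w0 (i := 0) (j := 10) (by simp))]) cw.1
    · exact absurd (by rw [ew, cyc_eq.2 (h.same w0 (i := 1) (j := 11) (by simp))]) cw.2
    · have h1 := h.htS
      have h2 := h.htB
      rw [← e3, ht_ch] at h1
      rw [e4, ht_app, hla] at hY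
      have := h.h3
      omega
    · right; right; left
      exact h13
    · exact absurd e3 (ch_two hS)
    · right; right; right
      exact h16
    · exact absurd e3 hYn
    · exact absurd e3 hYn

end J3

end Pool.OddHC
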