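import Pool.Agent.Work.MP_8f87b2_h4.Meet
import Pool.Agent.Work.MP_8f87b2_h4.Links
import Pool.Agent.Work.MP_8f87b2_h4.J3VE
import Pool.Agent.Work.MP_8f87b2_h71ae.AE

/-!
# J3V against E, L, K', Cl : stronger forms (helper4)

`S` begins with a component of full height (`SqD.top2`), so `S` does not begin with `(())`: no K', fewer L.
E with the rule `Low`: `SqD.eLow`.
-/

set_option autoImplicit false
set_option linter.unusedSimpArgs false
set_option linter.unusedVariables false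

namespace Pool.OddHC

open Finset Equiv BinaryTree Pool.Agent.Work.MP_8f87b2_co

open J3

variable {k : ℕ} {F F' : Set (Cyc k)} {g g' : DG k}

namespace J3

variable {R B S Y : BinaryTree Unit} {c : ℕ}

/-- `S` does not begin with a component of small height -/
theorem SqD.notop (h : SqD k R B S) {A S' : BinaryTree Unit} (hA : OddHC.ht A + 1 < OddHC.ht R) :
    S ≠ A △ S' := by
  intro e
  obtain ⟨X, Z, e1, hX⟩ := h.top
  rw [e] at e1
  have := (H1.node_inj e1).1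
  rw [this] at hA
  omega

/-- L: only `R = (Y)`; `B = nil`, `S = (Y)`; `B = B'(())`, `Y = (S)B'` -/
theorem SqD.lW2 (h : SqD k R B S) (ht : IsTri (lp 1) Y (lp 1) F g) (hY : Y ≠ .nil)
    (hf : H1.fb Y = false) (hl : H1.lastB Y = false) {w : X k} (hw : w ∈ g.B)
    {i : ℕ} (hi : i < 20) (h9 : i ≠ 9) (e : w.1 = H1.W R .nil B S i) :
    (i = 2 ∧ R = Y △ .nil) ∨ (i = 18 ∧ B = .nil ∧ S = Y △ .nil) ∨
    (i = 12 ∧ ∃ Y', Y = S △ Y' ∧ B = app Y' ((.nil △ .nil) △ .nil)) := by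
  rcases h.lW ht hY hf hl hw hi h9 e with h1 | h1 | h1 | ⟨_, _, S', h1, _⟩
  · exact Or.inl h1
  · exact Or.inr (Or.inl h1)
  · exact Or.inr (Or.inr h1)
  · exfalso
    refine h.notop ?_ h1
    have := h.h3
    have z1 : OddHC.ht (BinaryTree.nil △ BinaryTree.nil : BinaryTree Unit) = 1 := rfl
    omega

/-- K': never -/
theorem SqD.kmW2 (h : SqD k R B S) {w0 : X k} (ht : IsTri (.nil △ .nil) Y .nil F g) (hY : Y ≠ .nil)
    (hd : ∀ c ∈ F, c ≠ cyc (sX R B S w0 0) ∧ c ≠ cyc (sX R B S w0 1)) {w : X k} (hw : w ∈ g.B)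
    {i : ℕ} (hi : i < 20) (h9 : i ≠ 9) : w.1 ≠ H1.W R .nil B S i := by
  intro e
  have := h.h3
  have z1 : OddHC.ht (BinaryTree.nil △ BinaryTree.nil : BinaryTree Unit) = 1 := rfl
  rcases h.kmW ht hY hd hw hi h9 e with ⟨_, S', h1, _⟩ | ⟨_, S', h1, _⟩
  · exact h.notop (by omega) h1
  · exact h.notop (by omega) h1

/-- Cl: `c = 2` and `R = (Y)` or `B = nil`, `S = (Y)`; else `ht R = c + 1`, `S = [c+1]S'`, `c ≤ ht B` -/
theorem SqD.clW2 (h : SqD k R B S) {w0 : X k} (hc : 2 ≤ c) (hY : c + 1 ≤ OddHC.ht Y)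
    (ht : IsTri (H1.ch c) Y .nil F g)
    (hd : ∀ d ∈ F, d ≠ cyc (sX R B S w0 0) ∧ d ≠ cyc (sX R B S w0 1)) {w : X k} (hw : w ∈ g.B)
    {i : ℕ} (hi : i < 20) (h9 : i ≠ 9) (e : w.1 = H1.W R .nil B S i) :
    (i = 4 ∧ c = 2 ∧ R = Y △ .nil) ∨ (i = 10 ∧ c = 2 ∧ B = .nil ∧ S = Y △ .nil) ∨
    (OddHC.ht R = c + 1 ∧ c ≤ OddHC.ht B ∧ ((i = 13 ∧ ∃ S', S = H1.ch c △ S' ∧ Y = app S' ((app B (.nil △ .nil)) △ .nil)) ∨
      (i = 16 ∧ ∃ S', S = H1.ch c △ S' ∧ Y = app S' (B △ (.nil △ .nil))))) := by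
  have h3 := h.h3
  have z0 : OddHC.ht (BinaryTree.nil : BinaryTree Unit) = 0 := rfl
  have key : ∀ S', S = H1.ch c △ S' → OddHC.ht R = c + 1 ∧ OddHC.ht S' < OddHC.ht R := by
    intro S' e1
    obtain ⟨X, Z, e2, hX, hZ⟩ := h.top2
    rw [e1] at e2
    obtain ⟨e3, e4⟩ := H1.node_inj e2
    rw [← e3, ht_ch] at hX
    rw [← e4] at hZ
    exact ⟨hX.symm, hZ⟩
  rcases h.clW hc hY ht hd hw hi h9 e with h1 | h1 | ⟨h1, S', h2, h5⟩ | ⟨h1, S', h2, h5⟩
  · exact Or.inl h1
  · exact Or.inr (Or.inl h1)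
  · obtain ⟨k1, k2⟩ := key S' h2
    refine Or.inr (Or.inr ⟨k1, ?_, Or.inl ⟨h1, S', h2, h5⟩⟩)
    have k3 := hY
    rw [h5, OddHC.ht_app, OddHC.ht_node, OddHC.ht_app, OddHC.ht_node] at k3
    omega
  · obtain ⟨k1, k2⟩ := key S' h2
    refine Or.inr (Or.inr ⟨k1, ?_, Or.inr ⟨h1, S', h2, h5⟩⟩)
    have k3 := hY
    rw [h5, OddHC.ht_app, OddHC.ht_node, OddHC.ht_node] at k3
    omega

/-! ### E with the rule `Low` -/

/-- `X` does not satisfy the consequences of the rule `Low` -/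
def FhOK (X : BinaryTree Unit) : Prop :=
  (1 ≤ (OddHC.cont X).count 2 → H1.fh X = 1) ∧
    ((OddHC.cont X).count 2 = 0 → 1 ≤ (OddHC.cont X).count 3 → H1.fh X = 2)

theorem SqD.low1 (h : SqD k R B S) (h23 : 1 ≤ (OddHC.cont R).count 2 ∨ (4 ≤ OddHC.ht R ∧ 1 ≤ (OddHC.cont R).count 3)) :
    ¬ FhOK (R △ .nil) ∧ ¬ FhOK (S △ B) := by
  have h3 := h.h3
  have hS := h.htS
  have f1 : H1.fh (R △ .nil) = OddHC.ht R := H1.fh_node h.ne _
  have f2 : H1.fh (S △ B) = OddHC.ht S := H1.fh_node h.neS _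
  have sR : (OddHC.cont R).sup = OddHC.ht R := (OddHC.ht_eq R).symm
  have sS : (OddHC.cont S).sup = OddHC.ht S := (OddHC.ht_eq S).symm
  have hc := h.cont
  have c2 : (OddHC.cont (R △ .nil)).count 2 = (OddHC.cont R).count 2 := by
    rw [OddHC.cont_node, OddHC.cont_nil, add_zero]
    exact count_raise 2 (by omega) (by omega)
  have d2 : (OddHC.cont (S △ B)).count 2 = (OddHC.cont R).count 2 := by
    rw [OddHC.cont_node, Multiset.count_add, count_raise 2 (by omega) (by omega), ← hc, Multiset.count_add]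
    omega
  constructor
  · rintro ⟨k1, k2⟩
    rcases h23 with h23 | ⟨h4, h23⟩
    · have := k1 (by omega)
      omega
    · by_cases h0 : 1 ≤ (OddHC.cont R).count 2
      · have := k1 (by omega)
        omega
      · have c3 : (OddHC.cont (R △ .nil)).count 3 = (OddHC.cont R).count 3 := by
          rw [OddHC.cont_node, OddHC.cont_nil, add_zero]
          exact count_raise 3 (by omega) (by omega)
        have := k2 (by omega) (by omega)
        omega
  · rintro ⟨k1, k2⟩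
    rcases h23 with h23 | ⟨h4, h23⟩
    · have := k1 (by omega)
      omega
    · by_cases h0 : 1 ≤ (OddHC.cont R).count 2
      · have := k1 (by omega)
        omega
      · have d3 : (OddHC.cont (S △ B)).count 3 = (OddHC.cont R).count 3 := by
          rw [OddHC.cont_node, Multiset.count_add, count_raise 3 (by omega) (by omega), ← hc, Multiset.count_add]
          omega
        have := k2 (by omega) (by omega)
        omega

/-- `X = S(B)` -/
theorem SqD.low2 (h : SqD k R B S) (h4 : 4 ≤ OddHC.ht R) (hX : FhOK (app S (B △ .nil))) :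
    (OddHC.cont (app S (B △ .nil))).count 2 = 0 ∧ (OddHC.cont (app S (B △ .nil))).count 3 = 0 := by
  obtain ⟨Z, Y, rfl, hZ, hY⟩ := h.top2
  have f : H1.fh (app (Z △ Y) (B △ .nil)) = OddHC.ht Z := by
    apply H1.fh_node
    rintro rfl
    have z0 : OddHC.ht (BinaryTree.nil : BinaryTree Unit) = 0 := rfl
    omega
  obtain ⟨k1, k2⟩ := hX
  constructor
  · by_contra h0
    have := k1 (by omega)
    omega
  · by_contra h0
    by_cases h5 : 1 ≤ (OddHC.cont (app (Z △ Y) (B △ .nil))).count 2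
    · have := k1 (by omega)
      omega
    · have := k2 (by omega) (by omega)
      omega

/-- parts 2 and 3 of `S(B)` -/
theorem SqD.cntSB (h : SqD k R B S) (h0 : (OddHC.cont (app S (B △ .nil))).count 2 = 0)
    (h1 : (OddHC.cont (app S (B △ .nil))).count 3 = 0) :
    (OddHC.cont R).count 2 = 0 ∧ (OddHC.cont S).count 3 = 0 ∧ (1 ≤ (OddHC.cont R).count 3 → OddHC.ht B = 3 ∧
      (OddHC.cont B).count 3 = 1) := by
  have hc := h.cont
  have sB : (OddHC.cont B).sup = OddHC.ht B := (OddHC.ht_eq B).symm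
  have e : OddHC.cont (app S (B △ .nil)) = OddHC.cont S + raise (OddHC.cont B) := by
    rw [OddHC.cont_app, OddHC.cont_node, OddHC.cont_nil, add_zero]
  rw [e, Multiset.count_add] at h0 h1
  have a2 : (OddHC.cont B).count 2 = 0 := by
    by_cases hb : (OddHC.cont B).sup = 2
    · exfalso
      have := count_raise_top (OddHC.cont B)
      rw [hb] at this
      change (raise (OddHC.cont B)).count 3 = 1 at this
      omega
    · by_cases hb1 : (OddHC.cont B).sup = 1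
      · by_contra h5
        have := Multiset.le_sup (Multiset.count_pos.1 (Nat.pos_of_ne_zero h5))
        omega
      · rw [← count_raise 2 (Ne.symm hb) (by omega)]
        omega
  refine ⟨?_, by omega, ?_⟩
  · rw [← hc, Multiset.count_add]
    omega
  · intro h3
    rw [← hc, Multiset.count_add] at h3
    have h5 : 1 ≤ (OddHC.cont B).count 3 := by omega
    by_cases hb : (OddHC.cont B).sup = 3
    · have h6 := count_raise_sup (M := OddHC.cont B) (by
        intro h7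
        rw [h7] at h5
        simp at h5)
      rw [hb] at h6
      exact ⟨by omega, by omega⟩
    · exfalso
      by_cases hb1 : (OddHC.cont B).sup = 2
      · have := Multiset.le_sup (Multiset.count_pos.1 h5)
        omega
      · have := count_raise (M := OddHC.cont B) 3 (Ne.symm hb) (by omega)
        omega

/-- **E with the rule `Low`**: only `X = S(B)`, with no part 2 in `R`, `ht B = 3`, one part 3 in `R`, inside `B` -/
theorem SqD.eLow (h : SqD k R B S) (h4 : 4 ≤ OddHC.ht R)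
    (h23 : 1 ≤ (OddHC.cont R).count 2 ∨ 1 ≤ (OddHC.cont R).count 3) {w0 : X k} (ht : IsTri .nil Y .nil F g)
    (hL : FhOK Y) (hd : ∀ c ∈ F, c ≠ cyc (sX R B S w0 1) ∧ c ≠ cyc (sX R B S w0 2)) {w : X k}
    (hw : w ∈ g.B) {i : ℕ} (hi : i < 20) (h9 : i ≠ 9) (e : w.1 = H1.W R .nil B S i) :
    Y = app S (B △ .nil) ∧ (OddHC.cont R).count 2 = 0 ∧ (OddHC.cont S).count 3 = 0 ∧ OddHC.ht B = 3 ∧
      (OddHC.cont B).count 3 = 1 := by
  obtain ⟨l1, l2⟩ := h.low1 (by rcases h23 with h1 | h1; exacts [Or.inl h1, Or.inr ⟨h4, h1⟩])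
  rcases h.eW ht hd hw hi h9 e with rfl | rfl | rfl
  · exact absurd hL l1
  · exact absurd hL l2
  · obtain ⟨k1, k2⟩ := h.low2 h4 hL
    obtain ⟨m1, m2, m3⟩ := h.cntSB k1 k2
    obtain ⟨m4, m5⟩ := m3 (by omega)
    exact ⟨rfl, m1, m2, m4, m5⟩

end J3

theorem TyE.fh (h : TyE F g) : ∃ Y, IsTri .nil Y .nil F g ∧ FhOK Y := by
  obtain ⟨j, r, f, hj, hL, ht⟩ := h
  refine ⟨_, ht, ?_⟩
  have he : (lf f).length = 2 * r.1.numNodes + 1 := by
    rw [X_num]
    simp [lf]
  exact H1.low_fh he hL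

/-- **E against J3V**: no common word if `4 ≤ ht`, and `R` has a part 2, or a part 3 in `S`, or `B = nil` with a part 3 -/
theorem TyE.disJ3V (h : TyE F g) {R B S : BinaryTree Unit} (hq : SqD k R B S) (h4 : 4 ≤ OddHC.ht R)
    (h23 : 1 ≤ (OddHC.cont R).count 2 ∨ (1 ≤ (OddHC.cont R).count 3 ∧
      (1 ≤ (OddHC.cont S).count 3 ∨ OddHC.ht B ≠ 3 ∨ (OddHC.cont B).count 3 ≠ 1))) {w0 : X k}
    (hd : ∀ c ∈ F, c ≠ cyc (sX R B S w0 1) ∧ c ≠ cyc (sX R B S w0 2)) {w : X k} (hw : w ∈ g.B)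
    {i : ℕ} (hi : i < 20) (h9 : i ≠ 9) : w.1 ≠ H1.W R .nil B S i := by
  intro e
  obtain ⟨Y, ht, hY⟩ := h.fh
  obtain ⟨_, k1, k2, k3, k4⟩ := hq.eLow h4 (by rcases h23 with h1 | h1; exacts [Or.inl h1, Or.inr h1.1]) ht hY hd
    hw hi h9 e
  omega

end Pool.OddHC
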