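import Pool.Agent.Work.MP_8f87b2_h4.Meet
import Pool.Agent.Work.MP_8f87b2_h99.Ty9

/-!
# `SqD.meet` with word numbers; rows J3V-J3V, JV-J3V (helper4)
-/

set_option autoImplicit false
set_option linter.unusedSimpArgs false
set_option linter.unusedVariables false

namespace Pool.OddHC

open Finset Equiv BinaryTree Pool.Agent.Work.MP_8f87b2_co

open J3

variable {k : ℕ} {F F' : Set (Cyc k)} {g g' : DG k}

namespace J3

variable {R B S R' B' S' P Y : BinaryTree Unit}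

open H1

/-- word numbers: the three forms `()Y`, `Y()`, `(Y)` with the six heads -/
def wn : ℕ → ℕ → ℕ
  | 0, a => [2, 5, 8, 15, 18, 11].getD a 0
  | 1, a => [1, 2, 6, 12, 16, 18].getD a 0
  | _, a => [3, 7, 9, 17, 19, 14].getD a 0

/-- the six forms -/
def fm (f : ℕ) (Y : BinaryTree Unit) : BinaryTree Unit :=
  if f = 0 then .nil △ Y else if f = 1 then app Y (.nil △ .nil) else Y △ .nil

theorem SqD.fmX (h : SqD k R B S) {i f : ℕ} (hi : i < 20) (hf : f < 3)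
    (e : H1.W R .nil B S i = fm f Y) :
    ∃ a < 6, (a = 5 → B = .nil) ∧ Y = sx R B S a ∧ i = wn f a := by
  interval_cases f
  · have e' : H1.W R .nil B S i = .nil △ Y := e
    by_cases h9 : i = 9
    · subst h9
      exact absurd (H1.node_inj e').1 (by simp)
    rcases h.fst hi h9 e' with ⟨rfl, e2⟩ | ⟨rfl, e2⟩ | ⟨rfl, e2⟩ | ⟨rfl, e2⟩ | ⟨rfl, e2⟩ | ⟨rfl, hB, e2⟩
    · exact ⟨0, by norm_num, by simp, e2, rfl⟩
    · exact ⟨1, by norm_num, by simp, e2, rfl⟩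
    · exact ⟨2, by norm_num, by simp, e2, rfl⟩
    · exact ⟨3, by norm_num, by simp, e2, rfl⟩
    · exact ⟨4, by norm_num, by simp, e2, rfl⟩
    · exact ⟨5, by norm_num, fun _ => hB, e2, rfl⟩
  · have e' : H1.W R .nil B S i = app Y (.nil △ .nil) := e
    by_cases h9 : i = 9
    · subst h9
      have e'' : app .nil ((R △ .nil) △ .nil) = app Y (.nil △ .nil) := e'
      exact absurd (H1.app_snoc e'').2 (by simp)
    rcases h.lst hi h9 e' with ⟨rfl, e2⟩ | ⟨rfl, e2⟩ | ⟨rfl, e2⟩ | ⟨rfl, e2⟩ | ⟨rfl, e2⟩ | ⟨rfl, hB, e2⟩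
    · exact ⟨0, by norm_num, by simp, e2, rfl⟩
    · exact ⟨1, by norm_num, by simp, e2, rfl⟩
    · exact ⟨2, by norm_num, by simp, e2, rfl⟩
    · exact ⟨3, by norm_num, by simp, e2, rfl⟩
    · exact ⟨4, by norm_num, by simp, e2, rfl⟩
    · exact ⟨5, by norm_num, fun _ => hB, e2, rfl⟩
  · have e' : H1.W R .nil B S i = Y △ .nil := e
    by_cases h9 : i = 9
    · subst h9
      exact ⟨2, by norm_num, by simp, (H1.node_inj e').1.symm, rfl⟩
    rcases h.one1 hi h9 e' with ⟨rfl, e2⟩ | ⟨rfl, e2⟩ | ⟨rfl, e2⟩ | ⟨rfl, e2⟩ | ⟨rfl, hB, e2⟩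
    · exact ⟨0, by norm_num, by simp, e2, rfl⟩
    · exact ⟨1, by norm_num, by simp, e2, rfl⟩
    · exact ⟨3, by norm_num, by simp, e2, rfl⟩
    · exact ⟨4, by norm_num, by simp, e2, rfl⟩
    · exact ⟨5, by norm_num, fun _ => hB, e2, rfl⟩

/-- two heads, with their numbers -/
theorem sx_num (h : SqD k R B S) (h' : SqD k R' B' S') {i j : ℕ} (hi : i < 6) (hj : j < 6)
    (hi5 : i = 5 → B = .nil) (hj5 : j = 5 → B' = .nil) (e : sx R B S i = sx R' B' S' j) :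
    R = R' ∨ (B' = .nil ∧ R = S') ∨ (B = .nil ∧ R' = S) ∨
      (S △ B = app S' (B' △ .nil) ∧ i = 3 ∧ j = 4) ∨ (S' △ B' = app S (B △ .nil) ∧ i = 4 ∧ j = 3) := by
  have key : ∀ {R B S R' B' S' : BinaryTree Unit} {i j : ℕ}, SqD k R B S → SqD k R' B' S' → i ≤ j → j < 6 →
      (i = 5 → B = .nil) → (j = 5 → B' = .nil) → sx R B S i = sx R' B' S' j →
      R = R' ∨ (B' = .nil ∧ R = S') ∨ (B = .nil ∧ R' = S) ∨ (S △ B = app S' (B' △ .nil) ∧ i = 3 ∧ j = 4) := by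
    intro R B S R' B' S' i j h h' hij hj hi5 hj5 e
    have hi : i < 6 := by omega
    interval_cases i
    · interval_cases j
      · exact Or.inl (H1.app_snoc e).1
      · exact absurd e h.appR
      · exact absurd e h.lenR
      · exact absurd e.symm h'.lstSB
      · have := H1.app_snoc e
        exact Or.inr (Or.inl ⟨this.2.symm, this.1⟩)
      · exact absurd e h.appR
    · interval_cases j
      · exact Or.inl (H1.node_inj e).2
      · exact absurd (H1.node_inj e).1.symm h'.ne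
      · exact absurd (H1.node_inj e).1.symm h'.neS
      · exact absurd e.symm h'.appS
      · exact Or.inr (Or.inl ⟨hj5 rfl, (H1.node_inj e).2⟩)
    · interval_cases j
      · exact Or.inl (H1.node_inj e).1
      · exact Or.inr (Or.inl ⟨(H1.node_inj e).2.symm, (H1.node_inj e).1⟩)
      · exact absurd e.symm h'.lenS
      · exact absurd (H1.node_inj e).1 h.ne
    · interval_cases j
      · obtain ⟨rfl, rfl⟩ := H1.node_inj e
        exact Or.inl (h.injD h')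
      · exact Or.inr (Or.inr (Or.inr ⟨e, rfl, rfl⟩))
      · exact absurd (H1.node_inj e).1 h.neS
    · interval_cases j
      · obtain ⟨rfl, rfl⟩ := H1.app_snoc e
        exact Or.inl (h.injD h')
      · exact absurd e h.appS
    · interval_cases j
      · have e1 := hi5 rfl
        have e2 := hj5 rfl
        subst e1
        subst e2
        have e3 := (H1.node_inj e).2
        subst e3
        exact Or.inl (h.injD h')
  rcases Nat.le_total i j with hij | hij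
  · rcases key h h' hij hj hi5 hj5 e with h1 | h1 | h1 | h1
    · exact Or.inl h1
    · exact Or.inr (Or.inl h1)
    · exact Or.inr (Or.inr (Or.inl h1))
    · exact Or.inr (Or.inr (Or.inr (Or.inl h1)))
  · rcases key h' h hij hi hj5 hi5 e.symm with h1 | h1 | h1 | h1
    · exact Or.inl h1.symm
    · exact Or.inr (Or.inr (Or.inl h1))
    · exact Or.inr (Or.inl h1)
    · exact Or.inr (Or.inr (Or.inr (Or.inr ⟨h1.1, h1.2.2, h1.2.1⟩)))

/-- the relation with word numbers -/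
def RelN (R B S R' B' S' : BinaryTree Unit) (i j : ℕ) : Prop :=
  R = R' ∨ (B' = .nil ∧ R = S') ∨ (B = .nil ∧ R' = S) ∨
    (S △ B = app S' (B' △ .nil) ∧ ((i = 15 ∧ j = 18) ∨ (i = 12 ∧ j = 16) ∨ (i = 17 ∧ j = 19))) ∨
    (S' △ B' = app S (B △ .nil) ∧ ((i = 18 ∧ j = 15) ∨ (i = 16 ∧ j = 12) ∨ (i = 19 ∧ j = 17))) ∨
    (i = 0 ∨ i = 4 ∨ i = 10) ∧ (j = 0 ∨ j = 4 ∨ j = 10) ∧ i ≠ j

/-- **all common words, with numbers** -/
theorem SqD.meetN (h : SqD k R B S) (h' : SqD k R' B' S') {i j : ℕ} (hi : i < 20) (hj : j < 20)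
    (e : H1.W R .nil B S i = H1.W R' .nil B' S' j) : RelN R B S R' B' S' i j := by
  have fin : ∀ f < 3, ∀ Y, H1.W R .nil B S i = fm f Y → RelN R B S R' B' S' i j := by
    intro f hf Y e1
    obtain ⟨a, ha, ha5, rfl, hia⟩ := h.fmX hi hf e1
    obtain ⟨b, hb, hb5, e2, hjb⟩ := h'.fmX hj hf (e.symm.trans e1)
    rcases sx_num h h' ha hb ha5 hb5 e2 with h1 | h1 | h1 | ⟨h1, rfl, rfl⟩ | ⟨h1, rfl, rfl⟩
    · exact Or.inl h1
    · exact Or.inr (Or.inl h1)
    · exact Or.inr (Or.inr (Or.inl h1))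
    · refine Or.inr (Or.inr (Or.inr (Or.inl ⟨h1, ?_⟩)))
      interval_cases f
      · exact Or.inl ⟨hia, hjb⟩
      · exact Or.inr (Or.inl ⟨hia, hjb⟩)
      · exact Or.inr (Or.inr ⟨hia, hjb⟩)
    · refine Or.inr (Or.inr (Or.inr (Or.inr (Or.inl ⟨h1, ?_⟩))))
      interval_cases f
      · exact Or.inl ⟨hia, hjb⟩
      · exact Or.inr (Or.inl ⟨hia, hjb⟩)
      · exact Or.inr (Or.inr ⟨hia, hjb⟩)
  rcases wcase R B S hi with ⟨Y, _, e1⟩ | hi'
  · rcases e1 with e1 | e1 | e1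
    · exact fin 0 (by norm_num) Y e1
    · exact fin 1 (by norm_num) Y e1
    · exact fin 2 (by norm_num) Y e1
  · rcases wcase R' B' S' hj with ⟨Y, _, e1⟩ | hj'
    · rcases e1 with e1 | e1 | e1
      · exact fin 0 (by norm_num) Y (e.trans e1)
      · exact fin 1 (by norm_num) Y (e.trans e1)
      · exact fin 2 (by norm_num) Y (e.trans e1)
    · -- both in the class group
      have key : ∀ (R B S : BinaryTree Unit) (i : ℕ),
          (i = 0 ∨ i = 4 ∨ i = 10 ∨ i = 13 ∨ (i = 11 ∧ B ≠ .nil) ∨ (i = 14 ∧ B ≠ .nil)) →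
          ∃ a, a < 6 ∧ (4 ≤ a → B ≠ .nil) ∧ H1.W R .nil B S i = cx R B S a ∧
            (a = 0 ∧ i = 0 ∨ a = 1 ∧ i = 4 ∨ a = 2 ∧ i = 10 ∨ 3 ≤ a) := by
        intro R B S i hi
        rcases hi with rfl | rfl | rfl | rfl | ⟨rfl, hB⟩ | ⟨rfl, hB⟩
        · exact ⟨0, by norm_num, by simp, rfl, by simp⟩
        · exact ⟨1, by norm_num, by simp, rfl, by simp⟩
        · exact ⟨2, by norm_num, by simp, rfl, by simp⟩
        · exact ⟨3, by norm_num, by simp, rfl, by simp⟩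
        · exact ⟨4, by norm_num, fun _ => hB, rfl, by simp⟩
        · exact ⟨5, by norm_num, fun _ => hB, rfl, by simp⟩
      obtain ⟨a, ha, ha4, ea, ia⟩ := key R B S i hi'
      obtain ⟨b, hb, hb4, eb, ib⟩ := key R' B' S' j hj'
      rw [ea, eb] at e
      rcases Nat.le_total a b with hab | hab
      · rcases cx_le2 h h' hab hb ha4 hb4 e with (h1 | h1) | ⟨h1, h2⟩
        · exact Or.inl h1
        · exact Or.inr (Or.inl h1)
        · exact Or.inr (Or.inr (Or.inr (Or.inr (Or.inr (by omega)))))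
      · rcases cx_le2 h' h hab ha hb4 ha4 e.symm with (h1 | h1) | ⟨h1, h2⟩
        · exact Or.inl h1.symm
        · exact Or.inr (Or.inr (Or.inl h1))
        · exact Or.inr (Or.inr (Or.inr (Or.inr (Or.inr (by omega)))))

/-! ### Consequences -/

/-- `(S)B = S'(B')` : heights differ by one, `B' ≠ nil` and `B ≠ nil` -/
theorem SqD.sh (h : SqD k R B S) (h' : SqD k R' B' S') (e : S △ B = app S' (B' △ .nil)) :
    OddHC.ht R' = OddHC.ht R + 1 ∧ B ≠ .nil ∧ B' ≠ .nil := by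
  refine ⟨?_, ?_, ?_⟩
  · obtain ⟨X, Y, rfl, hX⟩ := h'.top
    have := (H1.node_inj e).1
    have h1 := h.htS
    rw [this] at h1
    omega
  · rintro rfl
    exact h'.lenS e.symm
  · rintro rfl
    exact h.lstSB e

/-- content of the words `0 4 10` -/
theorem SqD.cont_cls (h : SqD k R B S) {i : ℕ} (hi : i = 0 ∨ i = 4 ∨ i = 10) :
    OddHC.cont (H1.W R .nil B S i) = OddHC.cont R + {2} := by
  let w0 : X k := ⟨H1.W R .nil B S 0, mem_treesOfNumNodesEq.2 (h.num_W 0 (by norm_num))⟩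
  rcases hi with rfl | rfl | rfl
  · rw [← h.word w0 (by norm_num)]; exact h.cont0 w0
  · rw [← h.word w0 (by norm_num)]; exact h.cont4 w0
  · rw [← h.word w0 (by norm_num)]; exact h.cont10 w0

/-- different contents: only the two shifts `(S)B = S'(B')` -/
theorem SqD.meet_ne (h : SqD k R B S) (h' : SqD k R' B' S') (hne : OddHC.cont R ≠ OddHC.cont R') {i j : ℕ}
    (hi : i < 20) (hj : j < 20) (e : H1.W R .nil B S i = H1.W R' .nil B' S' j) :
    (S △ B = app S' (B' △ .nil) ∧ ((i = 15 ∧ j = 18) ∨ (i = 12 ∧ j = 16) ∨ (i = 17 ∧ j = 19))) ∨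
    (S' △ B' = app S (B △ .nil) ∧ ((i = 18 ∧ j = 15) ∨ (i = 16 ∧ j = 12) ∨ (i = 19 ∧ j = 17))) := by
  rcases h.meetN h' hi hj e with h1 | ⟨rfl, h1⟩ | ⟨rfl, h1⟩ | h1 | h1 | ⟨h1, h2, h3⟩
  · exact absurd (by rw [h1]) hne
  · exfalso
    apply hne
    rw [h1, ← h'.cont, OddHC.cont_nil, zero_add]
  · exfalso
    apply hne
    rw [h1, ← h.cont, OddHC.cont_nil, zero_add]
  · exact Or.inl h1
  · exact Or.inr h1
  · exfalso
    apply hne
    have k1 := h.cont_cls h1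
    rw [e, h'.cont_cls h2] at k1
    exact (add_right_cancel k1).symm

/-- `S' = R`, `B' = nil` : `R` and `R'` are on one T-cycle -/
theorem SqD.sameU (h : SqD k R B S) (h' : SqD k R' B' S') (hB : B' = .nil) (e : R = S') :
    ∃ (n : ℕ) (x y : X n), x.1 = R ∧ y.1 = R' ∧ cyc x = cyc y := by
  subst hB
  let y : X R'.numNodes := ⟨R', mem_treesOfNumNodesEq.2 rfl⟩
  refine ⟨R'.numNodes, TT (TT y), y, ?_, rfl, ?_⟩
  · rw [Tsq.TT_sq y h'.ne, h'.sq, e]
    rfl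
  · rw [cyc_eq]
    exact ⟨-2, by simp [zpow_neg, pow_succ]⟩

/-- **no common word** -/
theorem SqD.dis (h : SqD k R B S) (h' : SqD k R' B' S') {w0 w0' : X k}
    (hz : cyc (sX R B S w0 0) ≠ cyc (sX R' B' S' w0' 0))
    (hU : ∀ (n : ℕ) (x y : X n), x.1 = R → y.1 = R' → cyc x ≠ cyc y)
    (hh : B = .nil ∨ B' = .nil ∨ OddHC.ht R' ≠ OddHC.ht R + 1 ∧ OddHC.ht R ≠ OddHC.ht R' + 1)
    (hc : ∀ Q : BinaryTree Unit, ¬ (R = (.nil △ .nil) △ Q ∧ R' = app Q ((.nil △ .nil) △ .nil)) ∧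
      ¬ (B = (.nil △ .nil) △ Q ∧ R' = app Q ((.nil △ .nil) △ S)) ∧
      ¬ (R' = (.nil △ .nil) △ Q ∧ R = app Q ((.nil △ .nil) △ .nil)) ∧
      ¬ (B' = (.nil △ .nil) △ Q ∧ R = app Q ((.nil △ .nil) △ S')))
    {i j : ℕ} (hi : i < 20) (hj : j < 20) : H1.W R .nil B S i ≠ H1.W R' .nil B' S' j := by
  intro e
  have s1 : ∀ i, i = 0 ∨ i = 10 → cyc (sX R B S w0 i) = cyc (sX R B S w0 0) := by
    rintro i (rfl | rfl)
    · rfl
    · exact (cyc_eq.2 (h.same w0 (i := 0) (j := 10) (by simp))).symm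
  have s2 : ∀ i, i = 0 ∨ i = 10 → cyc (sX R' B' S' w0' i) = cyc (sX R' B' S' w0' 0) := by
    rintro i (rfl | rfl)
    · rfl
    · exact (cyc_eq.2 (h'.same w0' (i := 0) (j := 10) (by simp))).symm
  have s3 : ∀ i j, (i = 0 ∨ i = 10) → (j = 0 ∨ j = 10) → H1.W R .nil B S i ≠ H1.W R' .nil B' S' j := by
    intro i j hi hj e
    apply hz
    rw [← s1 i hi, ← s2 j hj]
    congr 1
    apply Subtype.ext
    rw [h.word w0 (by omega), h'.word w0' (by omega), e]
  have hsame : ∀ h1 : B' = .nil, R = S' → False := by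
    intro h1 h2
    obtain ⟨n, x, y, a, b, c⟩ := h.sameU h' h1 h2
    exact hU n x y a b c
  have hsame' : ∀ h1 : B = .nil, R' = S → False := by
    intro h1 h2
    obtain ⟨n, x, y, a, b, c⟩ := h'.sameU h h1 h2
    exact hU n y x b a c.symm
  have hn1 : ∀ P : BinaryTree Unit, P = (.nil △ .nil) △ S → S = R' ∨ True := fun _ _ => Or.inr trivial
  rcases h.meetN h' hi hj e with h1 | ⟨h1, h2⟩ | ⟨h1, h2⟩ | ⟨h1, -⟩ | ⟨h1, -⟩ | ⟨h1, h2, h3⟩
  · subst h1
    exact hU _ ⟨R, mem_treesOfNumNodesEq.2 rfl⟩ _ rfl rfl rfl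
  · exact hsame h1 h2
  · exact hsame' h1 h2
  · obtain ⟨a, b, c⟩ := h.sh h' h1
    rcases hh with hh | hh | hh
    · exact b hh
    · exact c hh
    · exact hh.1 a
  · obtain ⟨a, b, c⟩ := h'.sh h h1
    rcases hh with hh | hh | hh
    · exact c hh
    · exact b hh
    · exact hh.2 a
  · rcases h1 with rfl | rfl | rfl
    · rcases h2 with rfl | rfl | rfl
      · exact h3 rfl
      · obtain ⟨Q, a, b⟩ := h.c04 h' e
        exact (hc Q).1 ⟨a, b⟩
      · exact s3 0 10 (Or.inl rfl) (Or.inr rfl) e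
    · rcases h2 with rfl | rfl | rfl
      · obtain ⟨Q, a, b⟩ := h'.c04 h e.symm
        exact (hc Q).2.2.1 ⟨a, b⟩
      · exact h3 rfl
      · rcases h.c410 h' e with ⟨a, b⟩ | ⟨Q, a, b⟩
        · exact hsame a b
        · exact (hc Q).2.2.2 ⟨a, b⟩
    · rcases h2 with rfl | rfl | rfl
      · exact s3 10 0 (Or.inr rfl) (Or.inl rfl) e
      · rcases h'.c410 h e.symm with ⟨a, b⟩ | ⟨Q, a, b⟩
        · exact hsame' a b
        · exact (hc Q).2.1 ⟨a, b⟩
      · exact h3 rfl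

/-! ### The nine-word pair gadgets -/

/-- number of the word of `W S nil B1 S1` -/
def j9 (i : ℕ) : ℕ := [0, 4, 7, 9, 3, 6, 17, 12, 15].getD i 0

theorem w9_W (T : BinaryTree Unit) {i : ℕ} (hi : i < 9) :
    w9L .nil .nil T (xT T) i = H1.W T .nil (Tsq.sq T).2 (Tsq.sq T).1 (j9 i) := by
  have hx := xT_sq T
  interval_cases i <;> simp only [w9L, j9, H1.W, hx, w1, app, List.getD_cons_zero, List.getD_cons_succ]

theorem j9_lt {i : ℕ} (hi : i < 9) : j9 i < 20 ∧ j9 i ≠ 18 ∧ j9 i ≠ 16 ∧ j9 i ≠ 19 ∧ j9 i ≠ 10 := by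
  interval_cases i <;> decide

end J3

theorem Is9.wordsW {T : BinaryTree Unit} (h : Is9 .nil .nil T F g) {w : X k} (hw : w ∈ g.B) :
    ∃ i < 9, w.1 = H1.W T .nil (Tsq.sq T).2 (Tsq.sq T).1 (j9 i) := by
  obtain ⟨v, h1, rfl, rfl⟩ := h
  obtain ⟨i, hi, rfl⟩ := mem_gad9.1 hw
  exact ⟨i, hi, by rw [h1.word i hi, w9_W T hi]⟩

/-- the data of a JV word without the part 1 -/
theorem Is9.sqD {T : BinaryTree Unit} (h : Is9 .nil .nil T F g) (h3 : 3 ≤ OddHC.ht T)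
    (h1 : (OddHC.cont T).count 1 = 0) : SqD k T (Tsq.sq T).2 (Tsq.sq T).1 := by
  obtain ⟨v, h2, rfl, rfl⟩ := h
  refine ⟨rfl, h3, h1, h2.two, ?_⟩
  have := h2.size
  have n0 : (BinaryTree.nil : BinaryTree Unit).numNodes = 0 := rfl
  omega

/-- **JV against J3V, exact list** : `T` on the T-cycle of `R` (`T^2`-shift, `B = nil` or `B1 = nil`), or
`(S1)B1 = S(B)` (then `ht R = ht T + 1`, `B ≠ nil`) -/
theorem Is9.meetJ3V {T R B S : BinaryTree Unit} (h : Is9 .nil .nil T F g) (h3 : 3 ≤ OddHC.ht T)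
    (h1 : (OddHC.cont T).count 1 = 0) (h2 : (OddHC.cont T).count 2 = 0) (hd : SqD k R B S) {w0 : X k}
    (hz : cyc (sX R B S w0 0) ∉ F) {w : X k} (hw : w ∈ g.B) {i : ℕ} (hi : i < 20)
    (e : w.1 = H1.W R .nil B S i) :
    ((Tsq.sq T).2 = .nil ∧ R = (Tsq.sq T).1) ∨ (B = .nil ∧ T = S) ∨
    (((Tsq.sq T).1 △ (Tsq.sq T).2 = app S (B △ .nil)) ∧ OddHC.ht R = OddHC.ht T + 1 ∧ B ≠ .nil ∧
      (i = 18 ∨ i = 16 ∨ i = 19)) := by
  have hT := h.sqD h3 h1
  obtain ⟨a, ha, e1⟩ := h.wordsW hw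
  obtain ⟨l1, l2, l3, l4, l5⟩ := j9_lt ha
  have hF : ∀ b, b = 0 ∨ b = 4 → ∀ x : X k, x.1 = H1.W T .nil (Tsq.sq T).2 (Tsq.sq T).1 b → cyc x ∈ F := by
    obtain ⟨v, h4, rfl, rfl⟩ := h
    rintro b (rfl | rfl) x hx
    · left
      congr 1
      apply Subtype.ext
      rw [hx, h4.word 0 (by norm_num)]
      rfl
    · right
      change cyc x = cyc (v 1)
      congr 1
      apply Subtype.ext
      rw [hx, h4.word 1 (by norm_num)]
      rfl
  have hz10 : cyc (sX R B S w0 10) ∉ F := by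
    rw [← cyc_eq.2 (hd.same w0 (i := 0) (j := 10) (by simp))]
    exact hz
  have e2 : H1.W R .nil B S i = H1.W T .nil (Tsq.sq T).2 (Tsq.sq T).1 (j9 a) := e.symm.trans e1
  rcases hd.meetN hT hi l1 e2 with k1 | k1 | k1 | ⟨k1, k2⟩ | ⟨k1, k2⟩ | ⟨k1, k2, k3⟩
  · exfalso
    subst k1
    apply hz
    apply hF 0 (Or.inl rfl)
    rw [hd.word w0 (by norm_num)]
    rfl
  · exact Or.inl k1
  · exact Or.inr (Or.inl k1)
  · exfalso
    omega
  · obtain ⟨a1, a2, a3⟩ := hT.sh hd k1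
    exact Or.inr (Or.inr ⟨k1, a1, a3, by omega⟩)
  · exfalso
    have k4 : j9 a = 0 ∨ j9 a = 4 := by omega
    rcases k1 with rfl | rfl | rfl
    · exact hz (hF (j9 a) k4 _ (by rw [hd.word w0 (by norm_num), e2]))
    · have k5 : j9 a = 0 := by omega
      rw [k5] at e2
      obtain ⟨Q, q1, q2⟩ := hT.c04 hd e2.symm
      rw [q1, OddHC.cont_node, OddHC.cont_node, raise_nil, OddHC.cont_nil, add_zero, Multiset.count_add] at h2
      have : Multiset.count 2 (raise {1} : Multiset ℕ) = 1 := by decide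
      omega
    · exact hz10 (hF (j9 a) k4 _ (by rw [hd.word w0 (by norm_num), e2]))

end Pool.OddHC
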