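import Pool.Agent.Work.MP_8f87b2_h4.J3VP

/-!
# J3V : the first and the last component of the 19 words (helper4)
-/

set_option autoImplicit false
set_option linter.unusedSimpArgs false

namespace Pool.OddHC

open Finset Equiv BinaryTree Pool.Agent.Work.MP_8f87b2_co

namespace J3

variable {k : ℕ} {F F' : Set (Cyc k)} {g g' : DG k} {R B S Y P Q A : BinaryTree Unit}

/-- words which end with a component `(A)`, `A` not empty -/
theorem SqD.lstA (h : SqD k R B S) {i : ℕ} (hi : i < 20) (h9 : i ≠ 9) (hA : A ≠ .nil)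
    (e : H1.W R .nil B S i = app Y (A △ .nil)) :
    (i = 0 ∧ A = .nil △ .nil ∧ Y = R) ∨
    (i = 4 ∧ ∃ R', R = app R' (A △ .nil) ∧ Y = (.nil △ .nil) △ R') ∨
    (i = 5 ∧ ∃ R', R = app R' (A △ .nil) ∧ Y = .nil △ (.nil △ R')) ∨
    (i = 8 ∧ A = R ∧ Y = .nil △ .nil) ∨
    (i = 10 ∧ ∃ S', S = app S' (A △ .nil) ∧ Y = app B ((.nil △ .nil) △ S')) ∨
    (i = 11 ∧ ∃ S', S = app S' (A △ .nil) ∧ Y = app B (.nil △ (.nil △ S'))) ∨
    (i = 13 ∧ A = app B (.nil △ .nil) ∧ Y = S) ∨
    (i = 14 ∧ B = .nil ∧ A = .nil △ S ∧ Y = .nil) ∨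
    (i = 14 ∧ ∃ B', B = app B' (A △ .nil) ∧ Y = (.nil △ S) △ B') ∨
    (i = 15 ∧ B = .nil ∧ A = S ∧ Y = .nil △ .nil) ∨
    (i = 15 ∧ ∃ B', B = app B' (A △ .nil) ∧ Y = .nil △ (S △ B')) ∨
    (i = 18 ∧ A = B ∧ Y = .nil △ S) ∨
    (i = 3 ∧ A = app R (.nil △ .nil) ∧ Y = .nil) ∨
    (i = 7 ∧ A = .nil △ R ∧ Y = .nil) ∨
    (i = 17 ∧ A = S △ B ∧ Y = .nil) ∨
    (i = 19 ∧ A = app S (B △ .nil) ∧ Y = .nil) := by
  have hR := h.ne
  have hS := h.neS
  have sing : ∀ {C : BinaryTree Unit}, C △ .nil = app Y (A △ .nil) → A = C ∧ Y = .nil := by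
    intro C e
    have e' : app .nil (C △ .nil) = app Y (A △ .nil) := e
    obtain ⟨e1, e2⟩ := H1.app_snoc e'
    exact ⟨e2.symm, e1.symm⟩
  interval_cases i
  · obtain ⟨e1, e2⟩ := H1.app_snoc e
    exact Or.inl ⟨rfl, e2.symm, e1.symm⟩
  · have e' : app (app R (.nil △ .nil)) (.nil △ .nil) = app Y (A △ .nil) := by
      rw [← e, H1.app_assoc]; rfl
    exact absurd (H1.app_snoc e').2.symm hA
  · have e' : app (.nil △ R) (.nil △ .nil) = app Y (A △ .nil) := by rw [← e]; rfl
    exact absurd (H1.app_snoc e').2.symm hA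
  · have := sing e
    right; right; right; right; right; right; right; right; right; right; right; right; left
    exact ⟨rfl, this⟩
  · obtain ⟨R', e1, e2⟩ := lst_node hR e
    right; left
    exact ⟨rfl, R', e1, e2⟩
  · obtain ⟨R', e1, e2⟩ := lst_node (by simp) e
    by_cases hR' : R' = .nil
    · subst hR'
      exact absurd (H1.node_inj e1).2 hR
    · obtain ⟨R1, rfl, e3⟩ : ∃ R1, R' = .nil △ R1 ∧ R = app R1 (A △ .nil) := by
        obtain ⟨R1, e4, e5⟩ := fst_app hR' e1.symm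
        exact ⟨R1, e4, e5⟩
      right; right; left
      exact ⟨rfl, R1, e3, e2⟩
  · have e' : app (R △ .nil) (.nil △ .nil) = app Y (A △ .nil) := by rw [← e]; rfl
    exact absurd (H1.app_snoc e').2.symm hA
  · have := sing e
    right; right; right; right; right; right; right; right; right; right; right; right; right; left
    exact ⟨rfl, this⟩
  · have e' : app (.nil △ .nil) (R △ .nil) = app Y (A △ .nil) := by rw [← e]; rfl
    obtain ⟨e1, e2⟩ := H1.app_snoc e'
    right; right; right; left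
    exact ⟨rfl, e2.symm, e1.symm⟩
  · exact absurd rfl h9
  · obtain ⟨Q', e1, e2⟩ := lst_app (by simp) e
    obtain ⟨S', e3, e4⟩ := lst_node hS e1
    right; right; right; right; left
    exact ⟨rfl, S', e3, by rw [e2, e4]⟩
  · obtain ⟨Q', e1, e2⟩ := lst_app (P := B) (Q := .nil △ (.nil △ S)) (by simp) e
    obtain ⟨Q'', e3, e4⟩ := lst_node (by simp) e1
    obtain ⟨S', e5, e6⟩ := lst_node hS e3
    right; right; right; right; right; left
    exact ⟨rfl, S', e5, by rw [e2, e4, e6]⟩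
  · have e' : app (S △ B) (.nil △ .nil) = app Y (A △ .nil) := by rw [← e]; rfl
    exact absurd (H1.app_snoc e').2.symm hA
  · obtain ⟨e1, e2⟩ := H1.app_snoc e
    right; right; right; right; right; right; left
    exact ⟨rfl, e2.symm, e1.symm⟩
  · by_cases hB : B = .nil
    · subst hB
      have := sing e
      right; right; right; right; right; right; right; left
      exact ⟨rfl, rfl, this⟩
    · obtain ⟨B', e1, e2⟩ := lst_node hB e
      right; right; right; right; right; right; right; right; left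
      exact ⟨rfl, B', e1, e2⟩
  · by_cases hB : B = .nil
    · subst hB
      have e' : app (.nil △ .nil) (S △ .nil) = app Y (A △ .nil) := by rw [← e]; rfl
      obtain ⟨e1, e2⟩ := H1.app_snoc e'
      right; right; right; right; right; right; right; right; right; left
      exact ⟨rfl, rfl, e2.symm, e1.symm⟩
    · obtain ⟨Q', e1, e2⟩ := lst_node (by simp) e
      obtain ⟨B', e3, e4⟩ := lst_node hB e1
      right; right; right; right; right; right; right; right; right; right; left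
      exact ⟨rfl, B', e3, by rw [e2, e4]⟩
  · have e' : app (app S (B △ .nil)) (.nil △ .nil) = app Y (A △ .nil) := by
      rw [← e, H1.app_assoc]; rfl
    exact absurd (H1.app_snoc e').2.symm hA
  · have := sing e
    right; right; right; right; right; right; right; right; right; right; right; right; right; right; left
    exact ⟨rfl, this⟩
  · have e' : app (.nil △ S) (B △ .nil) = app Y (A △ .nil) := by rw [← e]; rfl
    obtain ⟨e1, e2⟩ := H1.app_snoc e'
    right; right; right; right; right; right; right; right; right; right; right; left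
    exact ⟨rfl, e2.symm, e1.symm⟩
  · have := sing e
    right; right; right; right; right; right; right; right; right; right; right; right; right; right; right
    exact ⟨rfl, this⟩

/-- words which start with a component `(A)`, `A` not empty -/
theorem SqD.fstA (h : SqD k R B S) {i : ℕ} (hi : i < 20) (h9 : i ≠ 9) (hA : A ≠ .nil)
    (e : H1.W R .nil B S i = A △ Y) :
    (i = 0 ∧ ∃ R', R = A △ R' ∧ Y = app R' ((.nil △ .nil) △ .nil)) ∨
    (i = 1 ∧ ∃ R', R = A △ R' ∧ Y = app R' (.nil △ (.nil △ .nil))) ∨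
    (i = 3 ∧ A = app R (.nil △ .nil) ∧ Y = .nil) ∨
    (i = 4 ∧ A = .nil △ .nil ∧ Y = R) ∨
    (i = 6 ∧ A = R ∧ Y = .nil △ .nil) ∨
    (i = 7 ∧ A = .nil △ R ∧ Y = .nil) ∨
    (i = 10 ∧ B = .nil ∧ A = .nil △ .nil ∧ Y = S) ∨
    (i = 10 ∧ ∃ B', B = A △ B' ∧ Y = app B' ((.nil △ .nil) △ S)) ∨
    (i = 11 ∧ ∃ B', B = A △ B' ∧ Y = app B' (.nil △ (.nil △ S))) ∨
    (i = 12 ∧ A = S ∧ Y = app B (.nil △ .nil)) ∨
    (i = 13 ∧ ∃ S', S = A △ S' ∧ Y = app S' ((app B (.nil △ .nil)) △ .nil)) ∨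
    (i = 14 ∧ A = .nil △ S ∧ Y = B) ∨
    (i = 16 ∧ ∃ S', S = A △ S' ∧ Y = app S' (B △ (.nil △ .nil))) ∨
    (i = 17 ∧ A = S △ B ∧ Y = .nil) ∨
    (i = 19 ∧ A = app S (B △ .nil) ∧ Y = .nil) := by
  have hR := h.ne
  have hS := h.neS
  have nn : ∀ {C D : BinaryTree Unit}, C △ D = A △ Y → A = C ∧ Y = D := fun e =>
    ⟨(H1.node_inj e).1.symm, (H1.node_inj e).2.symm⟩
  interval_cases i
  · obtain ⟨R', e1, e2⟩ := fst_app hR e
    left
    exact ⟨rfl, R', e1, e2⟩
  · obtain ⟨R', e1, e2⟩ := fst_app hR e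
    right; left
    exact ⟨rfl, R', e1, e2⟩
  · exact absurd (H1.node_inj e).1.symm hA
  · right; right; left
    exact ⟨rfl, nn e⟩
  · right; right; right; left
    exact ⟨rfl, nn e⟩
  · exact absurd (H1.node_inj e).1.symm hA
  · right; right; right; right; left
    exact ⟨rfl, nn e⟩
  · right; right; right; right; right; left
    exact ⟨rfl, nn e⟩
  · exact absurd (H1.node_inj e).1.symm hA
  · exact absurd rfl h9
  · by_cases hB : B = .nil
    · subst hB
      right; right; right; right; right; right; left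
      exact ⟨rfl, rfl, nn e⟩
    · obtain ⟨B', e1, e2⟩ := fst_app hB e
      right; right; right; right; right; right; right; left
      exact ⟨rfl, B', e1, e2⟩
  · by_cases hB : B = .nil
    · subst hB
      exact absurd (H1.node_inj e).1.symm hA
    · obtain ⟨B', e1, e2⟩ := fst_app hB e
      right; right; right; right; right; right; right; right; left
      exact ⟨rfl, B', e1, e2⟩
  · right; right; right; right; right; right; right; right; right; left
    exact ⟨rfl, nn e⟩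
  · obtain ⟨S', e1, e2⟩ := fst_app hS e
    right; right; right; right; right; right; right; right; right; right; left
    exact ⟨rfl, S', e1, e2⟩
  · right; right; right; right; right; right; right; right; right; right; right; left
    exact ⟨rfl, nn e⟩
  · exact absurd (H1.node_inj e).1.symm hA
  · obtain ⟨S', e1, e2⟩ := fst_app hS e
    right; right; right; right; right; right; right; right; right; right; right; right; left
    exact ⟨rfl, S', e1, e2⟩
  · right; right; right; right; right; right; right; right; right; right; right; right; right; left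
    exact ⟨rfl, nn e⟩
  · exact absurd (H1.node_inj e).1.symm hA
  · right; right; right; right; right; right; right; right; right; right; right; right; right; right
    exact ⟨rfl, nn e⟩

/-! ### K -/

/-- the K-triple with `Y = R` meets the new T-cycle `z` -/
theorem SqD.k_ne (h : SqD k R B S) {w0 : X k} (ht : IsTri .nil Y (.nil △ .nil) F g)
    (hd : ∀ c ∈ F, c ≠ cyc (sX R B S w0 0) ∧ c ≠ cyc (sX R B S w0 1)) :
    Y ≠ R ∧ (B = .nil → Y ≠ S) := by
  obtain ⟨a, b, c, ha, hb, hc, h1, h2, h3, rfl, rfl⟩ := ht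
  constructor
  · rintro rfl
    refine (hd (cyc b) (Or.inl rfl)).1 ?_
    congr 1
    apply Subtype.ext
    rw [hb, h.word w0 (by norm_num)]
    rfl
  · rintro rfl rfl
    refine (hd (cyc c) (Or.inr rfl)).2 ?_
    rw [cyc_eq.2 (h.same w0 (i := 1) (j := 11) (by simp))]
    congr 1
    apply Subtype.ext
    rw [hc, h.word w0 (by norm_num)]
    rfl

/-- common words of a K-triple `(Y)(); Y(()), ()()Y` and the 19 words -/
theorem SqD.kW (h : SqD k R B S) {w0 : X k} (ht : IsTri .nil Y (.nil △ .nil) F g) (hY : Y ≠ .nil)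
    (hd : ∀ c ∈ F, c ≠ cyc (sX R B S w0 0) ∧ c ≠ cyc (sX R B S w0 1)) {w : X k} (hw : w ∈ g.B)
    {i : ℕ} (hi : i < 20) (h9 : i ≠ 9) (e : w.1 = H1.W R .nil B S i) :
    (i = 4 ∧ ∃ R', R = app R' ((.nil △ .nil) △ .nil) ∧ Y = (.nil △ .nil) △ R') ∨
    (i = 5 ∧ ∃ R', R = app R' ((.nil △ .nil) △ .nil) ∧ Y = .nil △ (.nil △ R')) ∨
    (i = 14 ∧ ∃ B', B = app B' ((.nil △ .nil) △ .nil) ∧ Y = (.nil △ S) △ B') ∨
    (i = 15 ∧ ∃ B', B = app B' ((.nil △ .nil) △ .nil) ∧ Y = .nil △ (S △ B')) := by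
  have hR := h.ne
  have hS := h.neS
  have lY := H1.len_pos hY
  obtain ⟨nR, nS⟩ := h.k_ne ht hd
  have lR := H1.len_pos hR
  have lS := H1.len_pos hS
  rcases ht.words w hw with e1 | ⟨hF, e1 | e1⟩
  · have e2 : H1.W R .nil B S i = app (Y △ .nil) (.nil △ .nil) := e.symm.trans e1
    rcases h.lst hi h9 e2 with ⟨_, e3⟩ | ⟨_, e3⟩ | ⟨_, e3⟩ | ⟨_, e3⟩ | ⟨_, e3⟩ | ⟨_, hB, e3⟩
    · have := congrArg H1.len e3
      rw [H1.len_app, len_node, len_node, len_nil] at this
      omega
    · exact absurd (H1.node_inj e3).1 hY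
    · exact absurd (H1.node_inj e3).1 nR
    · obtain ⟨e4, e5⟩ := H1.node_inj e3
      exact absurd e4 (nS e5.symm)
    · have := congrArg H1.len e3
      rw [H1.len_app, len_node, len_node, len_nil] at this
      omega
    · exact absurd (H1.node_inj e3).1 hY
  · have e2 : H1.W R .nil B S i = app Y ((.nil △ .nil) △ .nil) := e.symm.trans e1
    have lfn : (.nil △ .nil : BinaryTree Unit) ≠ .nil := by simp
    have cw : cyc (sX R B S w0 0) ≠ cyc w ∧ cyc (sX R B S w0 1) ≠ cyc w :=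
      ⟨fun h => (hd _ hF).1 h.symm, fun h => (hd _ hF).2 h.symm⟩
    have ew : w = sX R B S w0 i := Subtype.ext (by rw [e, h.word w0 hi])
    rcases h.lstA hi h9 lfn e2 with ⟨_, _, e3⟩ | h4 | h5 | ⟨_, e3, _⟩ | ⟨rfl, _⟩ | ⟨rfl, _⟩ |
      ⟨_, e3, e4⟩ | ⟨_, _, _, e3⟩ | h14 | ⟨_, _, e3, _⟩ | h15 | ⟨_, e3, _⟩ | ⟨_, _, e3⟩ | ⟨_, _, e3⟩ |
      ⟨_, _, e3⟩ | ⟨_, _, e3⟩
    · exact absurd e3 nR
    · exact Or.inl h4
    · exact Or.inr (Or.inl h5)
    · exact absurd e3.symm (ne_nil_node h.one)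
    · exact absurd (by rw [ew, cyc_eq.2 (h.same w0 (i := 0) (j := 10) (by simp))]) cw.1
    · exact absurd (by rw [ew, cyc_eq.2 (h.same w0 (i := 1) (j := 11) (by simp))]) cw.2
    · by_cases hB : B = .nil
      · exact absurd e4 (nS hB)
      · have := congrArg H1.len e3
        rw [H1.len_app, len_node, len_nil] at this
        have := H1.len_pos hB
        omega
    · exact absurd e3 hY
    · exact Or.inr (Or.inr (Or.inl h14))
    · exact absurd e3.symm (ne_nil_node h.oneS)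
    · exact Or.inr (Or.inr (Or.inr h15))
    · exact absurd e3.symm (ne_nil_node h.oneB)
    · exact absurd e3 hY
    · exact absurd e3 hY
    · exact absurd e3 hY
    · exact absurd e3 hY
  · have e2 : H1.W R .nil B S i = .nil △ (.nil △ Y) := e.symm.trans e1
    rcases h.fst hi h9 e2 with ⟨_, e3⟩ | ⟨_, e3⟩ | ⟨_, e3⟩ | ⟨_, e3⟩ | ⟨_, e3⟩ | ⟨_, hB, e3⟩
    · obtain ⟨R', e4, _⟩ := fst_app hR e3.symm
      exact absurd e4 (ne_nil_node h.one)
    · exact absurd (H1.node_inj e3).2 nR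
    · exact absurd (H1.node_inj e3).1.symm hR
    · exact absurd (H1.node_inj e3).1.symm hS
    · obtain ⟨R', e4, _⟩ := fst_app hS e3.symm
      exact absurd e4 (ne_nil_node h.oneS)
    · exact absurd (H1.node_inj e3).2 (nS hB)

/-! ### K' -/

theorem SqD.km_ne (h : SqD k R B S) {w0 : X k} (ht : IsTri (.nil △ .nil) Y .nil F g)
    (hd : ∀ c ∈ F, c ≠ cyc (sX R B S w0 0) ∧ c ≠ cyc (sX R B S w0 1)) :
    Y ≠ R ∧ (B = .nil → Y ≠ S) := by
  obtain ⟨a, b, c, ha, hb, hc, h1, h2, h3, rfl, rfl⟩ := ht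
  constructor
  · rintro rfl
    refine (hd (cyc b) (Or.inl rfl)).2 ?_
    congr 1
    apply Subtype.ext
    rw [hb, h.word w0 (by norm_num)]
    rfl
  · rintro rfl rfl
    refine (hd (cyc c) (Or.inr rfl)).1 ?_
    rw [cyc_eq.2 (h.same w0 (i := 0) (j := 10) (by simp))]
    congr 1
    apply Subtype.ext
    rw [hc, h.word w0 (by norm_num)]
    rfl

/-- common words of a K'-triple `()(Y); Y()(), (())Y` and the 19 words -/
theorem SqD.kmW (h : SqD k R B S) {w0 : X k} (ht : IsTri (.nil △ .nil) Y .nil F g) (hY : Y ≠ .nil)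
    (hd : ∀ c ∈ F, c ≠ cyc (sX R B S w0 0) ∧ c ≠ cyc (sX R B S w0 1)) {w : X k} (hw : w ∈ g.B)
    {i : ℕ} (hi : i < 20) (h9 : i ≠ 9) (e : w.1 = H1.W R .nil B S i) :
    (i = 13 ∧ ∃ S', S = (.nil △ .nil) △ S' ∧ Y = app S' ((app B (.nil △ .nil)) △ .nil)) ∨
    (i = 16 ∧ ∃ S', S = (.nil △ .nil) △ S' ∧ Y = app S' (B △ (.nil △ .nil))) := by
  have hR := h.ne
  have hS := h.neS
  have lY := H1.len_pos hY
  obtain ⟨nR, nS⟩ := h.km_ne ht hd
  have lR := H1.len_pos hR
  have lS := H1.len_pos hS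
  rcases ht.words w hw with e1 | ⟨hF, e1 | e1⟩
  · have e2 : H1.W R .nil B S i = .nil △ (Y △ .nil) := e.symm.trans e1
    rcases h.fst hi h9 e2 with ⟨_, e3⟩ | ⟨_, e3⟩ | ⟨_, e3⟩ | ⟨_, e3⟩ | ⟨_, e3⟩ | ⟨_, hB, e3⟩
    · have := congrArg H1.len e3
      rw [H1.len_app, len_node, len_node, len_nil] at this
      omega
    · exact absurd (H1.node_inj e3).1 hY
    · exact absurd (H1.node_inj e3).1 nR
    · obtain ⟨e4, e5⟩ := H1.node_inj e3
      exact absurd e4 (nS e5.symm)
    · have := congrArg H1.len e3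
      rw [H1.len_app, len_node, len_node, len_nil] at this
      omega
    · exact absurd (H1.node_inj e3).1 hY
  · have e2 : H1.W R .nil B S i = app Y (.nil △ (.nil △ .nil)) := e.symm.trans e1
    have e2' : H1.W R .nil B S i = app (app Y (.nil △ .nil)) (.nil △ .nil) := by
      rw [e2, H1.app_assoc]; rfl
    rcases h.lst hi h9 e2' with ⟨_, e3⟩ | ⟨_, e3⟩ | ⟨_, e3⟩ | ⟨_, e3⟩ | ⟨_, e3⟩ | ⟨_, hB, e3⟩
    · exact absurd (H1.app_snoc e3).1 nR
    · obtain ⟨R', e4, _⟩ := lst_node hR e3.symm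
      exact absurd e4 (ne_app_lf h.one)
    · have := congrArg H1.len e3
      rw [H1.len_app, len_node, len_node, len_nil] at this
      omega
    · by_cases hB : B = .nil
      · have := congrArg H1.len e3
        rw [hB, H1.len_app, len_node, len_node, len_nil] at this
        omega
      · obtain ⟨R', e4, _⟩ := lst_node hB e3.symm
        exact absurd e4 (ne_app_lf h.oneB)
    · obtain ⟨e4, e5⟩ := H1.app_snoc e3
      exact absurd e4 (nS e5.symm)
    · obtain ⟨R', e4, _⟩ := lst_node hS e3.symm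
      exact absurd e4 (ne_app_lf h.oneS)
  · have e2 : H1.W R .nil B S i = (.nil △ .nil) △ Y := e.symm.trans e1
    have lfn : (.nil △ .nil : BinaryTree Unit) ≠ .nil := by simp
    have cw : cyc (sX R B S w0 0) ≠ cyc w ∧ cyc (sX R B S w0 1) ≠ cyc w :=
      ⟨fun h => (hd _ hF).1 h.symm, fun h => (hd _ hF).2 h.symm⟩
    have ew : w = sX R B S w0 i := Subtype.ext (by rw [e, h.word w0 hi])
    rcases h.fstA hi h9 lfn e2 with ⟨rfl, _⟩ | ⟨rfl, _⟩ | ⟨_, _, e3⟩ | ⟨_, _, e3⟩ | ⟨_, e3, _⟩ |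
      ⟨_, _, e3⟩ | ⟨_, hB, _, e3⟩ | ⟨rfl, _⟩ | ⟨rfl, _⟩ | ⟨_, e3, _⟩ | h13 | ⟨_, e3, _⟩ | h16 |
      ⟨_, _, e3⟩ | ⟨_, _, e3⟩
    · exact absurd (by rw [ew]) cw.1
    · exact absurd (by rw [ew]) cw.2
    · exact absurd e3 hY
    · exact absurd e3 nR
    · exact absurd e3.symm (ne_nil_node h.one)
    · exact absurd e3 hY
    · exact absurd e3 (nS hB)
    · exact absurd (by rw [ew, cyc_eq.2 (h.same w0 (i := 0) (j := 10) (by simp))]) cw.1
    · exact absurd (by rw [ew, cyc_eq.2 (h.same w0 (i := 1) (j := 11) (by simp))]) cw.2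
    · exact absurd e3.symm (ne_nil_node h.oneS)
    · exact Or.inl h13
    · have := (H1.node_inj e3).2
      exact absurd this.symm hS
    · exact Or.inr h16
    · exact absurd e3 hY
    · exact absurd e3 hY

end J3

end Pool.OddHC
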