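import Pool.Agent.Work.MP_8f87b2_h4.J3VE

/-!
# J3V against the plain types L, K, K', Cr, Cl (helper4)

`SqD.lW`, `SqD.kW`, `SqD.kmW`, `SqD.crW`, `SqD.clW` : the exact list of the possible common words.
-/

set_option autoImplicit false
set_option linter.unusedSimpArgs false

namespace Pool.OddHC

open Finset Equiv BinaryTree Pool.Agent.Work.MP_8f87b2_co

namespace J3

variable {k : ℕ} {F F' : Set (Cyc k)} {g g' : DG k} {R B S Y P Q A : BinaryTree Unit}

/-! ### Lists of components -/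

theorem fst_app (hP : P ≠ .nil) (e : app P Q = A △ Y) : ∃ P', P = A △ P' ∧ Y = app P' Q := by
  cases P with
  | nil => exact absurd rfl hP
  | node _ C D =>
    change C △ app D Q = A △ Y at e
    obtain ⟨rfl, rfl⟩ := H1.node_inj e
    exact ⟨D, rfl, rfl⟩

theorem ex_snoc (hQ : Q ≠ .nil) : ∃ Q' C, Q = app Q' (C △ .nil) := by
  induction Q with
  | nil => exact absurd rfl hQ
  | node _ C D _ ih =>
    by_cases hD : D = .nil
    · subst hD
      exact ⟨.nil, C, rfl⟩
    · obtain ⟨Q', C', h⟩ := ih hD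
      refine ⟨C △ Q', C', ?_⟩
      change _ = C △ app Q' (C' △ .nil)
      rw [← h]

theorem lst_app (hQ : Q ≠ .nil) (e : app P Q = app Y (A △ .nil)) :
    ∃ Q', Q = app Q' (A △ .nil) ∧ Y = app P Q' := by
  obtain ⟨Q', C, rfl⟩ := ex_snoc hQ
  rw [← H1.app_assoc] at e
  obtain ⟨e1, rfl⟩ := H1.app_snoc e
  exact ⟨Q', rfl, e1.symm⟩

theorem lst_node (hQ : Q ≠ .nil) {C : BinaryTree Unit} (e : C △ Q = app Y (A △ .nil)) :
    ∃ Q', Q = app Q' (A △ .nil) ∧ Y = C △ Q' := by
  have e' : app (C △ .nil) Q = app Y (A △ .nil) := e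
  exact lst_app hQ e'

theorem cnt_app {P Q : BinaryTree Unit} (h : (OddHC.cont (app P Q)).count 1 = 0) :
    (OddHC.cont P).count 1 = 0 ∧ (OddHC.cont Q).count 1 = 0 := by
  rw [cont_app, Multiset.count_add] at h
  omega

theorem cnt_node {C P : BinaryTree Unit} (h : (OddHC.cont (C △ P)).count 1 = 0) :
    (OddHC.cont P).count 1 = 0 := by
  rw [cont_node, Multiset.count_add] at h
  omega

/-- no component `()` -/
theorem ne_nil_node (h : (OddHC.cont (P)).count 1 = 0) : P ≠ .nil △ Y := by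
  rintro rfl
  have := fb_one h
  exact absurd this (by simp [H1.fb, H1.isNil])

theorem ne_app_lf (h : (OddHC.cont P).count 1 = 0) : P ≠ app Y (.nil △ .nil) := by
  rintro rfl
  have := lastB_one h
  rw [H1.lastB_app (by simp)] at this
  exact absurd this (by simp [H1.lastB, H1.isNil])

theorem ht_ch (n : ℕ) : OddHC.ht (H1.ch n) = n := by
  induction n with
  | zero => rfl
  | succ n ih => rw [H1.ch_succ, ht_node, ih]; simp [OddHC.ht]

theorem num_ch (n : ℕ) : (H1.ch n).numNodes = n := by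
  induction n with
  | zero => rfl
  | succ n ih => rw [H1.ch_succ]; change (H1.ch n).numNodes + 0 + 1 = _; omega

theorem SqD.ne_ch (h : SqD k R B S) (n : ℕ) : R ≠ H1.ch n := by
  intro e
  have := h.two
  rw [e, ht_ch, num_ch] at this
  exact lt_irrefl _ this

theorem SqD.ne_chS (h : SqD k R B S) (hB : B = .nil) (n : ℕ) : S ≠ H1.ch n := by
  intro e
  have h1 := h.two
  have h2 := h.htS
  have h3 := h.num
  subst hB
  have h4 : (BinaryTree.nil : BinaryTree Unit).numNodes = 0 := rfl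
  rw [e, ht_ch] at h2
  rw [e, num_ch] at h3
  omega

theorem len_node (P Q : BinaryTree Unit) : H1.len (P △ Q) = H1.len Q + 1 := rfl

theorem len_nil : H1.len (BinaryTree.nil : BinaryTree Unit) = 0 := rfl

/-! ### L -/

/-- common words of an L-triple `()(Y)(); Y(())(), ()(())Y` and the 19 words -/
theorem SqD.lW (h : SqD k R B S) (ht : IsTri (lp 1) Y (lp 1) F g) (hY : Y ≠ .nil)
    (hf : H1.fb Y = false) (hl : H1.lastB Y = false) {w : X k} (hw : w ∈ g.B)
    {i : ℕ} (hi : i < 20) (h9 : i ≠ 9) (e : w.1 = H1.W R .nil B S i) :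
    (i = 2 ∧ R = Y △ .nil) ∨ (i = 18 ∧ B = .nil ∧ S = Y △ .nil) ∨
    (i = 12 ∧ ∃ Y', Y = S △ Y' ∧ B = app Y' ((.nil △ .nil) △ .nil)) ∨
    (i = 18 ∧ B ≠ .nil ∧ ∃ S', S = (.nil △ .nil) △ S' ∧ Y = app S' (B △ .nil)) := by
  have hR := h.ne
  have hS := h.neS
  have lY := H1.len_pos hY
  rcases ht.words w hw with e1 | ⟨-, e1 | e1⟩
  · have e2 : H1.W R .nil B S i = .nil △ (Y △ (.nil △ .nil)) := e.symm.trans e1
    rcases h.fst hi h9 e2 with ⟨rfl, e3⟩ | ⟨_, e3⟩ | ⟨_, e3⟩ | ⟨_, e3⟩ | ⟨rfl, e3⟩ | ⟨_, hB, e3⟩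
    · have e4 : app (Y △ .nil) (.nil △ .nil) = app R (.nil △ .nil) := e3
      exact Or.inl ⟨rfl, (H1.app_snoc e4).1.symm⟩
    · exact absurd (H1.node_inj e3).1 hY
    · have := (H1.node_inj e3).2
      exact absurd this (by simp)
    · exact absurd (H1.node_inj e3).2.symm (ne_nil_node h.oneB)
    · have e4 : app (Y △ .nil) (.nil △ .nil) = app S (B △ .nil) := e3
      obtain ⟨e5, e6⟩ := H1.app_snoc e4
      exact Or.inr (Or.inl ⟨rfl, e6.symm, e5.symm⟩)
    · exact absurd (H1.node_inj e3).1 hY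
  · have e2 : H1.W R .nil B S i = app Y ((.nil △ .nil) △ (.nil △ .nil)) := e.symm.trans e1
    have e2' : H1.W R .nil B S i = app (app Y ((.nil △ .nil) △ .nil)) (.nil △ .nil) := by
      rw [e2, H1.app_assoc]; rfl
    rcases h.lst hi h9 e2' with ⟨_, e3⟩ | ⟨_, e3⟩ | ⟨_, e3⟩ | ⟨rfl, e3⟩ | ⟨_, e3⟩ | ⟨_, hB, e3⟩
    · have := (H1.app_snoc e3).2
      exact absurd this (by simp)
    · obtain ⟨Y', rfl, _⟩ := fst_app hY e3
      exact absurd hf (by simp [H1.fb, H1.isNil])
    · have := congrArg H1.len e3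
      rw [H1.len_app, len_node, len_node, len_nil] at this
      omega
    · obtain ⟨Y', rfl, e4⟩ := fst_app hY e3
      exact Or.inr (Or.inr (Or.inl ⟨rfl, Y', rfl, e4⟩))
    · exact absurd (H1.app_snoc e3).2.symm (ne_nil_node h.oneB)
    · obtain ⟨Y', rfl, _⟩ := fst_app hY e3
      exact absurd hf (by simp [H1.fb, H1.isNil])
  · have e2 : H1.W R .nil B S i = .nil △ ((.nil △ .nil) △ Y) := e.symm.trans e1
    rcases h.fst hi h9 e2 with ⟨rfl, e3⟩ | ⟨_, e3⟩ | ⟨_, e3⟩ | ⟨_, e3⟩ | ⟨rfl, e3⟩ | ⟨_, hB, e3⟩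
    · obtain ⟨R', _, rfl⟩ := fst_app hR e3.symm
      rw [H1.lastB_app (by simp)] at hl
      exact absurd hl (by simp [H1.lastB, H1.isNil])
    · have := (H1.node_inj e3).1
      exact absurd this (by simp)
    · exact absurd (H1.node_inj e3).2 hY
    · exact absurd (H1.node_inj e3).1.symm (ne_nil_node h.oneS)
    · obtain ⟨S', e4, e5⟩ := fst_app hS e3.symm
      have hB : B ≠ .nil := by
        rintro rfl
        rw [e5, H1.lastB_app (by simp)] at hl
        exact absurd hl (by simp [H1.lastB, H1.isNil])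
      exact Or.inr (Or.inr (Or.inr ⟨rfl, hB, S', e4, e5⟩))
    · have := (H1.node_inj e3).1
      exact absurd this (by simp)

end J3

end Pool.OddHC
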