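import Pool.Agent.Work.MP_8f87b2_h4.Meet2
import Pool.Agent.Work.MP_8f87b2_h24.J1Node

/-!
# J1 against J3V, exact list (helper4)
-/

set_option autoImplicit false
set_option linter.unusedSimpArgs false
set_option linter.unusedVariables false

namespace Pool.OddHC

open Finset Equiv BinaryTree Pool.Agent.Work.MP_8f87b2_co

open J3

variable {k : ℕ} {F F' : Set (Cyc k)} {g g' : DG k}

/-- the data of a J1 word -/
theorem J1.JDat.sqD {R B S : BinaryTree Unit} (h : J1.JDat k R B S) : SqD k R B S := by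
  refine ⟨h.sq, h.big, ?_, ?_, h.num⟩
  · rw [Multiset.count_eq_zero]
    intro h1
    have := h.bare 1 h1
    omega
  · -- two solitons
    have hc := h.cont
    have h1 : 0 < (OddHC.cont B).sum := by
      rw [cont_sum]
      cases hB : B with
      | nil => exact absurd hB h.hB
      | node _ C D =>
        change 0 < C.numNodes + D.numNodes + 1
        omega
    have h2 : OddHC.ht S = OddHC.ht R := by
      have := (Tsq.ht_sq h.ne).1
      rwa [h.sq, H1.ht_eq, H1.ht_eq] at this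
    have h3 : OddHC.ht S ≤ (OddHC.cont S).sum := by
      have h4 : OddHC.cont S ≠ 0 := by
        intro h5
        rw [OddHC.ht_eq, h5] at h2
        have := h.big
        have h6 : (0 : Multiset ℕ).sup = 0 := rfl
        omega
      rw [OddHC.ht_eq]
      exact Multiset.single_le_sum (fun x _ => Nat.zero_le x) _ (sup_mem h4)
    have h5 : R.numNodes = (OddHC.cont B).sum + (OddHC.cont S).sum := by
      rw [← cont_sum R, ← hc, Multiset.sum_add]
    omega

/-- **J1 against J3V, exact list** -/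
theorem TyJ1.meetJ3V (h : J1.TyJ1 F g) {R B S : BinaryTree Unit} (hd : SqD k R B S) {w0 : X k}
    (hz : cyc (sX R B S w0 0) ∉ F) {w : X k} (hw : w ∈ g.B) {i : ℕ} (hi : i < 20)
    (e : w.1 = H1.W R .nil B S i) : ∃ R' B' S', J1.JDat k R' B' S' ∧ ((B = .nil ∧ R' = S) ∨
      (S △ B = app S' (B' △ .nil) ∧ OddHC.ht R' = OddHC.ht R + 1 ∧ B ≠ .nil ∧ (i = 15 ∨ i = 12 ∨ i = 17)) ∨
      (S' △ B' = app S (B △ .nil) ∧ OddHC.ht R = OddHC.ht R' + 1 ∧ B ≠ .nil ∧ (i = 18 ∨ i = 16 ∨ i = 19))) := by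
  obtain ⟨R', B', S', v0, h1, h4, rfl, rfl⟩ := h
  obtain ⟨j, hj, rfl⟩ := J1.mem_gadJA.1 hw
  have h' := h1.sqD
  rw [J1.jX_eq h1 v0 hj] at e
  refine ⟨R', B', S', h1, ?_⟩
  have hF : ∀ b, b = 0 ∨ b = 10 ∨ b = 4 → ∀ x : X k, x.1 = H1.W R' .nil B' S' b →
      cyc x = cyc (J1.jX R' B' S' v0 0) := by
    intro b hb x hx
    have hx' : x = J1.jX R' B' S' v0 b := Subtype.ext (by
      rw [hx, J1.jX_eq h1 v0 (by rcases hb with rfl | rfl | rfl <;> norm_num)])
    rcases hb with rfl | rfl | rfl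
    · rw [hx']
    · rw [hx', ← J1.jX_link h1 v0 (i := 0) (j := 10) (by simp), cyc_eq]
      exact ⟨-2, by simp [zpow_neg, pow_succ]⟩
    · rw [hx', h4]
  have hz10 : cyc (sX R B S w0 10) ≠ cyc (J1.jX R' B' S' v0 0) := by
    rw [← cyc_eq.2 (hd.same w0 (i := 0) (j := 10) (by simp))]
    exact hz
  have hz0 : cyc (sX R B S w0 0) ≠ cyc (J1.jX R' B' S' v0 0) := hz
  rcases hd.meetN h' hi hj e.symm with k1 | k1 | k1 | ⟨k1, k2⟩ | ⟨k1, k2⟩ | ⟨k1, k2, k3⟩
  · exfalso
    subst k1
    refine hz0 (hF 0 (Or.inl rfl) _ ?_)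
    rw [hd.word w0 (by norm_num)]
    rfl
  · exact absurd k1.1 h1.hB
  · exact Or.inl k1
  · obtain ⟨a1, a2, a3⟩ := hd.sh h' k1
    exact Or.inr (Or.inl ⟨k1, a1, a2, by omega⟩)
  · obtain ⟨a1, a2, a3⟩ := h'.sh hd k1
    exact Or.inr (Or.inr ⟨k1, a1, a3, by omega⟩)
  · exfalso
    rcases k1 with rfl | rfl | rfl
    · exact hz0 (hF j (by omega) _ (by rw [hd.word w0 (by norm_num), e]))
    · rcases k2 with rfl | rfl | rfl
      · obtain ⟨Q, q1, q2⟩ := h'.c04 hd e
        have := h1.bare 2 (by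
          rw [q1, OddHC.cont_node, OddHC.cont_node, raise_nil, OddHC.cont_nil, add_zero]
          exact Multiset.mem_add.2 (Or.inl (by decide)))
        omega
      · exact k3 rfl
      · rcases hd.c410 h' e.symm with ⟨q1, q2⟩ | ⟨Q, q1, q2⟩
        · exact h1.hB q1
        · have h5 : 2 ∈ OddHC.cont R' := by
            rw [← h1.cont, q1, OddHC.cont_node, OddHC.cont_node, raise_nil, OddHC.cont_nil, add_zero]
            exact Multiset.mem_add.2 (Or.inl (Multiset.mem_add.2 (Or.inl (by decide))))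
          have := h1.bare 2 h5
          omega
    · exact hz10 (hF j (by omega) _ (by rw [hd.word w0 (by norm_num), e]))

end Pool.OddHC
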