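import Pool.Agent.Work.MP_8f87b2_h4.JGJ3V

/-!
# The word 9 = `((R))` and the one soliton gadgets (helper4)
-/

set_option autoImplicit false
set_option linter.unusedSimpArgs false
set_option linter.unusedVariables false

namespace Pool.OddHC

open Finset Equiv BinaryTree Pool.Agent.Work.MP_8f87b2_co

open J3

variable {k : ℕ} {F F' : Set (Cyc k)} {g g' : DG k}

namespace J3

variable {R B S Y : BinaryTree Unit}

open J H1

/-- the word 9 is no word of the one soliton gadgets -/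
theorem SqD.not_J9w (h : SqD k R B S) (h2 : 2 ≤ J3.cc R) {n : ℕ} (hn : 1 ≤ n)
    {Ψ : ZMod (2 * n + 1) → ℕ} : ¬ IsPu n Ψ ((R △ .nil) △ .nil) ∧ ¬ IsUs n Ψ ((R △ .nil) △ .nil) ∧
      ¬ IsMx n Ψ ((R △ .nil) △ .nil) := by
  have hno : ¬ J.One (OddHC.cont ((R △ .nil) △ .nil)) := h.not_one h2 (i := 9) (by norm_num)
  refine ⟨fun h1 => hno (one_Pu hn h1), fun h1 => hno ?_, ?_⟩
  · rw [h1.2]
    exact one_RF hn Ψ
  · rintro ⟨t, D, u, j, ht, hD, h1, hj, hj', e⟩
    have hone := one_S0 hn h1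
    have hb := b2_le t
    obtain ⟨t, rfl⟩ : ∃ t', t = t' + 1 := ⟨t - 1, by omega⟩
    obtain ⟨hS0, hSl⟩ := mirS_last hD u
    have h0 : Tsq.mir BinaryTree.nil = BinaryTree.nil := rfl
    have s1 : ∀ p ∈ ({1} : Multiset ℕ), p ≤ 2 := by
      intro p hp
      rw [Multiset.mem_singleton] at hp
      omega
    have c1 : ∀ {M : Multiset ℕ}, J.One M → J.One ({1} + M) := fun h => by
      rw [add_comm]
      exact h.add s1
    have nope : J.One (OddHC.cont (mw (t + 1) D u j)) → False := by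
      intro h5
      apply hno
      rw [e, HM.cont_mir]
      exact h5
    interval_cases j
    · apply nope
      simp only [mw, W, cont_app, OddHC.cont_node, OddHC.cont_nil, raise_zero, app, add_zero, zero_add]
      rw [add_comm]
      exact (c1 (c1 hone)).add hb
    · apply nope
      simp only [mw, W, cont_app, OddHC.cont_node, OddHC.cont_nil, raise_zero, app, add_zero, zero_add]
      rw [← add_assoc]
      exact (hone.raise.add hb).add s1
    · have e1 : Tsq.mir (mw (t + 1) D u 13) = (.nil △ Tsq.mir (b2 (t + 1))) △ Tsq.mir (RR 0 D u) := by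
        simp only [mw, W, Tsq.mir_node, Tsq.mir_app, h0, app]
      rw [e1] at e
      exact hS0 (H1.node_inj e).2.symm
    · apply nope
      simp only [mw, W, cont_app, OddHC.cont_node, OddHC.cont_nil, raise_zero, app, add_zero, zero_add]
      exact (c1 hone).raise.add hb
    · apply nope
      simp only [mw, W, cont_app, OddHC.cont_node, OddHC.cont_nil, raise_zero, app, add_zero, zero_add]
      exact c1 (hone.raise.add hb)
    · have e1 : Tsq.mir (mw (t + 1) D u 16) = .nil △ (Tsq.mir (b2 (t + 1)) △ Tsq.mir (RR 0 D u)) := by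
        simp only [mw, W, Tsq.mir_node, Tsq.mir_app, h0, app]
      rw [e1] at e
      exact absurd (H1.node_inj e).2 (by simp)
    · apply nope
      simp only [mw, W, cont_app, OddHC.cont_node, OddHC.cont_nil, raise_zero, app, add_zero, zero_add]
      exact (hone.raise.add hb).raise
    · have e1 : Tsq.mir (mw (t + 1) D u 18) =
          app (Tsq.mir (b2 (t + 1)) △ Tsq.mir (RR 0 D u)) (.nil △ .nil) := by
        simp only [mw, W, Tsq.mir_node, Tsq.mir_app, h0, app]
      rw [e1] at e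
      have e2 : app .nil ((R △ .nil) △ .nil) = app (Tsq.mir (b2 (t + 1)) △ Tsq.mir (RR 0 D u)) (.nil △ .nil) := e
      exact absurd (H1.app_snoc e2).2 (by simp)
    · have e1 : Tsq.mir (mw (t + 1) D u 19) = (Tsq.mir (b2 (t + 1)) △ Tsq.mir (RR 0 D u)) △ .nil := by
        simp only [mw, W, Tsq.mir_node, Tsq.mir_app, h0, app]
      rw [e1] at e
      exact hS0 (H1.node_inj (H1.node_inj e).1).2.symm

/-- all twenty words -/
theorem SqD.not_J20 (h : SqD k R B S) (h2 : 2 ≤ J3.cc R) (h4 : 4 ≤ OddHC.ht R) {n : ℕ} (hn : 1 ≤ n)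
    {Ψ : ZMod (2 * n + 1) → ℕ} {i : ℕ} (hi : i < 20) :
    ¬ IsPu n Ψ (H1.W R .nil B S i) ∧ ¬ IsUs n Ψ (H1.W R .nil B S i) ∧ ¬ IsMx n Ψ (H1.W R .nil B S i) := by
  by_cases h9 : i = 9
  · subst h9
    exact h.not_J9w h2 hn
  · exact h.not_J h2 h4 hn hi h9

/-- all twenty words against a gadget in JG form -/
theorem SqD.dis_JG20 (h : SqD k R B S) (h2 : 2 ≤ J3.cc R) (h4 : 4 ≤ OddHC.ht R) {n : ℕ} (hn : 1 ≤ n)
    {B' : Finset (X k)} {P U M : Set (ZMod (2 * n + 1) → ℕ)} (hJ : J.JG n B' P U M) {w : X k} {i : ℕ}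
    (hi : i < 20) (e : w.1 = H1.W R .nil B S i) : w ∉ B' := by
  intro hw
  rcases hJ _ hw with ⟨Φ, _, h5⟩ | ⟨Φ, _, h5⟩ | ⟨Φ, _, h5⟩
  · rw [e] at h5
    exact (h.not_J20 h2 h4 hn hi).1 h5
  · rw [e] at h5
    exact (h.not_J20 h2 h4 hn hi).2.1 h5
  · rw [e] at h5
    exact (h.not_J20 h2 h4 hn hi).2.2 h5

/-- all twenty words against the windows T -/
theorem SqD.tW20 (h : SqD k R B S) {b m a : ℕ} (hm : 1 ≤ m) (ha : 1 ≤ a) {i j : ℕ} (hi : i < 20)
    (hj : j < 20) (e : H1.W R .nil B S i = w3 b m a j) : False := by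
  by_cases h9 : i = 9
  · subst h9
    have hp : p12 (H1.W R .nil B S 9) = true := by rw [e]; exact p12_w3 hm ha hj
    change p12 ((R △ .nil) △ .nil) = true at hp
    rw [p12_node, p12_node, p12_one0 h.one, isNil_f.2 h.ne] at hp
    simp [p12_nil, isNil] at hp
  · exact h.tW hm ha hi h9 hj e

end J3

/-- no word `W R nil B S i` is a word of a window of type T -/
theorem TyT.dis20 (h' : TyT F' g') {R B S : BinaryTree Unit} (h : J3.SqD k R B S) {w : X k} {i : ℕ} (hi : i < 20)
    (e : w.1 = H1.W R .nil B S i) : w ∉ g'.B := by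
  obtain ⟨b, m, a, w0', h1', rfl, rfl⟩ := h'
  intro hw'
  obtain ⟨j, hj, e1⟩ := mem_gad20.1 hw'
  have e2 := congrArg Subtype.val e1
  rw [h1'.word w0' hj, e] at e2
  exact h.tW20 h1'.mpos h1'.pos hi hj e2.symm

end Pool.OddHC
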