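import Pool.Agent.Work.MP_8f87b2_h4.TJ3V

/-!
# Common words of two families `W R nil B S i`, `W R' nil B' S' j` (helper4)

`SqD.meet`: the exact list, for any two data (rows J3V-J3V, J5V-J3V, JV-J3V, JV-J5V).
-/

set_option autoImplicit false
set_option linter.unusedSimpArgs false
set_option linter.unusedVariables false

namespace Pool.OddHC

open Finset Equiv BinaryTree Pool.Agent.Work.MP_8f87b2_co

open J3

variable {k : ℕ} {F F' : Set (Cyc k)} {g g' : DG k}

namespace J3

variable {R B S R' B' S' P Y : BinaryTree Unit}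

open H1

/-- the data determine `R` -/
theorem SqD.injD (h : SqD k R B S) (h' : SqD k R' B S) : R = R' := by
  have e : R'.numNodes = R.numNodes := by
    have := h.size
    have := h'.size
    omega
  let x : X R.numNodes := ⟨R, mem_treesOfNumNodesEq.2 rfl⟩
  let y : X R.numNodes := ⟨R', mem_treesOfNumNodesEq.2 e⟩
  have e1 : (TT (TT x)).1 = app B S := by rw [Tsq.TT_sq x h.ne, h.sq]
  have e2 : (TT (TT y)).1 = app B S := by rw [Tsq.TT_sq y h'.ne, h'.sq]
  have e3 : TT (TT x) = TT (TT y) := Subtype.ext (e1.trans e2.symm)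
  exact congrArg Subtype.val (TT.injective (TT.injective e3))

/-- `S = (X)Y`, `ht X + 1 = ht R`, `ht Y < ht R` -/
theorem sq_top2 : ∀ t : BinaryTree Unit, t ≠ .nil →
    ∃ X Y, (Tsq.sq t).1 = X △ Y ∧ Tsq.ht X + 1 = Tsq.ht t ∧ Tsq.ht Y < Tsq.ht t := by
  intro t
  induction t with
  | nil => intro h; exact absurd rfl h
  | node u A C ihA ihC =>
    intro _
    by_cases h : Tsq.ht A + 1 < Tsq.ht C
    · have hC : C ≠ .nil := by
        rintro rfl
        exact absurd h (by simp [Tsq.ht])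
      obtain ⟨X, Y, e, hX, hY⟩ := ihC hC
      have hn : Tsq.ht (A △ C) = max (Tsq.ht A + 1) (Tsq.ht C) := Tsq.ht_node _ _
      refine ⟨A △ X, Y, congrArg Prod.fst (Tsq.sq_lt h e), ?_, ?_⟩
      · change Tsq.ht (A △ X) + 1 = Tsq.ht (A △ C)
        rw [hn, Tsq.ht_node]
        omega
      · change Tsq.ht Y < Tsq.ht (A △ C)
        rw [hn]
        omega
    · have hn : Tsq.ht (A △ C) = max (Tsq.ht A + 1) (Tsq.ht C) := Tsq.ht_node _ _
      have h0 : Tsq.ht (BinaryTree.nil : BinaryTree Unit) = 0 := rfl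
      by_cases hA : A = .nil
      · subst hA
        have h1 : Tsq.ht C ≤ 1 := by omega
        refine ⟨.nil, .nil, congrArg Prod.fst (Tsq.sq_nil h1), ?_, ?_⟩
        · change Tsq.ht .nil + 1 = Tsq.ht (.nil △ C)
          rw [hn]
          omega
        · change Tsq.ht .nil < Tsq.ht (.nil △ C)
          rw [hn]
          omega
      · have h2 := Tsq.ht_sq hA
        refine ⟨(Tsq.sq A).1, (Tsq.sq A).2, congrArg Prod.fst (Tsq.sq_ge hA (by omega)), ?_, ?_⟩
        · change Tsq.ht _ + 1 = Tsq.ht (A △ C)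
          rw [hn]
          omega
        · change Tsq.ht _ < Tsq.ht (A △ C)
          rw [hn]
          omega

theorem SqD.top2 (h : SqD k R B S) :
    ∃ X Y, S = X △ Y ∧ OddHC.ht X + 1 = OddHC.ht R ∧ OddHC.ht Y < OddHC.ht R := by
  obtain ⟨X, Y, e, hX, hY⟩ := sq_top2 R h.ne
  rw [h.sq] at e
  rw [H1.ht_eq, H1.ht_eq] at hX hY
  exact ⟨X, Y, e, hX, hY⟩

/-! ### Facts for one datum -/

theorem SqD.appR (h : SqD k R B S) {X : BinaryTree Unit} : app R X ≠ .nil △ Y := by
  intro e
  obtain ⟨P', e1, _⟩ := fst_app h.ne e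
  exact ne_nil_node h.one e1

theorem SqD.appS (h : SqD k R B S) {X : BinaryTree Unit} : app S X ≠ .nil △ Y := by
  intro e
  obtain ⟨P', e1, _⟩ := fst_app h.neS e
  exact ne_nil_node h.oneS e1

theorem SqD.lenR (h : SqD k R B S) {X Z : BinaryTree Unit} : app R (X △ .nil) ≠ Z △ .nil := by
  intro e
  have l := congrArg H1.len e
  have := H1.len_pos h.ne
  rw [H1.len_app, len_node, len_node, len_nil] at l
  omega

theorem SqD.lenS (h : SqD k R B S) {X Z : BinaryTree Unit} : app S (X △ .nil) ≠ Z △ .nil := by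
  intro e
  have l := congrArg H1.len e
  have := H1.len_pos h.neS
  rw [H1.len_app, len_node, len_node, len_nil] at l
  omega

/-- `(S)B` does not end with `()` -/
theorem SqD.lstSB (h : SqD k R B S) : S △ B ≠ app Y (.nil △ .nil) := by
  intro e
  by_cases hB : B = .nil
  · subst hB
    have e' : app .nil (S △ .nil) = app Y (.nil △ .nil) := e
    exact h.neS (H1.app_snoc e').2
  · obtain ⟨Q', e1, _⟩ := lst_node hB e
    exact ne_app_lf h.oneB e1

/-- the relation of the two data -/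
def Rel (R B S R' B' S' : BinaryTree Unit) : Prop :=
  R = R' ∨ (B' = .nil ∧ R = S') ∨ (B = .nil ∧ R' = S) ∨ S △ B = app S' (B' △ .nil) ∨
    S' △ B' = app S (B △ .nil)

theorem Rel.symm (h : Rel R B S R' B' S') : Rel R' B' S' R B S := by
  rcases h with h | h | h | h | h
  · exact Or.inl h.symm
  · exact Or.inr (Or.inr (Or.inl h))
  · exact Or.inr (Or.inl h)
  · exact Or.inr (Or.inr (Or.inr (Or.inr h)))
  · exact Or.inr (Or.inr (Or.inr (Or.inl h)))

/-- the six heads -/
def sx (R B S : BinaryTree Unit) : ℕ → BinaryTree Unit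
  | 0 => app R (.nil △ .nil)
  | 1 => .nil △ R
  | 2 => R △ .nil
  | 3 => S △ B
  | 4 => app S (B △ .nil)
  | _ => .nil △ S

theorem sx_le (h : SqD k R B S) (h' : SqD k R' B' S') {i j : ℕ} (hij : i ≤ j) (hj : j < 6)
    (hi5 : i = 5 → B = .nil) (hj5 : j = 5 → B' = .nil) (e : sx R B S i = sx R' B' S' j) :
    Rel R B S R' B' S' := by
  have hi : i < 6 := by omega
  interval_cases i
  · interval_cases j
    · exact Or.inl (H1.app_snoc e).1
    · exact absurd e h.appR
    · exact absurd e h.lenR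
    · exact absurd e.symm h'.lstSB
    · have := H1.app_snoc e
      exact Or.inr (Or.inl ⟨this.2.symm, this.1⟩)
    · exact absurd e h.appR
  · interval_cases j
    · exact Or.inl (H1.node_inj e).2
    · exact absurd (H1.node_inj e).1.symm h'.ne
    · exact absurd (H1.node_inj e).1.symm h'.neS
    · exact absurd e.symm h'.appS
    · exact Or.inr (Or.inl ⟨hj5 rfl, (H1.node_inj e).2⟩)
  · interval_cases j
    · exact Or.inl (H1.node_inj e).1
    · exact Or.inr (Or.inl ⟨(H1.node_inj e).2.symm, (H1.node_inj e).1⟩)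
    · exact absurd e.symm h'.lenS
    · exact absurd (H1.node_inj e).1 h.ne
  · interval_cases j
    · obtain ⟨rfl, rfl⟩ := H1.node_inj e
      exact Or.inl (h.injD h')
    · exact Or.inr (Or.inr (Or.inr (Or.inl e)))
    · exact absurd (H1.node_inj e).1 h.neS
  · interval_cases j
    · obtain ⟨rfl, rfl⟩ := H1.app_snoc e
      exact Or.inl (h.injD h')
    · exact absurd e h.appS
  · interval_cases j
    · have e1 := hi5 rfl
      have e2 := hj5 rfl
      subst e1
      subst e2
      have e3 := (H1.node_inj e).2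
      subst e3
      exact Or.inl (h.injD h')

/-- one of the six heads -/
def Sx (R B S Y : BinaryTree Unit) : Prop := ∃ i < 6, (i = 5 → B = .nil) ∧ Y = sx R B S i

theorem Sx.rel (h : SqD k R B S) (h' : SqD k R' B' S') (h1 : Sx R B S Y) (h2 : Sx R' B' S' Y) :
    Rel R B S R' B' S' := by
  obtain ⟨i, hi, hi5, rfl⟩ := h1
  obtain ⟨j, hj, hj5, e⟩ := h2
  rcases Nat.le_total i j with hij | hij
  · exact sx_le h h' hij hj hi5 hj5 e
  · exact (sx_le h' h hij hi hj5 hi5 e.symm).symm

theorem SqD.fstX (h : SqD k R B S) {i : ℕ} (hi : i < 20)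
    (e : H1.W R .nil B S i = .nil △ Y) : Sx R B S Y := by
  by_cases h9 : i = 9
  · subst h9
    exact absurd (H1.node_inj e).1 (by simp)
  rcases h.fst hi h9 e with ⟨_, e2⟩ | ⟨_, e2⟩ | ⟨_, e2⟩ | ⟨_, e2⟩ | ⟨_, e2⟩ | ⟨_, hB, e2⟩
  · exact ⟨0, by norm_num, by simp, e2⟩
  · exact ⟨1, by norm_num, by simp, e2⟩
  · exact ⟨2, by norm_num, by simp, e2⟩
  · exact ⟨3, by norm_num, by simp, e2⟩
  · exact ⟨4, by norm_num, by simp, e2⟩
  · exact ⟨5, by norm_num, fun _ => hB, e2⟩

theorem SqD.lstX (h : SqD k R B S) {i : ℕ} (hi : i < 20)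
    (e : H1.W R .nil B S i = app Y (.nil △ .nil)) : Sx R B S Y := by
  by_cases h9 : i = 9
  · subst h9
    have e' : app .nil ((R △ .nil) △ .nil) = app Y (.nil △ .nil) := e
    exact absurd (H1.app_snoc e').2 (by simp)
  rcases h.lst hi h9 e with ⟨_, e2⟩ | ⟨_, e2⟩ | ⟨_, e2⟩ | ⟨_, e2⟩ | ⟨_, e2⟩ | ⟨_, hB, e2⟩
  · exact ⟨0, by norm_num, by simp, e2⟩
  · exact ⟨1, by norm_num, by simp, e2⟩
  · exact ⟨2, by norm_num, by simp, e2⟩
  · exact ⟨3, by norm_num, by simp, e2⟩
  · exact ⟨4, by norm_num, by simp, e2⟩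
  · exact ⟨5, by norm_num, fun _ => hB, e2⟩

theorem SqD.oneX (h : SqD k R B S) {i : ℕ} (hi : i < 20)
    (e : H1.W R .nil B S i = Y △ .nil) : Sx R B S Y := by
  by_cases h9 : i = 9
  · subst h9
    exact ⟨2, by norm_num, by simp, (H1.node_inj e).1.symm⟩
  rcases h.one1 hi h9 e with ⟨_, e2⟩ | ⟨_, e2⟩ | ⟨_, e2⟩ | ⟨_, e2⟩ | ⟨_, hB, e2⟩
  · exact ⟨0, by norm_num, by simp, e2⟩
  · exact ⟨1, by norm_num, by simp, e2⟩
  · exact ⟨3, by norm_num, by simp, e2⟩
  · exact ⟨4, by norm_num, by simp, e2⟩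
  · exact ⟨5, by norm_num, fun _ => hB, e2⟩

/-- a word is `()Y`, `Y()`, `(Y)` with one of the six heads, or one of `0 4 10 13`, `11 14` with `B ≠ nil` -/
theorem wcase (R B S : BinaryTree Unit) {i : ℕ} (hi : i < 20) :
    (∃ Y, Sx R B S Y ∧ (H1.W R .nil B S i = .nil △ Y ∨ H1.W R .nil B S i = app Y (.nil △ .nil) ∨
      H1.W R .nil B S i = Y △ .nil)) ∨
    (i = 0 ∨ i = 4 ∨ i = 10 ∨ i = 13 ∨ (i = 11 ∧ B ≠ .nil) ∨ (i = 14 ∧ B ≠ .nil)) := by
  have a : Sx R B S (app R (.nil △ .nil)) := ⟨0, by norm_num, by simp, rfl⟩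
  have b : Sx R B S (.nil △ R) := ⟨1, by norm_num, by simp, rfl⟩
  have c : Sx R B S (R △ .nil) := ⟨2, by norm_num, by simp, rfl⟩
  have d : Sx R B S (S △ B) := ⟨3, by norm_num, by simp, rfl⟩
  have f : Sx R B S (app S (B △ .nil)) := ⟨4, by norm_num, by simp, rfl⟩
  interval_cases i
  · simp
  · left
    refine ⟨_, a, Or.inr (Or.inl ?_)⟩
    rw [H1.app_assoc]; rfl
  · exact Or.inl ⟨_, a, Or.inl rfl⟩
  · exact Or.inl ⟨_, a, Or.inr (Or.inr rfl)⟩
  · simp
  · exact Or.inl ⟨_, b, Or.inl rfl⟩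
  · exact Or.inl ⟨_, c, Or.inr (Or.inl rfl)⟩
  · exact Or.inl ⟨_, b, Or.inr (Or.inr rfl)⟩
  · exact Or.inl ⟨_, c, Or.inl rfl⟩
  · exact Or.inl ⟨_, c, Or.inr (Or.inr rfl)⟩
  · simp
  · by_cases hB : B = .nil
    · subst hB
      exact Or.inl ⟨_, ⟨5, by norm_num, fun _ => rfl, rfl⟩, Or.inl rfl⟩
    · simp [hB]
  · exact Or.inl ⟨_, d, Or.inr (Or.inl rfl)⟩
  · simp
  · by_cases hB : B = .nil
    · subst hB
      exact Or.inl ⟨_, ⟨5, by norm_num, fun _ => rfl, rfl⟩, Or.inr (Or.inr rfl)⟩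
    · simp [hB]
  · exact Or.inl ⟨_, d, Or.inl rfl⟩
  · left
    refine ⟨_, f, Or.inr (Or.inl ?_)⟩
    rw [H1.app_assoc]; rfl
  · exact Or.inl ⟨_, d, Or.inr (Or.inr rfl)⟩
  · exact Or.inl ⟨_, f, Or.inl rfl⟩
  · exact Or.inl ⟨_, f, Or.inr (Or.inr rfl)⟩

/-! ### The other words -/

/-- the last tall component -/
theorem last_tall {c : ℕ} {X X' Z Z' : BinaryTree Unit} (hX : OddHC.ht X + 1 = c) (hX' : OddHC.ht X' + 1 = c)
    (hZ : OddHC.ht Z < c) (hZ' : OddHC.ht Z' < c) :
    ∀ P P' : BinaryTree Unit, app P (X △ Z) = app P' (X' △ Z') → P = P' ∧ X = X' ∧ Z = Z' := by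
  intro P
  induction P with
  | nil =>
    intro P' e
    cases P' with
    | nil =>
      obtain ⟨e1, e2⟩ := H1.node_inj (show X △ Z = X' △ Z' from e)
      exact ⟨rfl, e1, e2⟩
    | node u C D =>
      exfalso
      obtain ⟨e1, e2⟩ := H1.node_inj (show X △ Z = C △ app D (X' △ Z') from e)
      rw [e2, OddHC.ht_app, OddHC.ht_node] at hZ
      omega
  | node u C D _ ih =>
    intro P' e
    cases P' with
    | nil =>
      exfalso
      obtain ⟨e1, e2⟩ := H1.node_inj (show C △ app D (X △ Z) = X' △ Z' from e)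
      rw [← e2, OddHC.ht_app, OddHC.ht_node] at hZ'
      omega
    | node v C' D' =>
      obtain ⟨e1, e2⟩ := H1.node_inj (show C △ app D (X △ Z) = C' △ app D' (X' △ Z') from e)
      obtain ⟨k1, k2, k3⟩ := ih D' e2
      exact ⟨by rw [e1, k1], k2, k3⟩

/-- the first component `()` -/
theorem first_bead {P P' Z Z' : BinaryTree Unit} (h : (OddHC.cont P).count 1 = 0)
    (h' : (OddHC.cont P').count 1 = 0) (e : app P (.nil △ Z) = app P' (.nil △ Z')) : P = P' ∧ Z = Z' := by
  induction P generalizing P' with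
  | nil =>
    by_cases hP : P' = .nil
    · subst hP
      exact ⟨rfl, (H1.node_inj e).2⟩
    · exfalso
      obtain ⟨Q, e1, _⟩ := fst_app hP (show app P' (.nil △ Z') = .nil △ Z from e.symm)
      exact ne_nil_node h' e1
  | node u C D _ ih =>
    cases P' with
    | nil =>
      exfalso
      obtain ⟨Q, e1, _⟩ := fst_app (P := C △ D) (by simp) (show app (C △ D) (.nil △ Z) = .nil △ Z' from e)
      exact ne_nil_node h e1
    | node v C' D' =>
      obtain ⟨e1, e2⟩ := H1.node_inj (show C △ app D (.nil △ Z) = C' △ app D' (.nil △ Z') from e)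
      obtain ⟨k1, k2⟩ := ih (cnt_node h) (cnt_node h') e2
      exact ⟨by rw [e1, k1], k2⟩

theorem nil_or {Q : BinaryTree Unit} (e : app Q (.nil △ .nil) = .nil △ .nil) : Q = .nil :=
  (H1.app_snoc (P' := .nil) e).1

/-- number of beads `()` -/
theorem cnt_bead (P Q : BinaryTree Unit) : 1 ≤ (OddHC.cont (app P (.nil △ Q))).count 1 := by
  have e : OddHC.cont (BinaryTree.nil △ Q) = raise (OddHC.cont BinaryTree.nil) + OddHC.cont Q := rfl
  rw [OddHC.cont_app, e, raise_nil, Multiset.count_add, Multiset.count_add, Multiset.count_singleton_self]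
  omega

theorem cnt_zero_node {P Q : BinaryTree Unit} (h : (OddHC.cont P).count 1 = 0)
    (hQ : (OddHC.cont Q).count 1 = 0) :
    (OddHC.cont (app P ((.nil △ .nil) △ Q))).count 1 = 0 := by
  have e : OddHC.cont ((.nil △ .nil : BinaryTree Unit) △ Q) = {2} + OddHC.cont Q := by
    rw [OddHC.cont_node, OddHC.cont_node, raise_nil, OddHC.cont_nil, add_zero]
    rfl
  rw [OddHC.cont_app, e, Multiset.count_add, Multiset.count_add, h, hQ]
  decide

/-- a component `(()S)` has a part 1 -/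
theorem no_cS {C D : BinaryTree Unit} (hC : C ≠ .nil) (h : (OddHC.cont ((.nil △ C) △ D)).count 1 = 0) : False := by
  rcases cnt_inner h with e | e
  · exact hC (H1.node_inj e).2
  · have := cnt_bead .nil C
    change 1 ≤ (OddHC.cont (.nil △ C)).count 1 at this
    omega

/-- the six other words -/
def cx (R B S : BinaryTree Unit) : ℕ → BinaryTree Unit
  | 0 => app R ((.nil △ .nil) △ .nil)
  | 1 => (.nil △ .nil) △ R
  | 2 => app B ((.nil △ .nil) △ S)
  | 3 => app S (app B (.nil △ .nil) △ .nil)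
  | 4 => app B (.nil △ (.nil △ S))
  | _ => (.nil △ S) △ B

theorem SqD.htcx (h : SqD k R B S) {i : ℕ} (hi : i < 3) : OddHC.ht (cx R B S i) = OddHC.ht R := by
  have h3 := h.h3
  have h1 := h.htS
  have h2 := h.htB
  have z0 : OddHC.ht (BinaryTree.nil : BinaryTree Unit) = 0 := rfl
  interval_cases i
  · change OddHC.ht (app R ((.nil △ .nil) △ .nil)) = _
    rw [OddHC.ht_app, OddHC.ht_node, OddHC.ht_node]; omega
  · change OddHC.ht ((.nil △ .nil) △ R) = _
    rw [OddHC.ht_node, OddHC.ht_node]; omega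
  · change OddHC.ht (app B ((.nil △ .nil) △ S)) = _
    rw [OddHC.ht_app, OddHC.ht_node, OddHC.ht_node]; omega

theorem cx_le2 (h : SqD k R B S) (h' : SqD k R' B' S') {i j : ℕ} (hij : i ≤ j) (hj : j < 6)
    (hi4 : 4 ≤ i → B ≠ .nil) (hj4 : 4 ≤ j → B' ≠ .nil) (e : cx R B S i = cx R' B' S' j) :
    (R = R' ∨ (B' = .nil ∧ R = S')) ∨ (i < j ∧ j < 3) := by
  have hi : i < 6 := by omega
  have hR0 := h.one
  have hS0 := h.oneS
  have hB0 := h.oneB
  have hR0' := h'.one
  have hS0' := h'.oneS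
  have hB0' := h'.oneB
  have z1 : OddHC.ht (BinaryTree.nil △ BinaryTree.nil : BinaryTree Unit) = 1 := rfl
  have r3 := h.h3
  have r3' := h'.h3
  -- the first three words have no bead
  have c3 : ∀ i < 3, (OddHC.cont (cx R B S i)).count 1 = 0 := by
    intro i hi
    interval_cases i
    · exact cnt_zero_node hR0 (Q := .nil) (by simp [OddHC.cont])
    · exact cnt_zero_node (P := .nil) (by simp [OddHC.cont]) hR0
    · exact cnt_zero_node hB0 hS0
  have q4 : 1 ≤ (OddHC.cont (cx R' B' S' 4)).count 1 := cnt_bead _ _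
  have nf : ∀ {C D : BinaryTree Unit}, C ≠ .nil → (OddHC.cont ((.nil △ C) △ D)).count 1 ≠ 0 :=
    fun hC h => no_cS hC h
  interval_cases i
  · interval_cases j
    · exact Or.inl (Or.inl (H1.app_snoc e).1)
    · right; omega
    · right; omega
    · left
      obtain ⟨e1, e2⟩ := H1.app_snoc e
      exact Or.inr ⟨nil_or e2.symm, e1⟩
    · exfalso
      have := c3 0 (by norm_num)
      rw [e] at this
      omega
    · exfalso
      have := c3 0 (by norm_num)
      rw [e] at this
      exact nf h'.neS this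
  · interval_cases j
    · exact Or.inl (Or.inl (H1.node_inj e).2)
    · right; omega
    · exfalso
      obtain ⟨X, Y, e1, hX, hY⟩ := h'.top2
      have e2 : (.nil △ .nil) △ R = app S' (app B' (.nil △ .nil) △ .nil) := e
      rw [e1] at e2
      have := (H1.node_inj e2).1
      rw [← this] at hX
      omega
    · exfalso
      have := c3 1 (by norm_num)
      rw [e] at this
      omega
    · exfalso
      have := c3 1 (by norm_num)
      rw [e] at this
      exact nf h'.neS this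
  · interval_cases j
    · -- 10, 10
      left; left
      have hh : OddHC.ht R = OddHC.ht R' := by
        rw [← h.htcx (i := 2) (by norm_num), e, h'.htcx (by norm_num)]
      obtain ⟨X, Y, rfl, hX, hY⟩ := h.top2
      obtain ⟨X', Y', rfl, hX', hY'⟩ := h'.top2
      have e2 : app (app B ((.nil △ .nil) △ .nil)) (X △ Y) = app (app B' ((.nil △ .nil) △ .nil)) (X' △ Y') := by
        rw [H1.app_assoc, H1.app_assoc]
        exact e
      obtain ⟨k1, rfl, rfl⟩ := last_tall hX (by omega) hY (by omega) _ _ e2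
      obtain ⟨rfl, -⟩ := H1.app_snoc k1
      exact h.injD h'
    · -- 10, 13
      exfalso
      have e2 : app B ((.nil △ .nil) △ S) = app S' (app B' (.nil △ .nil) △ .nil) := e
      have hc := c3 2 (by norm_num)
      rw [e] at hc
      have hB' : B' = .nil := by
        by_contra hB'
        have e3 : (OddHC.cont (app B' (.nil △ .nil) △ .nil)).count 1 = 0 := (cnt_app hc).2
        rcases cnt_inner e3 with e4 | e4
        · exact hB' (nil_or e4)
        · have := cnt_bead B' .nil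
          omega
      subst hB'
      have hh : OddHC.ht R = OddHC.ht R' := by
        have e3 := congrArg OddHC.ht e2
        have e4 := h.htcx (i := 2) (by norm_num)
        change OddHC.ht (app B ((.nil △ .nil) △ S)) = _ at e4
        rw [← e4, e2]
        change OddHC.ht (app S' ((.nil △ .nil) △ .nil)) = _
        have z0 : OddHC.ht (BinaryTree.nil : BinaryTree Unit) = 0 := rfl
        have := h'.htS
        rw [OddHC.ht_app, OddHC.ht_node]
        omega
      obtain ⟨X, Y, e5, hX, hY⟩ := h.top2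
      obtain ⟨X', Y', e6, hX', hY'⟩ := h'.top2
      rw [e5, e6] at e2
      have e7 : app (app B ((.nil △ .nil) △ .nil)) (X △ Y) = app .nil (X' △ app Y' ((.nil △ .nil) △ .nil)) := by
        rw [H1.app_assoc]
        exact e2
      have z0 : OddHC.ht (BinaryTree.nil : BinaryTree Unit) = 0 := rfl
      obtain ⟨k1, -, -⟩ := last_tall hX (by omega) hY (by
        rw [OddHC.ht_app, OddHC.ht_node]
        omega) _ _ e7
      exact H1.app_ne (by simp) k1
    · exfalso
      have := c3 2 (by norm_num)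
      rw [e] at this
      omega
    · exfalso
      have := c3 2 (by norm_num)
      rw [e] at this
      exact nf h'.neS this
  · interval_cases j
    · left; left
      obtain ⟨rfl, e2⟩ := H1.app_snoc e
      obtain ⟨rfl, -⟩ := H1.app_snoc e2
      exact h.injD h'
    · -- 13, 11
      exfalso
      have e2 : app S (app B (.nil △ .nil) △ .nil) = app (app B' (.nil △ (.nil △ .nil))) S' := by
        rw [H1.app_assoc]
        exact e
      obtain ⟨Q, e3, e4⟩ := lst_app h'.neS e2.symm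
      rw [H1.app_assoc] at e4
      have := cnt_bead B' (app (.nil △ .nil) Q)
      rw [e4] at hS0
      change 1 ≤ (OddHC.cont (app B' (.nil △ (.nil △ Q)))).count 1 at this
      change (OddHC.cont (app B' (.nil △ (.nil △ Q)))).count 1 = 0 at hS0
      omega
    · -- 13, 14
      exfalso
      obtain ⟨Q, e3, e4⟩ := fst_app h.neS e
      rw [e3] at hS0
      exact no_cS h'.neS hS0
  · interval_cases j
    · left; left
      obtain ⟨rfl, e2⟩ := first_bead hB0 hB0' e
      obtain ⟨-, rfl⟩ := H1.node_inj e2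
      exact h.injD h'
    · exfalso
      obtain ⟨Q, e3, e4⟩ := fst_app (hi4 le_rfl) e
      rw [e3] at hB0
      exact no_cS h'.neS hB0
  · interval_cases j
    left; left
    obtain ⟨e1, rfl⟩ := H1.node_inj e
    obtain ⟨-, rfl⟩ := H1.node_inj e1
    exact h.injD h'

theorem cx_le (h : SqD k R B S) (h' : SqD k R' B' S') {i j : ℕ} (hij : i ≤ j) (hj : j < 6)
    (hi4 : 4 ≤ i → B ≠ .nil) (hj4 : 4 ≤ j → B' ≠ .nil) (e : cx R B S i = cx R' B' S' j) :
    Rel R B S R' B' S' ∨ (i < j ∧ j < 3) := by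
  rcases cx_le2 h h' hij hj hi4 hj4 e with (h1 | h1) | h1
  · exact Or.inl (Or.inl h1)
  · exact Or.inl (Or.inr (Or.inl h1))
  · exact Or.inr h1

/-- **the common words of two families** (all twenty words on both sides) -/
theorem SqD.meet (h : SqD k R B S) (h' : SqD k R' B' S') {i j : ℕ} (hi : i < 20) (hj : j < 20)
    (e : H1.W R .nil B S i = H1.W R' .nil B' S' j) :
    Rel R B S R' B' S' ∨ (i = 0 ∨ i = 4 ∨ i = 10) ∧ (j = 0 ∨ j = 4 ∨ j = 10) ∧ i ≠ j := by
  rcases wcase R B S hi with ⟨Y, hY, e1⟩ | hi'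
  · left
    rcases e1 with e1 | e1 | e1
    · exact hY.rel h h' (h'.fstX hj (by rw [← e, e1]))
    · exact hY.rel h h' (h'.lstX hj (by rw [← e, e1]))
    · exact hY.rel h h' (h'.oneX hj (by rw [← e, e1]))
  · rcases wcase R' B' S' hj with ⟨Y, hY, e1⟩ | hj'
    · left
      rcases e1 with e1 | e1 | e1
      · exact (h.fstX hi (by rw [e, e1])).rel h h' hY
      · exact (h.lstX hi (by rw [e, e1])).rel h h' hY
      · exact (h.oneX hi (by rw [e, e1])).rel h h' hY
    · -- both in the class group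
      have key : ∀ (R B S : BinaryTree Unit) (i : ℕ),
          (i = 0 ∨ i = 4 ∨ i = 10 ∨ i = 13 ∨ (i = 11 ∧ B ≠ .nil) ∨ (i = 14 ∧ B ≠ .nil)) →
          ∃ a, a < 6 ∧ (4 ≤ a → B ≠ .nil) ∧ H1.W R .nil B S i = cx R B S a ∧
            (a = 0 ∧ i = 0 ∨ a = 1 ∧ i = 4 ∨ a = 2 ∧ i = 10 ∨ 3 ≤ a) := by
        intro R B S i hi
        rcases hi with rfl | rfl | rfl | rfl | ⟨rfl, hB⟩ | ⟨rfl, hB⟩
        · exact ⟨0, by norm_num, by simp, rfl, by simp⟩
        · exact ⟨1, by norm_num, by simp, rfl, by simp⟩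
        · exact ⟨2, by norm_num, by simp, rfl, by simp⟩
        · exact ⟨3, by norm_num, by simp, rfl, by simp⟩
        · exact ⟨4, by norm_num, fun _ => hB, rfl, by simp⟩
        · exact ⟨5, by norm_num, fun _ => hB, rfl, by simp⟩
      obtain ⟨a, ha, ha4, ea, ia⟩ := key R B S i hi'
      obtain ⟨b, hb, hb4, eb, ib⟩ := key R' B' S' j hj'
      rw [ea, eb] at e
      rcases Nat.le_total a b with hab | hab
      · rcases cx_le h h' hab hb ha4 hb4 e with h1 | ⟨h1, h2⟩
        · exact Or.inl h1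
        · right
          omega
      · rcases cx_le h' h hab ha hb4 ha4 e.symm with h1 | ⟨h1, h2⟩
        · exact Or.inl h1.symm
        · right
          omega

/-! ### The class words `0 4 10` -/

/-- `R(()) = (())R'` -/
theorem SqD.c04 (h : SqD k R B S) (h' : SqD k R' B' S') (e : H1.W R .nil B S 0 = H1.W R' .nil B' S' 4) :
    ∃ Q, R = (.nil △ .nil) △ Q ∧ R' = app Q ((.nil △ .nil) △ .nil) := by
  exact fst_app h.ne e

/-- `R(()) = B'(())S'` -/
theorem SqD.c010 (h : SqD k R B S) (h' : SqD k R' B' S') (e : H1.W R .nil B S 0 = H1.W R' .nil B' S' 10) :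
    ∃ Q, S' = app Q ((.nil △ .nil) △ .nil) ∧ R = app B' ((.nil △ .nil) △ Q) := by
  have e' : app (app B' ((.nil △ .nil) △ .nil)) S' = app R ((.nil △ .nil) △ .nil) := by
    rw [H1.app_assoc]
    exact e.symm
  obtain ⟨Q, e1, e2⟩ := lst_app h'.neS e'
  rw [H1.app_assoc] at e2
  exact ⟨Q, e1, e2⟩

/-- `(())R = B'(())S'` -/
theorem SqD.c410 (h : SqD k R B S) (h' : SqD k R' B' S') (e : H1.W R .nil B S 4 = H1.W R' .nil B' S' 10) :
    (B' = .nil ∧ R = S') ∨ ∃ Q, B' = (.nil △ .nil) △ Q ∧ R = app Q ((.nil △ .nil) △ S') := by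
  by_cases hB : B' = .nil
  · subst hB
    exact Or.inl ⟨rfl, (H1.node_inj e).2⟩
  · exact Or.inr (fst_app hB e.symm)

end J3

end Pool.OddHC
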