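import Pool.Agent.Work.MP_8f87b2_h6.TyJ3V
import Pool.Agent.Work.MP_8f87b2_mid.DisC
import Pool.Agent.Work.MP_8f87b2_h71ae.AE

/-!
# J3V against the plain types (helper4)

Shape of the 19 words `W R nil B S i` (`i ≠ 9`): first component `()`, last component `()`, one component.
-/

set_option autoImplicit false
set_option linter.unusedSimpArgs false

namespace Pool.OddHC

open Finset Equiv BinaryTree Pool.Agent.Work.MP_8f87b2_co

namespace J3

variable {k : ℕ} {R B S Y : BinaryTree Unit}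

theorem tabF_dec : ∀ b : Bool, ∀ i : Fin 20, tabF b i.1 = true →
    i.1 = 2 ∨ i.1 = 5 ∨ i.1 = 8 ∨ i.1 = 15 ∨ i.1 = 18 ∨ (b = true ∧ i.1 = 11) := by decide

theorem tabL_dec : ∀ b : Bool, ∀ i : Fin 20, tabL b i.1 = true →
    i.1 = 1 ∨ i.1 = 2 ∨ i.1 = 6 ∨ i.1 = 12 ∨ i.1 = 16 ∨ (b = true ∧ i.1 = 18) := by decide

/-- the words `()Y` -/
theorem SqD.fst (h : SqD k R B S) {i : ℕ} (hi : i < 20) (h9 : i ≠ 9)
    (e : H1.W R .nil B S i = .nil △ Y) :
    (i = 2 ∧ Y = app R (.nil △ .nil)) ∨ (i = 5 ∧ Y = .nil △ R) ∨ (i = 8 ∧ Y = R △ .nil) ∨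
    (i = 15 ∧ Y = S △ B) ∨ (i = 18 ∧ Y = app S (B △ .nil)) ∨
    (i = 11 ∧ B = .nil ∧ Y = .nil △ S) := by
  obtain ⟨a1, -, -⟩ := h.tab hi h9
  rw [e] at a1
  have a2 : tabF (H1.isNil B) i = true := a1.symm
  rcases tabF_dec _ ⟨i, hi⟩ a2 with hm | hm | hm | hm | hm | ⟨hb, hm⟩
  · change i = 2 at hm
    subst hm
    exact Or.inl ⟨rfl, (H1.node_inj e).2.symm⟩
  · change i = 5 at hm
    subst hm
    exact Or.inr (Or.inl ⟨rfl, (H1.node_inj e).2.symm⟩)
  · change i = 8 at hm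
    subst hm
    exact Or.inr (Or.inr (Or.inl ⟨rfl, (H1.node_inj e).2.symm⟩))
  · change i = 15 at hm
    subst hm
    exact Or.inr (Or.inr (Or.inr (Or.inl ⟨rfl, (H1.node_inj e).2.symm⟩)))
  · change i = 18 at hm
    subst hm
    exact Or.inr (Or.inr (Or.inr (Or.inr (Or.inl ⟨rfl, (H1.node_inj e).2.symm⟩))))
  · change i = 11 at hm
    subst hm
    have hB : B = .nil := by
      by_contra hB
      rw [H1.isNil_f.2 hB] at hb
      exact Bool.false_ne_true hb
    subst hB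
    exact Or.inr (Or.inr (Or.inr (Or.inr (Or.inr ⟨rfl, rfl, (H1.node_inj e).2.symm⟩))))

/-- the words `Y()` -/
theorem SqD.lst (h : SqD k R B S) {i : ℕ} (hi : i < 20) (h9 : i ≠ 9)
    (e : H1.W R .nil B S i = app Y (.nil △ .nil)) :
    (i = 1 ∧ Y = app R (.nil △ .nil)) ∨ (i = 2 ∧ Y = .nil △ R) ∨ (i = 6 ∧ Y = R △ .nil) ∨
    (i = 12 ∧ Y = S △ B) ∨ (i = 16 ∧ Y = app S (B △ .nil)) ∨
    (i = 18 ∧ B = .nil ∧ Y = .nil △ S) := by
  obtain ⟨-, a1, -⟩ := h.tab hi h9
  rw [e, H1.lastB_app (by simp)] at a1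
  have a2 : tabL (H1.isNil B) i = true := a1.symm
  rcases tabL_dec _ ⟨i, hi⟩ a2 with hm | hm | hm | hm | hm | ⟨hb, hm⟩
  · change i = 1 at hm
    subst hm
    have e' : app (app R (.nil △ .nil)) (.nil △ .nil) = app Y (.nil △ .nil) := by
      rw [← e, H1.app_assoc]; rfl
    exact Or.inl ⟨rfl, (H1.app_snoc e').1.symm⟩
  · change i = 2 at hm
    subst hm
    have e' : app (.nil △ R) (.nil △ .nil) = app Y (.nil △ .nil) := by
      rw [← e]; rfl
    exact Or.inr (Or.inl ⟨rfl, (H1.app_snoc e').1.symm⟩)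
  · change i = 6 at hm
    subst hm
    have e' : app (R △ .nil) (.nil △ .nil) = app Y (.nil △ .nil) := by
      rw [← e]; rfl
    exact Or.inr (Or.inr (Or.inl ⟨rfl, (H1.app_snoc e').1.symm⟩))
  · change i = 12 at hm
    subst hm
    have e' : app (S △ B) (.nil △ .nil) = app Y (.nil △ .nil) := by
      rw [← e]; rfl
    exact Or.inr (Or.inr (Or.inr (Or.inl ⟨rfl, (H1.app_snoc e').1.symm⟩)))
  · change i = 16 at hm
    subst hm
    have e' : app (app S (B △ .nil)) (.nil △ .nil) = app Y (.nil △ .nil) := by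
      rw [← e, H1.app_assoc]; rfl
    exact Or.inr (Or.inr (Or.inr (Or.inr (Or.inl ⟨rfl, (H1.app_snoc e').1.symm⟩))))
  · change i = 18 at hm
    subst hm
    have hB : B = .nil := by
      by_contra hB
      rw [H1.isNil_f.2 hB] at hb
      exact Bool.false_ne_true hb
    subst hB
    have e' : app (.nil △ S) (.nil △ .nil) = app Y (.nil △ .nil) := by
      rw [← e]; rfl
    exact Or.inr (Or.inr (Or.inr (Or.inr (Or.inr ⟨rfl, rfl, (H1.app_snoc e').1.symm⟩))))

/-- the words `(Y)` -/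
theorem SqD.one1 (h : SqD k R B S) {i : ℕ} (hi : i < 20) (h9 : i ≠ 9)
    (e : H1.W R .nil B S i = Y △ .nil) :
    (i = 3 ∧ Y = app R (.nil △ .nil)) ∨ (i = 7 ∧ Y = .nil △ R) ∨ (i = 17 ∧ Y = S △ B) ∨
    (i = 19 ∧ Y = app S (B △ .nil)) ∨ (i = 14 ∧ B = .nil ∧ Y = .nil △ S) := by
  have l := congrArg H1.len e
  have lR := H1.len_pos h.ne
  have lS := H1.len_pos h.neS
  have la : ∀ P Q : BinaryTree Unit, H1.len (P △ Q) = H1.len Q + 1 := fun _ _ => rfl
  have l0 : H1.len (BinaryTree.nil : BinaryTree Unit) = 0 := rfl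
  rw [la, l0] at l
  interval_cases i
  · simp only [H1.W, H1.len_app, la, l0] at l; omega
  · simp only [H1.W, app, H1.len_app, la, l0] at l; omega
  · simp only [H1.W, H1.len_app, la, l0] at l; omega
  · exact Or.inl ⟨rfl, (H1.node_inj e).1.symm⟩
  · simp only [H1.W, app, H1.len_app, la, l0] at l; omega
  · simp only [H1.W, H1.len_app, la, l0] at l; omega
  · simp only [H1.W, H1.len_app, la, l0] at l; omega
  · exact Or.inr (Or.inl ⟨rfl, (H1.node_inj e).1.symm⟩)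
  · simp only [H1.W, app, H1.len_app, la, l0] at l; omega
  · exact absurd rfl h9
  · simp only [H1.W, H1.len_app, la, l0] at l; omega
  · simp only [H1.W, app, H1.len_app, la, l0] at l; omega
  · simp only [H1.W, H1.len_app, la, l0] at l; omega
  · simp only [H1.W, H1.len_app, la, l0] at l; omega
  · have hB : B = .nil := by
      by_contra hB
      have := H1.len_pos hB
      simp only [H1.W, app, la, l0] at l; omega
    subst hB
    exact Or.inr (Or.inr (Or.inr (Or.inr ⟨rfl, rfl, (H1.node_inj e).1.symm⟩)))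
  · simp only [H1.W, la, l0] at l; omega
  · simp only [H1.W, H1.len_app, la, l0] at l; omega
  · exact Or.inr (Or.inr (Or.inl ⟨rfl, (H1.node_inj e).1.symm⟩))
  · simp only [H1.W, app, H1.len_app, la, l0] at l; omega
  · exact Or.inr (Or.inr (Or.inr (Or.inl ⟨rfl, (H1.node_inj e).1.symm⟩)))

end J3

end Pool.OddHC
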