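import Pool.Agent.Work.MP_8f87b2_h4.J3VP

/-!
# The first component of `S` in `sq R = (S, B)` has full height (helper4)
-/

set_option autoImplicit false

namespace Pool.OddHC

open Finset Equiv BinaryTree Pool.Agent.Work.MP_8f87b2_co

namespace J3

variable {k : ℕ} {R B S : BinaryTree Unit}

theorem sq_top : ∀ t : BinaryTree Unit, t ≠ .nil →
    ∃ X Y, (Tsq.sq t).1 = X △ Y ∧ Tsq.ht X + 1 = Tsq.ht t := by
  intro t
  induction t with
  | nil => intro h; exact absurd rfl h
  | node u A C ihA ihC =>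
    intro _
    by_cases h : Tsq.ht A + 1 < Tsq.ht C
    · have hC : C ≠ .nil := by
        rintro rfl
        exact absurd h (by simp [Tsq.ht])
      obtain ⟨X, Y, e, hX⟩ := ihC hC
      refine ⟨A △ X, Y, ?_, ?_⟩
      · exact congrArg Prod.fst (Tsq.sq_lt h e)
      · rw [Tsq.ht_node]
        change _ = Tsq.ht (A △ C)
        rw [Tsq.ht_node]
        omega
    · by_cases hA : A = .nil
      · subst hA
        have h1 : Tsq.ht C ≤ 1 := by
          have : Tsq.ht (BinaryTree.nil : BinaryTree Unit) = 0 := rfl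
          omega
        refine ⟨.nil, .nil, ?_, ?_⟩
        · exact congrArg Prod.fst (Tsq.sq_nil h1)
        · change _ = Tsq.ht (.nil △ C)
          rw [Tsq.ht_node]
          have : Tsq.ht (BinaryTree.nil : BinaryTree Unit) = 0 := rfl
          omega
      · refine ⟨(Tsq.sq A).1, (Tsq.sq A).2, ?_, ?_⟩
        · exact congrArg Prod.fst (Tsq.sq_ge hA (by omega))
        · change _ = Tsq.ht (A △ C)
          rw [Tsq.ht_node, (Tsq.ht_sq hA).1]
          omega

/-- `S = (X)Y` with `ht X + 1 = ht R` -/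
theorem SqD.top (h : SqD k R B S) : ∃ X Y, S = X △ Y ∧ OddHC.ht X + 1 = OddHC.ht R := by
  obtain ⟨X, Y, e, hX⟩ := sq_top R h.ne
  rw [h.sq] at e
  rw [H1.ht_eq, H1.ht_eq] at hX
  exact ⟨X, Y, e, hX⟩

end J3

end Pool.OddHC
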